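import Pool.Agent.MP_7d75c8_lc.Basic

/-!
# Cutoffs and the basic approximation lemma
-/

open Set Filter Topology Metric Manifold
open scoped ContDiff NNReal

noncomputable section

namespace MP7d75

variable {n : ℕ}

lemma norm_le_of_coord {v : E n} {δ : ℝ} (hδ : 0 ≤ δ) (h : ∀ i, |v i| ≤ δ) :
    ‖v‖ ≤ ((n : ℝ) + 1) * δ := by
  rw [EuclideanSpace.norm_eq]
  apply Real.sqrt_le_iff.2
  refine ⟨by positivity, ?_⟩
  have h1 : ∑ i, ‖v i‖ ^ 2 ≤ ∑ _i : Fin n, δ ^ 2 := by
    apply Finset.sum_le_sum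
    intro i _
    have := h i
    rw [Real.norm_eq_abs]
    exact pow_le_pow_left₀ (abs_nonneg _) this 2
  refine h1.trans ?_
  rw [Finset.sum_const, Finset.card_univ, Fintype.card_fin, nsmul_eq_mul]
  have hn : (0:ℝ) ≤ n := Nat.cast_nonneg n
  nlinarith [sq_nonneg δ, mul_nonneg hn (sq_nonneg δ), mul_nonneg (mul_nonneg hn hn) (sq_nonneg δ)]

lemma Fam.vec_dense (𝓕 : Fam n) {f : E n → E n} (hf : ContDiff ℝ ∞ f) (R : ℝ) {ε : ℝ}
    (hε : 0 < ε) : ∃ p : E n → E n, VecIn (𝓕.A : Set (E n → ℝ)) p ∧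
      (∀ x ∈ closedBall (0 : E n) R, ‖p x - f x‖ ≤ ε) ∧
      (∀ x ∈ closedBall (0 : E n) R, ∀ y ∈ closedBall (0 : E n) R,
        ‖(p x - f x) - (p y - f y)‖ ≤ ε * ‖x - y‖) := by
  have hδ : 0 < ε / (n + 1) := by positivity
  have hfc : ∀ i, ContDiff ℝ ∞ (fun x => f x i) := contDiff_euclidean.1 hf
  choose p hp h1 h2 using fun i => 𝓕.dense _ (hfc i) R _ hδ
  refine ⟨fun x => WithLp.toLp 2 (fun i => p i x), fun i => hp i, ?_, ?_⟩
  · intro x hx
    have := norm_le_of_coord (v := WithLp.toLp 2 (fun i => p i x) - f x) hδ.le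
      (fun i => by simpa using h1 i x hx)
    refine this.trans (le_of_eq ?_)
    field_simp
  · intro x hx y hy
    have := norm_le_of_coord (v := (WithLp.toLp 2 (fun i => p i x) - f x) -
      (WithLp.toLp 2 (fun i => p i y) - f y)) (δ := ε / (n + 1) * ‖x - y‖) (by positivity)
      (fun i => by simpa using h2 i x hx y hy)
    refine this.trans (le_of_eq ?_)
    field_simp

lemma exists_cutoff {K W : Set (E n)} (hK : IsCompact K) (hW : IsOpen W) (hKW : K ⊆ W) :
    ∃ χ : E n → ℝ, ContDiff ℝ ∞ χ ∧ (∀ x, 0 ≤ χ x ∧ χ x ≤ 1) ∧ HasCompactSupport χ ∧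
      tsupport χ ⊆ W ∧ ∀ x ∈ K, ∀ᶠ y in 𝓝 x, χ y = 1 := by
  obtain ⟨K1, hK1, hKK1, hK1W⟩ := exists_compact_between hK hW hKW
  obtain ⟨K2, hK2, hK12, hK2W⟩ := exists_compact_between hK1 hW hK1W
  obtain ⟨χ, h1, h2, h3, h4⟩ := exists_contMDiff_support_eq_eq_one_iff (n := (⊤ : ℕ∞)) 𝓘(ℝ, E n)
    (isOpen_interior (s := K2)) hK1.isClosed hK12
  refine ⟨χ, h1.contDiff, fun x => ?_, ?_, ?_, ?_⟩
  · have := h2 (mem_range_self x)
    exact ⟨this.1, this.2⟩
  · apply HasCompactSupport.intro hK2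
    intro x hx
    by_contra h
    have : x ∈ Function.support χ := h
    rw [h3] at this
    exact hx (interior_subset this)
  · rw [tsupport, h3]
    exact (closure_minimal interior_subset hK2.isClosed).trans hK2W
  · intro x hx
    filter_upwards [isOpen_interior.mem_nhds (hKK1 hx)] with y hy
    exact (h4 y).1 (interior_subset hy)

lemma exists_global {V : Type*} [NormedAddCommGroup V] [NormedSpace ℝ V] {K W : Set (E n)}
    (hK : IsCompact K) (hW : IsOpen W) (hKW : K ⊆ W) {g : E n → V} (hg : ContDiffOn ℝ ∞ g W) :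
    ∃ g' : E n → V, ContDiff ℝ ∞ g' ∧ HasCompactSupport g' ∧ tsupport g' ⊆ W ∧
      ∀ x ∈ K, ∀ᶠ y in 𝓝 x, g' y = g y := by
  obtain ⟨χ, h1, h2, h3, h4, h5⟩ := exists_cutoff hK hW hKW
  refine ⟨fun x => χ x • g x, ?_, h3.smul_right, ?_, ?_⟩
  · rw [contDiff_iff_contDiffAt]
    intro x
    by_cases hx : x ∈ tsupport χ
    · exact h1.contDiffAt.smul (hg.contDiffAt (hW.mem_nhds (h4 hx)))
    · have : (fun x => χ x • g x) =ᶠ[𝓝 x] fun _ => 0 := by
        filter_upwards [(isClosed_tsupport χ).isOpen_compl.mem_nhds hx] with y hy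
        rw [image_eq_zero_of_notMem_tsupport hy, zero_smul]
      exact contDiffAt_const.congr_of_eventuallyEq this
  · refine (closure_mono ?_).trans h4
    intro x hx
    rw [Function.mem_support] at hx ⊢
    intro h
    apply hx
    rw [h, zero_smul]
  · intro x hx
    filter_upwards [h5 x hx] with y hy
    rw [hy, one_smul]

/-- The basic approximation lemma. -/
lemma Fam.exists_blend (𝓕 : Fam n) {om : E n → ℝ} (hom : ContDiff ℝ ∞ om)
    (homc : HasCompactSupport om) {u : E n → E n} (hu : ContDiff ℝ ∞ u) (huc : HasCompactSupport u)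
    {f : E n → E n} (hf : ContDiff ℝ ∞ f) {ε : ℝ} (hε : 0 < ε) :
    ∃ p : E n → E n, VecIn (𝓕.A : Set (E n → ℝ)) p ∧
      (∀ y, ‖om y • (p (u y) - f (u y))‖ ≤ ε) ∧
      (∀ y y', ‖om y • (p (u y) - f (u y)) - om y' • (p (u y') - f (u y'))‖ ≤ ε * ‖y - y'‖) := by
  obtain ⟨Lom, hLom⟩ := ContDiff.lipschitzWith_of_hasCompactSupport homc hom (by simp)
  obtain ⟨Lu, hLu⟩ := ContDiff.lipschitzWith_of_hasCompactSupport huc hu (by simp)
  obtain ⟨B, hB⟩ := homc.exists_bound_of_continuous hom.continuous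
  obtain ⟨R, hR⟩ := huc.exists_bound_of_continuous hu.continuous
  have hB0 : 0 ≤ B := (norm_nonneg _).trans (hB 0)
  set D : ℝ := 1 + B + Lom + B * Lu with hD
  have hD1 : 0 < D := by positivity
  have hδ : 0 < ε / D := by positivity
  obtain ⟨p, hp, h1, h2⟩ := 𝓕.vec_dense hf R hδ
  have hmem : ∀ y, u y ∈ closedBall (0 : E n) R := by
    intro y
    rw [mem_closedBall, dist_zero_right]
    exact hR y
  have hLom' : (0:ℝ) ≤ Lom := Lom.2
  have hLu' : (0:ℝ) ≤ Lu := Lu.2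
  refine ⟨p, hp, ?_, ?_⟩
  · intro y
    rw [norm_smul]
    calc ‖om y‖ * ‖p (u y) - f (u y)‖ ≤ B * (ε / D) :=
          mul_le_mul (hB y) (h1 _ (hmem y)) (norm_nonneg _) hB0
      _ = (B / D) * ε := by ring
      _ ≤ 1 * ε := by
          apply mul_le_mul_of_nonneg_right _ hε.le
          rw [div_le_one hD1]
          have : 0 ≤ B * (Lu:ℝ) := by positivity
          linarith
      _ = ε := one_mul _
  · intro y y'
    set a := p (u y) - f (u y) with ha
    set a' := p (u y') - f (u y') with ha'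
    have e1 : om y • a - om y' • a' = (om y - om y') • a + om y' • (a - a') := by
      module
    have e2 : ‖om y - om y'‖ ≤ Lom * ‖y - y'‖ := hLom.norm_sub_le y y'
    have e3 : ‖u y - u y'‖ ≤ Lu * ‖y - y'‖ := hLu.norm_sub_le y y'
    have e4 : ‖a - a'‖ ≤ ε / D * ‖u y - u y'‖ := h2 _ (hmem y) _ (hmem y')
    have e5 : ‖a‖ ≤ ε / D := h1 _ (hmem y)
    rw [e1]
    calc ‖(om y - om y') • a + om y' • (a - a')‖
        ≤ ‖(om y - om y') • a‖ + ‖om y' • (a - a')‖ := norm_add_le _ _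
      _ = ‖om y - om y'‖ * ‖a‖ + ‖om y'‖ * ‖a - a'‖ := by rw [norm_smul, norm_smul]
      _ ≤ (Lom * ‖y - y'‖) * (ε / D) + B * (ε / D * (Lu * ‖y - y'‖)) := by
          apply add_le_add
          · exact mul_le_mul e2 e5 (norm_nonneg _) (by positivity)
          · apply mul_le_mul (hB y') _ (norm_nonneg _) hB0
            exact e4.trans (mul_le_mul_of_nonneg_left e3 hδ.le)
      _ = ((Lom + B * Lu) / D) * (ε * ‖y - y'‖) := by ring
      _ ≤ 1 * (ε * ‖y - y'‖) := by
          apply mul_le_mul_of_nonneg_right _ (by positivity)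
          rw [div_le_one hD1]
          linarith
      _ = ε * ‖y - y'‖ := one_mul _

end MP7d75
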