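import Pool.Agent.MP_7d75c8_lc.Basic

/-!
# Perturbations of the identity, and extension of compactly supported diffeomorphisms
-/

open Set Filter Topology Metric Manifold
open scoped ContDiff NNReal

noncomputable section

namespace MP7d75

variable {n : ℕ}

lemma exists_equiv_of_injective (L : E n →L[ℝ] E n) (hL : Function.Injective L) :
    ∃ L' : E n ≃L[ℝ] E n, (L' : E n →L[ℝ] E n) = L := by
  refine ⟨(LinearEquiv.ofInjectiveEndo (L : E n →ₗ[ℝ] E n) hL).toContinuousLinearEquiv, ?_⟩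
  ext x : 1
  simp

/-- `g` is `c`-close to the identity in the Lipschitz sense on `s`. -/
def NearId (g : E n → E n) (s : Set (E n)) : Prop :=
  ∀ x ∈ s, ∀ y ∈ s, ‖(g x - x) - (g y - y)‖ ≤ 1 / 2 * ‖x - y‖

lemma NearId.approx {g : E n → E n} {s : Set (E n)} (h : NearId g s) :
    ApproximatesLinearOn g ((ContinuousLinearEquiv.refl ℝ (E n) : E n ≃L[ℝ] E n) : E n →L[ℝ] E n)
      s (1 / 2 : ℝ≥0) := by
  intro x hx y hy
  have := h x hx y hy
  have h2 : g x - g y - (x - y) = (g x - x) - (g y - y) := by abel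
  simpa [h2] using this

lemma near_const :
    Subsingleton (E n) ∨ (1 / 2 : ℝ≥0) <
      ‖((ContinuousLinearEquiv.refl ℝ (E n)).symm : E n →L[ℝ] E n)‖₊⁻¹ := by
  rcases subsingleton_or_nontrivial (E n) with h | h
  · exact Or.inl h
  · right
    have : ‖((ContinuousLinearEquiv.refl ℝ (E n)).symm : E n →L[ℝ] E n)‖₊ = 1 := by
      have h1 : ((ContinuousLinearEquiv.refl ℝ (E n)).symm : E n →L[ℝ] E n) =
        ContinuousLinearMap.id ℝ (E n) := rfl
      rw [h1]
      exact ContinuousLinearMap.nnnorm_id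
    rw [this]
    simp only [one_div, inv_one]
    exact NNReal.half_lt_self (one_ne_zero) |>.trans_le' (by simp)

lemma NearId.fderiv_injective {g : E n → E n} {s : Set (E n)} (h : NearId g s) (hs : IsOpen s)
    {x : E n} (hx : x ∈ s) (hg : DifferentiableAt ℝ g x) : Function.Injective (fderiv ℝ g x) := by
  have hd : DifferentiableAt ℝ (fun y => g y - y) x := hg.sub differentiableAt_id
  have h1 : ‖fderiv ℝ (fun y => g y - y) x‖ ≤ 1 / 2 := by
    apply norm_fderiv_le_of_lip' ℝ (by norm_num)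
    filter_upwards [hs.mem_nhds hx] with y hy
    exact h y hy x hx
  have h2 : fderiv ℝ (fun y => g y - y) x = fderiv ℝ g x - ContinuousLinearMap.id ℝ (E n) := by
    rw [fderiv_fun_sub hg differentiableAt_fun_id]
    congr 1
    exact fderiv_fun_id
  rw [injective_iff_map_eq_zero]
  intro v hv
  have h3 : (fderiv ℝ (fun y => g y - y) x) v = - v := by
    rw [h2]; simp [hv]
  have h4 := (fderiv ℝ (fun y => g y - y) x).le_opNorm v
  rw [h3, norm_neg] at h4
  have h5 : ‖v‖ ≤ 1 / 2 * ‖v‖ := h4.trans (mul_le_mul_of_nonneg_right h1 (norm_nonneg _))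
  have h6 : ‖v‖ ≤ 0 := by linarith
  exact norm_le_zero_iff.1 h6

/-- A smooth map near the identity on an open set is a smooth open embedding. -/
lemma NearId.exists_oph {g : E n → E n} {s : Set (E n)} (h : NearId g s) (hs : IsOpen s)
    (hg : ContDiffOn ℝ ∞ g s) :
    ∃ e : OpenPartialHomeomorph (E n) (E n), e.source = s ∧ (∀ x, e x = g x) ∧
      e.target = g '' s ∧ ContDiffOn ℝ ∞ e.symm e.target := by
  refine ⟨h.approx.toOpenPartialHomeomorph g s near_const hs, rfl, fun x => rfl, rfl, ?_⟩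
  set e := h.approx.toOpenPartialHomeomorph g s near_const hs with he
  intro y hy
  have hx : e.symm y ∈ s := e.map_target hy
  have hgx : ContDiffAt ℝ ∞ g (e.symm y) := hg.contDiffAt (hs.mem_nhds hx)
  have hd : DifferentiableAt ℝ g (e.symm y) := hgx.differentiableAt (by simp)
  obtain ⟨L', hL'⟩ := exists_equiv_of_injective _ (h.fderiv_injective hs hx hd)
  refine (e.contDiffAt_symm hy (f₀' := L') ?_ hgx).contDiffWithinAt
  rw [hL']
  exact hd.hasFDerivAt

/-- surjectivity on balls -/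
lemma NearId.ball_subset {g : E n → E n} {s : Set (E n)} (h : NearId g s) {y : E n} {r : ℝ}
    (hr : 0 ≤ r) (hy : closedBall y r ⊆ s) (hgy : ‖g y - y‖ ≤ r / 2) : y ∈ g '' s := by
  rcases subsingleton_or_nontrivial (E n) with hE | hE
  · exact ⟨y, hy (mem_closedBall_self hr), Subsingleton.elim _ _⟩
  have := h.approx.surjOn_closedBall_of_nonlinearRightInverse
    (ContinuousLinearEquiv.refl ℝ (E n)).toNonlinearRightInverse (b := y) hr hy
  have hn : ((ContinuousLinearEquiv.refl ℝ (E n)).toNonlinearRightInverse.nnnorm : ℝ) = 1 := by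
    have h1 : ((ContinuousLinearEquiv.refl ℝ (E n)).toNonlinearRightInverse.nnnorm) =
      ‖((ContinuousLinearEquiv.refl ℝ (E n)).symm : E n →L[ℝ] E n)‖₊ := rfl
    rw [h1]
    have h2 : ((ContinuousLinearEquiv.refl ℝ (E n)).symm : E n →L[ℝ] E n) =
        ContinuousLinearMap.id ℝ (E n) := rfl
    rw [h2, ContinuousLinearMap.nnnorm_id]
    simp
  have hmem : y ∈ closedBall (g y)
      (((((ContinuousLinearEquiv.refl ℝ (E n)).toNonlinearRightInverse.nnnorm : ℝ))⁻¹ -
        ((1 / 2 : ℝ≥0) : ℝ)) * r) := by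
    rw [hn, mem_closedBall, dist_comm, dist_eq_norm]
    have h12 : (((1:ℝ))⁻¹ - ((1 / 2 : ℝ≥0) : ℝ)) * r = r / 2 := by
      simp; ring
    rw [h12]; exact hgy
  obtain ⟨x, hx, hxy⟩ := this hmem
  exact ⟨x, hy hx, hxy⟩

/-- A global smooth perturbation of the identity is a diffeomorphism. -/
lemma exists_diffeo_of_perturb {θ : E n → E n} (hθ : ContDiff ℝ ∞ θ)
    (hL : ∀ x y, ‖θ x - θ y‖ ≤ 1 / 2 * ‖x - y‖) :
    ∃ κ : Diffeomorph 𝓘(ℝ, E n) 𝓘(ℝ, E n) (E n) (E n) ∞, ∀ x, κ x = x + θ x := by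
  set g : E n → E n := fun x => x + θ x with hg
  have hnear : NearId g univ := by
    intro x _ y _
    simpa [hg] using hL x y
  have hgs : ContDiff ℝ ∞ g := contDiff_id.add hθ
  set H : E n ≃ₜ E n := hnear.approx.toHomeomorph g near_const with hH
  have hHg : ∀ x, H x = g x := fun x => rfl
  have hsymm : ContDiff ℝ ∞ H.symm := by
    choose L' hL' using fun x : E n => exists_equiv_of_injective _
      (hnear.fderiv_injective isOpen_univ (mem_univ x) ((hgs.differentiable (by simp)) x))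
    refine H.contDiff_symm (f₀' := L') ?_ hgs
    intro a
    rw [hL']
    exact ((hgs.differentiable (by simp)) a).hasFDerivAt
  exact ⟨⟨H.toEquiv, hgs.contMDiff, hsymm.contMDiff⟩, fun x => rfl⟩

variable {N : Type*} [TopologicalSpace N] [ChartedSpace (E n) N] [T2Space N]

/-- The extension by the identity of a diffeomorphism of `ℝⁿ` supported in the target of a chart:
underlying map. -/
def extId (e : OpenPartialHomeomorph N (E n)) (κ : E n → E n) (y : N) : N :=
  open Classical in if y ∈ e.source then e.symm (κ (e y)) else y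

lemma extId_contMDiff {e : OpenPartialHomeomorph N (E n)}
    (he : e ∈ IsManifold.maximalAtlas 𝓘(ℝ, E n) ∞ N) {κ : E n → E n} (hκ : ContDiff ℝ ∞ κ)
    {S : Set (E n)} (hS : IsCompact S) (hSt : S ⊆ e.target) (hκS : ∀ x, x ∉ S → κ x = x)
    (hκt : ∀ x ∈ e.target, κ x ∈ e.target) :
    ContMDiff 𝓘(ℝ, E n) 𝓘(ℝ, E n) ∞ (extId e κ) := by
  classical
  have hcl : IsClosed (e.symm '' S) :=
    (hS.image_of_continuousOn (e.continuousOn_symm.mono hSt)).isClosed
  intro y
  by_cases hy : y ∈ e.source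
  · have h1 : ContMDiffAt 𝓘(ℝ, E n) 𝓘(ℝ, E n) ∞ e y := contMDiffAt_of_mem_maximalAtlas he hy
    have h2 : ContMDiffAt 𝓘(ℝ, E n) 𝓘(ℝ, E n) ∞ (fun z => κ (e z)) y :=
      ContMDiffAt.comp y hκ.contMDiff.contMDiffAt h1
    have h3 : ContMDiffAt 𝓘(ℝ, E n) 𝓘(ℝ, E n) ∞ (fun z => e.symm (κ (e z))) y :=
      ContMDiffAt.comp y (contMDiffAt_symm_of_mem_maximalAtlas he
        (hκt _ (e.map_source hy))) h2
    refine h3.congr_of_eventuallyEq ?_
    filter_upwards [e.open_source.mem_nhds hy] with z hz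
    simp [extId, hz]
  · have hyS : y ∉ e.symm '' S := by
      rintro ⟨x, hx, rfl⟩
      exact hy (e.map_target (hSt hx))
    have h1 : ContMDiffAt 𝓘(ℝ, E n) 𝓘(ℝ, E n) ∞ (fun z : N => z) y := contMDiffAt_id
    refine h1.congr_of_eventuallyEq ?_
    filter_upwards [hcl.isOpen_compl.mem_nhds hyS] with z hz
    by_cases hzs : z ∈ e.source
    · have : e z ∉ S := fun h => hz ⟨e z, h, e.left_inv hzs⟩
      simp [extId, hzs, hκS _ this, e.left_inv hzs]
    · simp [extId, hzs]

/-- Extension by the identity. -/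
lemma exists_extend_diffeo {e : OpenPartialHomeomorph N (E n)}
    (he : e ∈ IsManifold.maximalAtlas 𝓘(ℝ, E n) ∞ N)
    (κ : Diffeomorph 𝓘(ℝ, E n) 𝓘(ℝ, E n) (E n) (E n) ∞)
    {S : Set (E n)} (hS : IsCompact S) (hSt : S ⊆ e.target) (hκS : ∀ x, x ∉ S → κ x = x) :
    ∃ K : Diffeomorph 𝓘(ℝ, E n) 𝓘(ℝ, E n) N N ∞,
      (∀ y ∈ e.source, K y ∈ e.source ∧ e (K y) = κ (e y)) ∧ (∀ y, y ∉ e.source → K y = y) := by
  classical
  have hκS' : ∀ x, x ∉ S → κ.symm x = x := by
    intro x hx
    have := hκS x hx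
    rw [← this, κ.symm_apply_apply, this]
  have hSS : ∀ x ∈ S, κ x ∈ S := by
    intro x hx
    by_contra h
    have h1 := hκS' _ h
    rw [κ.symm_apply_apply] at h1
    rw [← h1] at h
    exact h hx
  have hSS' : ∀ x ∈ S, κ.symm x ∈ S := by
    intro x hx
    by_contra h
    have h1 := hκS _ h
    rw [κ.apply_symm_apply] at h1
    rw [← h1] at h
    exact h hx
  have hκt : ∀ x ∈ e.target, κ x ∈ e.target := by
    intro x hx
    by_cases h : x ∈ S
    · exact hSt (hSS x h)
    · rw [hκS x h]; exact hx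
  have hκt' : ∀ x ∈ e.target, κ.symm x ∈ e.target := by
    intro x hx
    by_cases h : x ∈ S
    · exact hSt (hSS' x h)
    · rw [hκS' x h]; exact hx
  refine ⟨⟨⟨extId e κ, extId e κ.symm, ?_, ?_⟩, ?_, ?_⟩, ?_, ?_⟩
  · intro y
    by_cases hy : y ∈ e.source
    · have h1 : e.symm (κ (e y)) ∈ e.source := e.map_target (hκt _ (e.map_source hy))
      simp [extId, hy, h1, e.right_inv (hκt _ (e.map_source hy)), e.left_inv hy]
    · simp [extId, hy]
  · intro y
    by_cases hy : y ∈ e.source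
    · have h1 : e.symm (κ.symm (e y)) ∈ e.source := e.map_target (hκt' _ (e.map_source hy))
      simp [extId, hy, h1, e.right_inv (hκt' _ (e.map_source hy)), e.left_inv hy]
    · simp [extId, hy]
  · exact extId_contMDiff he κ.contDiff hS hSt hκS hκt
  · exact extId_contMDiff he κ.symm.contDiff hS hSt hκS' hκt'
  · intro y hy
    have h1 : κ (e y) ∈ e.target := hκt _ (e.map_source hy)
    have h2 : extId e κ y = e.symm (κ (e y)) := by simp [extId, hy]
    refine ⟨?_, ?_⟩
    · show extId e κ y ∈ e.source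
      rw [h2]; exact e.map_target h1
    · show e (extId e κ y) = κ (e y)
      rw [h2, e.right_inv h1]
  · intro y hy
    show extId e κ y = y
    simp [extId, hy]

end MP7d75
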