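import Pool.Agent.MP_7d75c8_lc.Defs

/-!
# The glued space is a smooth manifold
-/

open Set Filter Topology Metric Manifold
open scoped ContDiff

noncomputable section

namespace MP7d75

variable {n : ℕ}

/-- The charts `e k` of the smooth manifold `M` have gluing data `c`. -/
structure Presents (c : GluingData n) (M : Type*) [TopologicalSpace M] [ChartedSpace (E n) M]
    (e : ℕ → OpenPartialHomeomorph M (E n)) : Prop where
  mem : ∀ k, e k ∈ IsManifold.maximalAtlas 𝓘(ℝ, E n) ∞ M
  cover : ∀ x, ∃ k, x ∈ (e k).source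
  target : ∀ k, (e k).target = c.dom k
  gdom_iff : ∀ i j z, z ∈ (e i).source → (e i z ∈ c.gdom i j ↔ z ∈ (e j).source)
  glue_eq : ∀ i j z, z ∈ (e i).source → z ∈ (e j).source → c.glue i j (e i z) = e j z

namespace GluingData

variable (c : GluingData n)

lemma chart_source (i : ℕ) [Nonempty (c.dom i)] : (c.chart i).source = range (c.pt i) := by
  simp [chart]

lemma chart_target (i : ℕ) [Nonempty (c.dom i)] : (c.chart i).target = c.dom i := by
  simp [chart]

lemma chart_pt (i : ℕ) [Nonempty (c.dom i)] (x : c.dom i) : c.chart i (c.pt i x) = x := by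
  simp only [chart, OpenPartialHomeomorph.coe_trans, Function.comp_apply,
    IsOpenEmbedding.toOpenPartialHomeomorph_apply]
  congr 1
  exact (IsOpenEmbedding.toOpenPartialHomeomorph (c.pt i) (c.isOpenEmbedding_pt i)).left_inv
    (by simp : x ∈ _)

lemma chart_symm (i : ℕ) [Nonempty (c.dom i)] (x : c.dom i) : (c.chart i).symm x = c.pt i x := by
  have h1 : c.pt i x ∈ (c.chart i).source := by rw [chart_source]; exact ⟨x, rfl⟩
  rw [← (c.chart i).left_inv h1, chart_pt]

lemma trans_source (i j : ℕ) [Nonempty (c.dom i)] [Nonempty (c.dom j)] {x : E n}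
    (hx : x ∈ c.dom i) : (c.chart i).symm x ∈ (c.chart j).source ↔ x ∈ c.gdom i j := by
  have := c.chart_symm i ⟨x, hx⟩
  simp only at this
  rw [this, chart_source]
  constructor
  · rintro ⟨y, hy⟩
    exact (c.pt_eq_pt.1 hy.symm).1
  · intro h
    exact ⟨⟨c.glue i j x, c.gdom_subset j i (c.glue_mem i j x h)⟩,
      (c.pt_eq_pt.2 ⟨h, rfl⟩).symm⟩

lemma trans_eq (i j : ℕ) [Nonempty (c.dom i)] [Nonempty (c.dom j)] {x : E n}
    (hx : x ∈ c.gdom i j) : c.chart j ((c.chart i).symm x) = c.glue i j x := by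
  have h1 := c.chart_symm i ⟨x, c.gdom_subset i j hx⟩
  simp only at h1
  have h2 : c.pt i ⟨x, c.gdom_subset i j hx⟩ =
      c.pt j ⟨c.glue i j x, c.gdom_subset j i (c.glue_mem i j x hx)⟩ :=
    c.pt_eq_pt.2 ⟨hx, rfl⟩
  rw [h1, h2, chart_pt]

instance isManifold : IsManifold 𝓘(ℝ, E n) ∞ c.Space := by
  apply isManifold_of_contDiffOn
  rintro _ _ ⟨i, hi, rfl⟩ ⟨j, hj, rfl⟩
  simp only [modelWithCornersSelf_coe, modelWithCornersSelf_coe_symm, Function.comp_id,
    Function.id_comp, preimage_id, range_id, inter_univ, id_eq]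
  have hsrc : ((c.chart i).symm.trans (c.chart j)).source = c.gdom i j := by
    ext x
    simp only [OpenPartialHomeomorph.trans_source, OpenPartialHomeomorph.symm_source,
      mem_inter_iff, mem_preimage, chart_target]
    constructor
    · rintro ⟨h1, h2⟩
      exact (c.trans_source i j h1).1 h2
    · intro h
      exact ⟨c.gdom_subset i j h, (c.trans_source i j (c.gdom_subset i j h)).2 h⟩
  rw [hsrc]
  refine (c.glue_smooth i j).congr ?_
  intro x hx
  exact c.trans_eq i j hx

/-- The charts `ℕ → OpenPartialHomeomorph` of the glued space. -/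
theorem exists_presents [Nonempty c.Space] :
    ∃ e : ℕ → OpenPartialHomeomorph c.Space (E n), Presents c c.Space e := by
  classical
  obtain ⟨s0⟩ := ‹Nonempty c.Space›
  set e0 : OpenPartialHomeomorph c.Space (E n) := (chartAt (E n) s0).restr ∅ with he0
  have he0s : e0.source = ∅ := by simp [he0]
  have he0t : e0.target = ∅ := by
    rw [← e0.image_source_eq_target, he0s, image_empty]
  have hmem0 : e0 ∈ IsManifold.maximalAtlas 𝓘(ℝ, E n) ∞ c.Space := by
    apply OpenPartialHomeomorph.mem_maximalAtlas_of_contMDiffOn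
    · rw [he0s]; intro x hx; exact absurd hx (notMem_empty x)
    · rw [he0t]; intro x hx; exact absurd hx (notMem_empty x)
  set e : ℕ → OpenPartialHomeomorph c.Space (E n) := fun k =>
    if h : Nonempty (c.dom k) then c.chart k else e0 with he
  have he1 : ∀ k (h : Nonempty (c.dom k)), e k = c.chart k := fun k h => by
    simp only [he, h, dite_true]
  have he2 : ∀ k, ¬ Nonempty (c.dom k) → e k = e0 := fun k h => by
    simp only [he, h, dite_false]
  have hsrc : ∀ k z, z ∈ (e k).source → ∃ x : c.dom k, c.pt k x = z := by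
    intro k z hz
    by_cases h : Nonempty (c.dom k)
    · rw [he1 k h, chart_source] at hz
      exact hz
    · rw [he2 k h, he0s] at hz
      exact absurd hz (notMem_empty z)
  have hsrc' : ∀ k (x : c.dom k), c.pt k x ∈ (e k).source := by
    intro k x
    have : Nonempty (c.dom k) := ⟨x⟩
    rw [he1 k this, chart_source]
    exact ⟨x, rfl⟩
  have hval : ∀ k (x : c.dom k), e k (c.pt k x) = x := by
    intro k x
    have : Nonempty (c.dom k) := ⟨x⟩
    rw [he1 k this, chart_pt]
  refine ⟨e, ?_, ?_, ?_, ?_, ?_⟩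
  · intro k
    by_cases h : Nonempty (c.dom k)
    · rw [he1 k h]
      exact IsManifold.subset_maximalAtlas ⟨k, h, rfl⟩
    · rw [he2 k h]; exact hmem0
  · intro s
    obtain ⟨i, x, rfl⟩ := c.exists_rep s
    exact ⟨i, hsrc' i x⟩
  · intro k
    by_cases h : Nonempty (c.dom k)
    · rw [he1 k h, chart_target]
    · rw [he2 k h, he0t]
      rw [not_nonempty_iff_eq_empty'] at h
      exact h.symm
  · intro i j z hz
    obtain ⟨x, rfl⟩ := hsrc i z hz
    rw [hval]
    constructor
    · intro h
      have h2 : c.pt i x =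
          c.pt j ⟨c.glue i j x, c.gdom_subset j i (c.glue_mem i j x h)⟩ :=
        c.pt_eq_pt.2 ⟨h, rfl⟩
      rw [h2]
      exact hsrc' _ _
    · intro h
      obtain ⟨y, hy⟩ := hsrc j _ h
      exact (c.pt_eq_pt.1 hy.symm).1
  · intro i j z hz hz'
    obtain ⟨x, rfl⟩ := hsrc i z hz
    obtain ⟨y, hy⟩ := hsrc j _ hz'
    rw [hval, ← hy, hval]
    exact (c.pt_eq_pt.1 hy.symm).2

end GluingData

end MP7d75
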