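import Pool.Agent.MP_7d75c8_lc.Basic
import Pool.Agent.MP_7d75c8_lc.Perturb
import Pool.Agent.MP_7d75c8_lc.Blend
import Pool.Agent.MP_7d75c8_lc.Quot

/-!
# The (Borel) construction of an `𝓕`-atlas from a code
-/

open Set Filter Topology Metric Manifold
open scoped ContDiff

noncomputable section

namespace MP7d75

variable {n : ℕ}

/-! ## Enumerations -/

lemma Fam.countable_vec (𝓕 : Fam n) :
    {p : E n → E n | VecIn (𝓕.A : Set (E n → ℝ)) p}.Countable := by
  have h1 : (Set.pi univ (fun _ : Fin n => (𝓕.A : Set (E n → ℝ)))).Countable :=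
    Set.countable_univ_pi (fun _ => 𝓕.countable)
  have h2 : MapsTo (fun (p : E n → E n) (i : Fin n) (x : E n) => p x i)
      {p : E n → E n | VecIn (𝓕.A : Set (E n → ℝ)) p}
      (Set.pi univ (fun _ : Fin n => (𝓕.A : Set (E n → ℝ)))) := fun p hp i _ => hp i
  refine Set.MapsTo.countable_of_injOn h2 ?_ h1
  intro p _ q _ hpq
  ext x i
  exact congrFun (congrFun hpq i) x

lemma Fam.exists_pe (𝓕 : Fam n) : ∃ pe : ℕ → E n → E n,
    {p : E n → E n | VecIn (𝓕.A : Set (E n → ℝ)) p} = range pe :=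
  𝓕.countable_vec.exists_eq_range ⟨fun x => x, fun i => 𝓕.coord i⟩

/-- enumeration of the vector valued `𝓕`-maps -/
def Fam.pe (𝓕 : Fam n) : ℕ → E n → E n := 𝓕.exists_pe.choose

lemma Fam.pe_mem (𝓕 : Fam n) (m : ℕ) : VecIn (𝓕.A : Set (E n → ℝ)) (𝓕.pe m) := by
  have : 𝓕.pe m ∈ {p : E n → E n | VecIn (𝓕.A : Set (E n → ℝ)) p} := by
    rw [𝓕.exists_pe.choose_spec]
    exact ⟨m, rfl⟩
  exact this

lemma Fam.pe_surj (𝓕 : Fam n) {p : E n → E n} (hp : VecIn (𝓕.A : Set (E n → ℝ)) p) :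
    ∃ m, 𝓕.pe m = p := by
  have : p ∈ {p : E n → E n | VecIn (𝓕.A : Set (E n → ℝ)) p} := hp
  rw [𝓕.exists_pe.choose_spec] at this
  exact this

/-- centres -/
def ctr (a : ℕ) : E n := TopologicalSpace.denseSeq (E n) a

/-- enumeration of the triples (chart, centre, radius) -/
def idx (j : ℕ) : ℕ × ℕ × ℕ := Denumerable.ofNat (ℕ × ℕ × ℕ) j

lemma idx_surj (t : ℕ × ℕ × ℕ) : ∃ j, idx j = t := ⟨Encodable.encode t, Denumerable.ofNat_encode t⟩

/-- chart number of the `j`-th triple -/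
def kk (j : ℕ) : ℕ := (idx j).1
/-- centre of the `j`-th triple -/
def qq (j : ℕ) : E n := ctr (idx j).2.1
/-- rational radius of the `j`-th triple -/
def rq (j : ℕ) : ℚ := 1 / (((idx j).2.2 : ℚ) + 1)
/-- radius of the `j`-th triple -/
def rr (j : ℕ) : ℝ := (rq j : ℝ)

lemma rq_pos (j : ℕ) : 0 < rq j := by unfold rq; positivity
lemma rr_pos (j : ℕ) : 0 < rr j := by unfold rr; exact_mod_cast rq_pos j

lemma exists_mu (𝓕 : Fam n) (i j : ℕ) : ∃ β ∈ 𝓕.A, (∀ x, 0 ≤ β x ∧ β x ≤ 1) ∧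
    (∀ x ∈ closedBall (qq i : E n) (rr i * (1 + 1 / 2 ^ (j + 1))), β x = 1) ∧
    (∀ x, x ∉ ball (qq i : E n) (rr i * (1 + 1 / 2 ^ j)) → β x = 0) := by
  have h := 𝓕.bump (idx i).2.1 (rq i * (1 + 1 / 2 ^ (j + 1))) (rq i * (1 + 1 / 2 ^ j))
    (mul_pos (rq_pos i) (by positivity)) (by
      apply mul_lt_mul_of_pos_left _ (rq_pos i)
      have : (1:ℚ) / 2 ^ (j + 1) < 1 / 2 ^ j := by
        apply one_div_lt_one_div_of_lt (by positivity)
        rw [pow_succ]
        have : (0:ℚ) < 2 ^ j := by positivity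
        linarith
      linarith)
  push_cast at h
  exact h

/-- the bump functions used in the construction -/
def mu (𝓕 : Fam n) (i j : ℕ) : E n → ℝ := (exists_mu 𝓕 i j).choose

lemma mu_mem (𝓕 : Fam n) (i j : ℕ) : mu 𝓕 i j ∈ 𝓕.A := (exists_mu 𝓕 i j).choose_spec.1
lemma mu_one (𝓕 : Fam n) (i j : ℕ) {x : E n}
    (hx : x ∈ closedBall (qq i : E n) (rr i * (1 + 1 / 2 ^ (j + 1)))) : mu 𝓕 i j x = 1 :=
  (exists_mu 𝓕 i j).choose_spec.2.2.1 x hx
lemma mu_zero (𝓕 : Fam n) (i j : ℕ) {x : E n}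
    (hx : x ∉ ball (qq i : E n) (rr i * (1 + 1 / 2 ^ j))) : mu 𝓕 i j x = 0 :=
  (exists_mu 𝓕 i j).choose_spec.2.2.2 x hx

/-! ## The construction -/

section construction

variable (𝓕 : Fam n) (c : GluingData n)

/-- the `j`-th triple is a ball in a chart domain of `c` -/
def valid (j : ℕ) : Prop := closedBall (qq j : E n) (2 * rr j) ⊆ c.dom (kk j)

/-- the cutoff function of the `i`-th ball in the coordinates of the `j`-th triple -/
def mval (v : E n → E n) (j i : ℕ) (x : E n) : ℝ :=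
  open Classical in
  if valid c i ∧ x ∈ c.gdom (kk j) (kk i) ∧
    c.glue (kk j) (kk i) x ∈ ball (qq i : E n) (2 * rr i)
  then mu 𝓕 i j (v (c.glue (kk j) (kk i) x)) else 0

/-- the correction term -/
def del (v : E n → E n) (j i : ℕ) (g p : E n → E n) (x : E n) : E n :=
  mval 𝓕 c v j i x • (p (v (c.glue (kk j) (kk i) x)) - g x)

/-- tolerance -/
def epsi (j i : ℕ) : ℝ := min (rr j / 4) (1 / 2) / 2 ^ (i + 1)

lemma epsi_pos (j i : ℕ) : 0 < epsi j i := by
  unfold epsi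
  have := rr_pos j
  positivity

/-- the `m`-th `𝓕`-map is a good approximation -/
def GoodP (v : E n → E n) (j i : ℕ) (g : E n → E n) (m : ℕ) : Prop :=
  ∀ a b : ℕ, (ctr a : E n) ∈ ball (qq j : E n) (2 * rr j) →
    (ctr b : E n) ∈ ball (qq j : E n) (2 * rr j) →
    ‖del 𝓕 c v j i g (𝓕.pe m) (ctr a)‖ ≤ epsi j i ∧
    ‖del 𝓕 c v j i g (𝓕.pe m) (ctr a) - del 𝓕 c v j i g (𝓕.pe m) (ctr b)‖ ≤
      epsi j i * ‖(ctr a : E n) - ctr b‖

/-- the least good index -/
def pidx (v : E n → E n) (j i : ℕ) (g : E n → E n) : ℕ := sInf {m | GoodP 𝓕 c v j i g m}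

/-- successive corrections of the identity -/
def inner (V : ℕ → E n → E n) (j : ℕ) : ℕ → E n → E n
  | 0 => fun x => x
  | i + 1 => fun x => inner V j i x +
      del 𝓕 c (V i) j i (inner V j i) (𝓕.pe (pidx 𝓕 c (V i) j i (inner V j i))) x

/-- recursion over the triples -/
def build : ℕ → ℕ → E n → E n
  | 0 => fun _ _ => 0
  | j + 1 => Function.update (build j) j (inner 𝓕 c (build j) j j)

/-- the `j`-th chart map of the `𝓕`-atlas, in the coordinates of the chart `kk j` -/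
def vch (j : ℕ) : E n → E n := build 𝓕 c (j + 1) j

lemma inner_congr {V V' : ℕ → E n → E n} (j : ℕ) {l : ℕ} (h : ∀ i < l, V i = V' i) :
    inner 𝓕 c V j l = inner 𝓕 c V' j l := by
  induction l with
  | zero => rfl
  | succ l ih =>
    have h1 := ih (fun i hi => h i (hi.trans (Nat.lt_succ_self l)))
    have h2 := h l (Nat.lt_succ_self l)
    simp only [inner]
    rw [h1, h2]

lemma build_eq {i j : ℕ} (h : i < j) : build 𝓕 c j i = vch 𝓕 c i := by
  induction j with
  | zero => exact absurd h (Nat.not_lt_zero _)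
  | succ j ih =>
    rcases Nat.lt_succ_iff_lt_or_eq.1 h with h' | rfl
    · rw [← ih h']
      simp only [build]
      rw [Function.update_of_ne h'.ne]
    · rfl

lemma vch_eq (j : ℕ) : vch 𝓕 c j = inner 𝓕 c (vch 𝓕 c) j j := by
  have h1 : vch 𝓕 c j = inner 𝓕 c (build 𝓕 c j) j j := by
    simp only [vch, build, Function.update_self]
  rw [h1]
  exact inner_congr 𝓕 c j (fun i hi => build_eq 𝓕 c hi)

end construction

/-! ## Geometry -/

section geometry

variable {𝓕 : Fam n} {c : GluingData n} {M : Type*} [TopologicalSpace M] [ChartedSpace (E n) M]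
  [T2Space M] [IsManifold 𝓘(ℝ, E n) ∞ M]
  {e : ℕ → OpenPartialHomeomorph M (E n)}

/-- what we know about the `i`-th chart -/
def Nice (𝓕 : Fam n) (c : GluingData n) (e : ℕ → OpenPartialHomeomorph M (E n)) (i : ℕ) : Prop :=
  (∀ z ∈ (e (kk i)).source,
    ContMDiffAt 𝓘(ℝ, E n) 𝓘(ℝ, E n) ∞ (fun z => vch 𝓕 c i (e (kk i) z)) z) ∧
  (valid c i → (∀ x ∈ ball (qq i : E n) (2 * rr i), ‖vch 𝓕 c i x - x‖ ≤ rr i / 4) ∧
    NearId (vch 𝓕 c i) (ball (qq i : E n) (2 * rr i)))

lemma contDiffAt_of_comp (he : Presents c M e) {k : ℕ} {g : E n → E n} {x : E n}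
    (hx : x ∈ c.dom k) (hg : ContMDiffAt 𝓘(ℝ, E n) 𝓘(ℝ, E n) ∞ (fun z => g (e k z))
      ((e k).symm x)) : ContDiffAt ℝ ∞ g x := by
  have hxt : x ∈ (e k).target := by rw [he.target]; exact hx
  have h1 : ContMDiffAt 𝓘(ℝ, E n) 𝓘(ℝ, E n) ∞ (fun y => g (e k ((e k).symm y))) x :=
    ContMDiffAt.comp (g := fun z => g (e k z)) x hg
      (contMDiffAt_symm_of_mem_maximalAtlas (he.mem k) hxt)
  refine h1.contDiffAt.congr_of_eventuallyEq ?_
  filter_upwards [(e k).open_target.mem_nhds hxt] with y hy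
  rw [(e k).right_inv hy]

lemma symm_mem_source (he : Presents c M e) {k : ℕ} {x : E n} (hx : x ∈ c.dom k) :
    (e k).symm x ∈ (e k).source := (e k).map_target (by rw [he.target]; exact hx)

lemma ball_sub_dom {i : ℕ} (hv : valid c i) : ball (qq i : E n) (2 * rr i) ⊆ c.dom (kk i) :=
  ball_subset_closedBall.trans hv

/-- the `i`-th chart on the ball of radius `2 * rr i` -/
lemma exists_w2 (he : Presents c M e) {i : ℕ} (hi : Nice 𝓕 c e i) (hv : valid c i) :
    ∃ w : OpenPartialHomeomorph M (E n), w ∈ IsManifold.maximalAtlas 𝓘(ℝ, E n) ∞ M ∧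
      w.source = {z | z ∈ (e (kk i)).source ∧ e (kk i) z ∈ ball (qq i : E n) (2 * rr i)} ∧
      (∀ z, w z = vch 𝓕 c i (e (kk i) z)) ∧ ball (qq i : E n) (rr i) ⊆ w.target := by
  obtain ⟨h1, h2⟩ := hi
  obtain ⟨h2, h3⟩ := h2 hv
  have hsm : ContDiffOn ℝ ∞ (vch 𝓕 c i) (ball (qq i : E n) (2 * rr i)) := by
    intro x hx
    have hxd := ball_sub_dom hv hx
    exact (contDiffAt_of_comp he hxd (h1 _ (symm_mem_source he hxd))).contDiffWithinAt
  obtain ⟨g, hg1, hg2, hg3, hg4⟩ := h3.exists_oph isOpen_ball hsm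
  refine ⟨(e (kk i)).trans g, ?_, ?_, ?_, ?_⟩
  · apply OpenPartialHomeomorph.mem_maximalAtlas_of_contMDiffOn
    · intro z hz
      rw [OpenPartialHomeomorph.trans_source] at hz
      apply ContMDiffAt.contMDiffWithinAt
      have := h1 z hz.1
      refine this.congr_of_eventuallyEq ?_
      filter_upwards with z'
      simp [hg2]
    · intro y hy
      rw [OpenPartialHomeomorph.trans_target] at hy
      apply ContMDiffAt.contMDiffWithinAt
      have h4 : ContMDiffAt 𝓘(ℝ, E n) 𝓘(ℝ, E n) ∞ g.symm y :=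
        (hg4.contDiffAt (g.open_target.mem_nhds hy.1)).contMDiffAt
      have h5 : ContMDiffAt 𝓘(ℝ, E n) 𝓘(ℝ, E n) ∞ (e (kk i)).symm (g.symm y) :=
        contMDiffAt_symm_of_mem_maximalAtlas (he.mem _) hy.2
      have := ContMDiffAt.comp y h5 h4
      simpa [OpenPartialHomeomorph.trans_symm_eq_symm_trans_symm] using this
  · rw [OpenPartialHomeomorph.trans_source, hg1]
    rfl
  · intro z
    simp [hg2]
  · intro y hy
    have hb : closedBall y (rr i / 2) ⊆ ball (qq i : E n) (2 * rr i) := by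
      intro z hz
      rw [mem_closedBall] at hz
      rw [mem_ball] at hy ⊢
      have := dist_triangle z y (qq i)
      have := rr_pos i
      linarith
    have hyb : y ∈ ball (qq i : E n) (2 * rr i) :=
      hb (mem_closedBall_self (by have := rr_pos i; linarith))
    have hy1 : y ∈ vch 𝓕 c i '' ball (qq i : E n) (2 * rr i) :=
      h3.ball_subset (r := rr i / 2) (by have := rr_pos i; linarith) hb (by
        have := h2 y hyb
        linarith)
    rw [OpenPartialHomeomorph.trans_target]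
    have hyt : y ∈ g.target := by rw [hg3]; exact hy1
    refine ⟨hyt, ?_⟩
    rw [mem_preimage, he.target]
    have := g.map_target hyt
    rw [hg1] at this
    exact ball_sub_dom hv this

/-- the compact set carrying the cutoff functions of the `i`-th chart -/
def Dset (e : ℕ → OpenPartialHomeomorph M (E n)) (i : ℕ) : Set M :=
  (e (kk i)).symm '' closedBall (qq i : E n) (7 / 4 * rr i)

omit [ChartedSpace (E n) M] [T2Space M] [IsManifold 𝓘(ℝ, E n) ∞ M] in
lemma Dset_mem {i : ℕ} {z : M} (hz : z ∈ (e (kk i)).source)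
    (hz' : e (kk i) z ∈ closedBall (qq i : E n) (7 / 4 * rr i)) : z ∈ Dset e i :=
  ⟨_, hz', (e (kk i)).left_inv hz⟩

lemma closedBall_sub_dom {i : ℕ} (hv : valid c i) :
    closedBall (qq i : E n) (7 / 4 * rr i) ⊆ c.dom (kk i) :=
  (closedBall_subset_closedBall (by have := rr_pos i; linarith)).trans hv

lemma Dset_compact (he : Presents c M e) {i : ℕ} (hv : valid c i) : IsCompact (Dset e i) := by
  apply (isCompact_closedBall _ _).image_of_continuousOn
  apply (e (kk i)).continuousOn_symm.mono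
  rw [he.target]
  exact closedBall_sub_dom hv

lemma Dset_sub (he : Presents c M e) {i : ℕ} (hv : valid c i) : Dset e i ⊆
    {z | z ∈ (e (kk i)).source ∧ e (kk i) z ∈ ball (qq i : E n) (2 * rr i)} := by
  rintro _ ⟨x, hx, rfl⟩
  have hxd := closedBall_sub_dom hv hx
  refine ⟨symm_mem_source he hxd, ?_⟩
  rw [(e (kk i)).right_inv (by rw [he.target]; exact hxd)]
  exact closedBall_subset_ball (by have := rr_pos i; linarith) hx

lemma isOpen_B2 (e : ℕ → OpenPartialHomeomorph M (E n)) (i : ℕ) : IsOpen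
    {z | z ∈ (e (kk i)).source ∧ e (kk i) z ∈ ball (qq i : E n) (2 * rr i)} :=
  (e (kk i)).isOpen_inter_preimage isOpen_ball

/-- the cutoff function on the manifold -/
def mM (𝓕 : Fam n) (c : GluingData n) (e : ℕ → OpenPartialHomeomorph M (E n)) (i j : ℕ) (z : M) :
    ℝ :=
  open Classical in
  if valid c i ∧ z ∈ (e (kk i)).source ∧ e (kk i) z ∈ ball (qq i : E n) (2 * rr i)
  then mu 𝓕 i j (vch 𝓕 c i (e (kk i) z)) else 0

lemma mval_eq (he : Presents c M e) (i j : ℕ) {z : M} (hz : z ∈ (e (kk j)).source) :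
    mval 𝓕 c (vch 𝓕 c i) j i (e (kk j) z) = mM 𝓕 c e i j z := by
  by_cases h : z ∈ (e (kk i)).source
  · have h' : e (kk j) z ∈ c.gdom (kk j) (kk i) := by
      rw [he.gdom_iff _ _ z hz]; exact h
    have h'' := he.glue_eq _ _ z hz h
    unfold mval mM
    split_ifs with h1 h2 h2
    · rw [h'']
    · exact absurd ⟨h1.1, h, h'' ▸ h1.2.2⟩ h2
    · exact absurd ⟨h2.1, h', h''.symm ▸ h2.2.2⟩ h1
    · rfl
  · have h' : e (kk j) z ∉ c.gdom (kk j) (kk i) := by
      rw [he.gdom_iff _ _ z hz]; exact h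
    simp only [mval, mM, h, h', false_and, and_false, if_false]

lemma mM_zero {i j : ℕ} (hi : Nice 𝓕 c e i) (hij : i < j) {z : M} (hz : z ∉ Dset e i) :
    mM 𝓕 c e i j z = 0 := by
  simp only [mM]
  split_ifs with h
  · obtain ⟨hv, h1, h2⟩ := h
    apply mu_zero
    intro h3
    apply hz
    apply Dset_mem h1
    have h4 := (hi.2 hv).1 _ h2
    rw [mem_ball] at h3
    rw [mem_closedBall]
    have h5 := dist_triangle (e (kk i) z) (vch 𝓕 c i (e (kk i) z)) (qq i)
    have h5' : dist (e (kk i) z) (vch 𝓕 c i (e (kk i) z)) =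
        ‖vch 𝓕 c i (e (kk i) z) - e (kk i) z‖ := by rw [dist_comm, dist_eq_norm]
    rw [h5'] at h5
    have h6 : (1:ℝ) / 2 ^ j ≤ 1 / 2 := by
      obtain ⟨k, rfl⟩ : ∃ k, j = k + 1 := ⟨j - 1, by omega⟩
      rw [pow_succ]
      apply one_div_le_one_div_of_le (by norm_num)
      have : (1:ℝ) ≤ 2 ^ k := one_le_pow₀ (by norm_num)
      linarith
    have h7 := rr_pos i
    nlinarith
  · rfl

lemma mM_smoothAt (he : Presents c M e) {i j : ℕ} (hi : Nice 𝓕 c e i) (hij : i < j) (z : M) :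
    ContMDiffAt 𝓘(ℝ, E n) 𝓘(ℝ, ℝ) ∞ (mM 𝓕 c e i j) z := by
  classical
  by_cases hv : valid c i
  · by_cases hz : z ∈ Dset e i
    · have hz2 := Dset_sub he hv hz
      have h1 := hi.1 z hz2.1
      have h2 : ContMDiffAt 𝓘(ℝ, E n) 𝓘(ℝ, ℝ) ∞
          (fun z => mu 𝓕 i j (vch 𝓕 c i (e (kk i) z))) z :=
        ContMDiffAt.comp z ((𝓕.smooth _ (mu_mem 𝓕 i j)).contMDiff.contMDiffAt) h1
      refine h2.congr_of_eventuallyEq ?_
      filter_upwards [(isOpen_B2 e i).mem_nhds hz2] with z' hz'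
      simp only [mM, hv, true_and]
      rw [if_pos hz']
    · have h0 : ContMDiffAt 𝓘(ℝ, E n) 𝓘(ℝ, ℝ) ∞ (fun _ : M => (0:ℝ)) z := contMDiffAt_const
      refine h0.congr_of_eventuallyEq ?_
      filter_upwards [(Dset_compact he hv).isClosed.isOpen_compl.mem_nhds hz] with z' hz'
      exact mM_zero hi hij hz'
  · have h0 : ContMDiffAt 𝓘(ℝ, E n) 𝓘(ℝ, ℝ) ∞ (fun _ : M => (0:ℝ)) z := contMDiffAt_const
    refine h0.congr_of_eventuallyEq ?_
    filter_upwards with z'
    simp [mM, hv]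

end geometry

end MP7d75
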