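import Pool.Agent.MP_7d75c8_lc.Maps
import Pool.Agent.MP_7d75c8_lc.Perturb
import Pool.Agent.MP_7d75c8_lc.Blend

/-!
# The modification step: making a diffeomorphism locally `𝓕` near a compact set
-/

open Set Filter Topology Metric Manifold
open scoped ContDiff

noncomputable section

namespace MP7d75

lemma contDiff_of_zero_off {n : ℕ} {V : Type*} [NormedAddCommGroup V] [NormedSpace ℝ V]
    {g : E n → V} {C W : Set (E n)} (hC : IsClosed C) (hW : IsOpen W) (hCW : C ⊆ W)
    (hg : ContDiffOn ℝ ∞ g W) (h0 : ∀ x, x ∉ C → g x = 0) : ContDiff ℝ ∞ g := by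
  rw [contDiff_iff_contDiffAt]
  intro x
  by_cases hx : x ∈ C
  · exact hg.contDiffAt (hW.mem_nhds (hCW hx))
  · have : g =ᶠ[𝓝 x] fun _ => 0 := by
      filter_upwards [hC.isOpen_compl.mem_nhds hx] with y hy
      exact h0 y hy
    exact contDiffAt_const.congr_of_eventuallyEq this

variable {n : ℕ} {𝓕 : Fam n} {M : Type*} [TopologicalSpace M] [ChartedSpace (E n) M]
  {N : Type*} [TopologicalSpace N] [ChartedSpace (E n) N]
  [T2Space M] [T2Space N] [IsManifold 𝓘(ℝ, E n) ∞ M] [IsManifold 𝓘(ℝ, E n) ∞ N]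
  {𝒜 : FAtlas 𝓕 M} {ℬ : FAtlas 𝓕 N}

omit [T2Space M] in
lemma exists_uniform_delta (h : Diffeomorph 𝓘(ℝ, E n) 𝓘(ℝ, E n) M N ∞)
    (e' : OpenPartialHomeomorph N (E n)) {C : Set (E n)} (hC : IsCompact C)
    (hCt : C ⊆ e'.target) (T : List (Set M × Set N))
    (hT : ∀ p ∈ T, IsCompact p.1 ∧ IsOpen p.2 ∧ ∀ z ∈ p.1, h z ∈ p.2) :
    ∃ δ : ℝ, 0 < δ ∧ ∀ p ∈ T, ∀ z ∈ p.1, h z ∈ e'.source → e' (h z) ∈ C →
      ball (e' (h z)) δ ⊆ e'.target ∩ e'.symm ⁻¹' p.2 := by
  induction T with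
  | nil => exact ⟨1, one_pos, by simp⟩
  | cons p T ih =>
    obtain ⟨δ, hδ, hball⟩ := ih (fun q hq => hT q (List.mem_cons_of_mem _ hq))
    obtain ⟨hp1, hp2, hp3⟩ := hT p List.mem_cons_self
    set D : Set (E n) := e' '' ((h '' p.1) ∩ (e'.symm '' C)) with hD
    have hDc : IsCompact D := by
      apply isCompact_image
      · exact (hp1.image h.continuous).inter (isCompact_symm_image hC hCt)
      · rintro _ ⟨_, y, hy, rfl⟩
        exact e'.map_target (hCt hy)
    have hDo : D ⊆ e'.target ∩ e'.symm ⁻¹' p.2 := by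
      rintro _ ⟨z, ⟨⟨x, hx, rfl⟩, y, hy, hyx⟩, rfl⟩
      have hs : h x ∈ e'.source := by rw [← hyx]; exact e'.map_target (hCt hy)
      refine ⟨e'.map_source hs, ?_⟩
      simp only [mem_preimage]
      rw [e'.left_inv hs]
      exact hp3 x hx
    obtain ⟨δ', hδ', hth⟩ := hDc.exists_thickening_subset_open
      (e'.isOpen_inter_preimage_symm hp2) hDo
    refine ⟨min δ δ', lt_min hδ hδ', ?_⟩
    intro q hq z hz hzs hzC
    rcases List.mem_cons.1 hq with rfl | hq
    · refine Subset.trans ?_ hth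
      refine (ball_subset_ball (min_le_right _ _)).trans ?_
      apply ball_subset_thickening
      exact ⟨h z, ⟨⟨z, hz, rfl⟩, ⟨e' (h z), hzC, e'.left_inv hzs⟩⟩, rfl⟩
    · exact (ball_subset_ball (min_le_left _ _)).trans (hball q hq z hz hzs hzC)

/-- One modification step. -/
theorem exists_step (h : Diffeomorph 𝓘(ℝ, E n) 𝓘(ℝ, E n) M N ∞) {K L : Set M} {i j : ℕ}
    (hK : IsCompact K) (hKi : K ⊆ (𝒜.w i).source) (hKj : ∀ z ∈ K, h z ∈ (ℬ.w j).source)
    (hL : IsCompact L) (hLh : ∀ x ∈ L, LFmap 𝒜 ℬ h x) (T : List (Set M × Set N))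
    (hT : ∀ p ∈ T, IsCompact p.1 ∧ IsOpen p.2 ∧ ∀ z ∈ p.1, h z ∈ p.2) :
    ∃ h1 : Diffeomorph 𝓘(ℝ, E n) 𝓘(ℝ, E n) M N ∞,
      (∀ x, LFmap 𝒜 ℬ h x → LFmap 𝒜 ℬ h1 x) ∧ (∀ x ∈ K, LFmap 𝒜 ℬ h1 x) ∧
      (∀ x ∈ L, h1 x = h x) ∧ (∀ p ∈ T, ∀ z ∈ p.1, h1 z ∈ p.2) := by
  classical
  set e := 𝒜.w i with he
  set e' := ℬ.w j with he'
  have hem : e ∈ IsManifold.maximalAtlas 𝓘(ℝ, E n) ∞ M := 𝒜.mem i
  have hem' : e' ∈ IsManifold.maximalAtlas 𝓘(ℝ, E n) ∞ N := ℬ.mem j
  -- the open sets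
  have hU : IsOpen (e.source ∩ h ⁻¹' e'.source) :=
    e.open_source.inter (e'.open_source.preimage h.continuous)
  obtain ⟨μ, hμ1, hμ2, hμ3, hμ4, hμ5⟩ := exists_lf_bump 𝒜 hK hU (fun z hz => ⟨hKi hz, hKj z hz⟩)
  have hO : IsOpen {x | LFmap 𝒜 ℬ h x} := by
    rw [isOpen_iff_mem_nhds]
    intro x hx
    exact LFmap.eventually h.continuous hx
  obtain ⟨lam, hl1, hl2, hl3, hl4, hl5⟩ := exists_lf_bump 𝒜 hL hO hLh
  set om : M → ℝ := fun z => μ z * (1 - lam z) with hom
  have hom_lf : ∀ z, 𝒜.LF om z := fun z => (hμ1 z).mul ((FAtlas.lf_one z).sub (hl1 z))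
  have hom_sm : ContMDiff 𝓘(ℝ, E n) 𝓘(ℝ, ℝ) ∞ om := fun z => (hom_lf z).contMDiffAt
  set S : Set M := tsupport μ with hS
  have hSc : IsCompact S := hμ4
  have hom0 : ∀ z, z ∉ S → om z = 0 := by
    intro z hz
    simp only [hom]
    rw [image_eq_zero_of_notMem_tsupport hz, zero_mul]
  -- the compact set `C`
  set C : Set (E n) := (fun z => e' (h z)) '' S with hC
  have hCc : IsCompact C := by
    apply hSc.image_of_continuousOn
    apply e'.continuousOn.comp h.continuous.continuousOn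
    intro z hz
    exact (hμ5 hz).2
  have hCt : C ⊆ e'.target := by
    rintro _ ⟨z, hz, rfl⟩
    exact e'.map_source (hμ5 hz).2
  set Q : E n → M := fun y => h.symm (e'.symm y) with hQ
  have hQsm : ∀ y ∈ e'.target, ContMDiffAt 𝓘(ℝ, E n) 𝓘(ℝ, E n) ∞ Q y := by
    intro y hy
    exact ContMDiffAt.comp y h.symm.contMDiff.contMDiffAt
      (contMDiffAt_symm_of_mem_maximalAtlas hem' hy)
  have hQh : ∀ z, h z ∈ e'.source → Q (e' (h z)) = z := by
    intro z hz
    simp only [hQ]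
    rw [e'.left_inv hz]
    simp
  set omt : E n → ℝ := fun y => if y ∈ e'.target then om (Q y) else 0 with homt
  have homt0 : ∀ y, y ∉ C → omt y = 0 := by
    intro y hy
    simp only [homt]
    split_ifs with hyt
    · apply hom0
      intro hQS
      apply hy
      refine ⟨Q y, hQS, ?_⟩
      simp only [hQ]
      rw [h.apply_symm_apply, e'.right_inv hyt]
    · rfl
  have homt_sm : ContDiff ℝ ∞ omt := by
    apply contDiff_of_zero_off hCc.isClosed e'.open_target hCt _ homt0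
    intro y hy
    have h1 : ContMDiffAt 𝓘(ℝ, E n) 𝓘(ℝ, ℝ) ∞ (fun y => om (Q y)) y :=
      ContMDiffAt.comp y hom_sm.contMDiffAt (hQsm y hy)
    have h2 : ContDiffAt ℝ ∞ (fun y => om (Q y)) y := h1.contDiffAt
    apply ContDiffAt.contDiffWithinAt
    refine h2.congr_of_eventuallyEq ?_
    filter_upwards [e'.open_target.mem_nhds hy] with y' hy'
    simp only [homt, hy', if_true]
  have homt_c : HasCompactSupport omt := HasCompactSupport.intro hCc homt0
  -- the chart expression of the inverse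
  have hWo : IsOpen (e'.target ∩ Q ⁻¹' e.source) := by
    apply ContinuousOn.isOpen_inter_preimage _ e'.open_target e.open_source
    intro y hy
    exact (hQsm y hy).continuousAt.continuousWithinAt
  have hCW : C ⊆ e'.target ∩ Q ⁻¹' e.source := by
    rintro _ ⟨z, hz, rfl⟩
    refine ⟨e'.map_source (hμ5 hz).2, ?_⟩
    simp only [mem_preimage]
    rw [hQh z (hμ5 hz).2]
    exact (hμ5 hz).1
  obtain ⟨ut, hut1, hut2, -, hut3⟩ := exists_global (V := E n) (g := fun y => e (Q y)) hCc hWo hCW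
    (by
      intro y hy
      have h1 : ContMDiffAt 𝓘(ℝ, E n) 𝓘(ℝ, E n) ∞ (fun y => e (Q y)) y :=
        ContMDiffAt.comp y (contMDiffAt_of_mem_maximalAtlas hem hy.2) (hQsm y hy.1)
      exact h1.contDiffAt.contDiffWithinAt)
  -- the chart expression of `h`
  have hW2o : IsOpen (e.target ∩ (fun y => h (e.symm y)) ⁻¹' e'.source) := by
    apply ContinuousOn.isOpen_inter_preimage _ e.open_target e'.open_source
    exact h.continuous.comp_continuousOn e.continuousOn_symm
  have hSe : IsCompact (e '' S) := isCompact_image hSc (fun z hz => (hμ5 hz).1)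
  have hSW : e '' S ⊆ e.target ∩ (fun y => h (e.symm y)) ⁻¹' e'.source := by
    rintro _ ⟨z, hz, rfl⟩
    refine ⟨e.map_source (hμ5 hz).1, ?_⟩
    simp only [mem_preimage]
    rw [e.left_inv (hμ5 hz).1]
    exact (hμ5 hz).2
  obtain ⟨ft, hft1, -, -, hft3⟩ := exists_global (V := E n) (g := fun y => e' (h (e.symm y)))
    hSe hW2o hSW
    (by
      intro y hy
      have h0 : ContMDiffAt 𝓘(ℝ, E n) 𝓘(ℝ, E n) ∞ (fun y => h (e.symm y)) y :=
        ContMDiffAt.comp y h.contMDiff.contMDiffAt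
          (contMDiffAt_symm_of_mem_maximalAtlas hem hy.1)
      have h1 : ContMDiffAt 𝓘(ℝ, E n) 𝓘(ℝ, E n) ∞ (fun y => e' (h (e.symm y))) y :=
        ContMDiffAt.comp y (contMDiffAt_of_mem_maximalAtlas hem' hy.2) h0
      exact h1.contDiffAt.contDiffWithinAt)
  obtain ⟨δ, hδ, hball⟩ := exists_uniform_delta h e' hCc hCt T hT
  obtain ⟨p, hp, hp1, hp2⟩ := 𝓕.exists_blend homt_sm homt_c hut1 hut2 hft1
    (ε := min (1/2) (δ/2)) (by positivity)
  set θ : E n → E n := fun y => omt y • (p (ut y) - ft (ut y)) with hθ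
  have hθ0 : ∀ y, y ∉ C → θ y = 0 := by
    intro y hy
    simp only [hθ, homt0 y hy, zero_smul]
  have hθsm : ContDiff ℝ ∞ θ :=
    homt_sm.smul (((𝓕.vec_smooth hp).comp hut1).sub (hft1.comp hut1))
  obtain ⟨κ, hκ⟩ := exists_diffeo_of_perturb hθsm (fun x y => (hp2 x y).trans
    (mul_le_mul_of_nonneg_right (min_le_left _ _) (norm_nonneg _)))
  obtain ⟨Kd, hKd1, hKd2⟩ := exists_extend_diffeo hem' κ hCc hCt
    (fun x hx => by rw [hκ, hθ0 x hx, add_zero])
  set h1 : Diffeomorph 𝓘(ℝ, E n) 𝓘(ℝ, E n) M N ∞ := h.trans Kd with hh1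
  have hh1a : ∀ z, h1 z = Kd (h z) := fun z => rfl
  -- the value of θ
  have hθv : ∀ z, h z ∈ e'.source → θ (e' (h z)) = om z • (p (e z) - e' (h z)) := by
    intro z hz
    have h2 : omt (e' (h z)) = om z := by
      simp only [homt, e'.map_source hz, if_true]
      rw [hQh z hz]
    by_cases hzS : z ∈ S
    · have h3 : ut (e' (h z)) = e z := by
        rw [(hut3 (e' (h z)) ⟨z, hzS, rfl⟩).self_of_nhds, hQh z hz]
      have h4 : ft (e z) = e' (h z) := by
        rw [(hft3 (e z) ⟨z, hzS, rfl⟩).self_of_nhds, e.left_inv (hμ5 hzS).1]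
      simp only [hθ]
      rw [h2, h3, h4]
    · simp only [hθ]
      rw [h2, hom0 z hzS, zero_smul, zero_smul]
  have star : ∀ z, h z ∈ e'.source → h1 z ∈ e'.source ∧
      e' (h1 z) = e' (h z) + om z • (p (e z) - e' (h z)) := by
    intro z hz
    obtain ⟨h2, h3⟩ := hKd1 (h z) hz
    refine ⟨h2, ?_⟩
    rw [hh1a, h3, hκ, hθv z hz]
  have star2 : ∀ z, om z = 0 → h1 z = h z := by
    intro z hz
    by_cases hzs : h z ∈ e'.source
    · obtain ⟨h2, h3⟩ := star z hzs
      rw [hz, zero_smul, add_zero] at h3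
      exact e'.injOn h2 hzs h3
    · rw [hh1a, hKd2 _ hzs]
  have hlfp : ∀ x, x ∈ e.source → ∀ l, 𝒜.LF (fun z => p (e z) l) x :=
    fun x hx l => ⟨i, hx, _, hp l, by simp [he]⟩
  have main : ∀ x, LFmap 𝒜 ℬ h x → LFmap 𝒜 ℬ h1 x := by
    intro x hx
    by_cases hxS : x ∈ S
    · have hxs := hμ5 hxS
      refine lfmap_of_coord h1.continuous.continuousAt (star x hxs.2).1 fun l => ?_
      have h5 : 𝒜.LF (fun z => e' (h z) l + om z * (p (e z) l - e' (h z) l)) x :=
        (hx.coord hxs.2 l).add ((hom_lf x).mul ((hlfp x hxs.1 l).sub (hx.coord hxs.2 l)))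
      refine h5.congr ?_
      filter_upwards [hU.mem_nhds hxs] with z hz
      rw [← he', (star z hz.2).2]
      simp
    · refine hx.congr ?_
      filter_upwards [(isClosed_tsupport μ).isOpen_compl.mem_nhds hxS] with z hz
      exact star2 z (hom0 z hz)
  refine ⟨h1, main, ?_, ?_, ?_⟩
  · intro x hx
    by_cases hxl : x ∈ tsupport lam
    · exact main x (hl5 hxl)
    · have hxs : x ∈ e.source ∩ h ⁻¹' e'.source := ⟨hKi hx, hKj x hx⟩
      refine lfmap_of_coord h1.continuous.continuousAt (star x hxs.2).1 fun l => ?_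
      refine (hlfp x hxs.1 l).congr ?_
      filter_upwards [hU.mem_nhds hxs, hμ3 x hx,
        (isClosed_tsupport lam).isOpen_compl.mem_nhds hxl] with z hz hz1 hz2
      rw [← he', (star z hz.2).2]
      have : om z = 1 := by
        simp only [hom]
        rw [hz1, image_eq_zero_of_notMem_tsupport hz2]; ring
      rw [this]
      simp
  · intro x hx
    apply star2
    simp only [hom]
    rw [(hl3 x hx).self_of_nhds]; ring
  · intro q hq z hz
    by_cases hzs : h z ∈ e'.source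
    · by_cases hzC : e' (h z) ∈ C
      · have h6 := hball q hq z hz hzs hzC
        have h7 : e' (h1 z) ∈ ball (e' (h z)) δ := by
          rw [hh1a, (hKd1 (h z) hzs).2, hκ, mem_ball, dist_eq_norm]
          have h8 : ‖θ (e' (h z))‖ ≤ min (1/2) (δ/2) := hp1 _
          have h9 : e' (h z) + θ (e' (h z)) - e' (h z) = θ (e' (h z)) := by abel
          rw [h9]
          have := h8.trans (min_le_right _ _)
          linarith
        have h10 := (h6 h7).2
        simp only [mem_preimage] at h10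
        rwa [e'.left_inv (star z hzs).1] at h10
      · have h6 : om z = 0 := by
          by_contra hne
          apply hzC
          refine ⟨z, ?_, rfl⟩
          by_contra hzS
          exact hne (hom0 z hzS)
        rw [star2 z h6]
        exact (hT q hq).2.2 z hz
    · rw [hh1a, hKd2 _ hzs]
      exact (hT q hq).2.2 z hz

end MP7d75
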