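import Pool.Agent.MP_7d75c8_lc.Atlas
import Pool.Agent.MP_7d75c8_lc.Step

/-!
# Existence of good approximations; all charts are nice
-/

open Set Filter Topology Metric Manifold
open scoped ContDiff

noncomputable section

namespace MP7d75

variable {n : ℕ} {𝓕 : Fam n} {c : GluingData n} {M : Type*} [TopologicalSpace M]
  [ChartedSpace (E n) M] [T2Space M] [IsManifold 𝓘(ℝ, E n) ∞ M]
  {e : ℕ → OpenPartialHomeomorph M (E n)}

lemma mM_eventually_zero (he : Presents c M e) {i j : ℕ} (hi : Nice 𝓕 c e i) (hij : i < j)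
    {z : M} (hz : ¬ (valid c i ∧ z ∈ Dset e i)) : ∀ᶠ z' in 𝓝 z, mM 𝓕 c e i j z' = 0 := by
  by_cases hv : valid c i
  · have hz' : z ∉ Dset e i := fun h => hz ⟨hv, h⟩
    filter_upwards [(Dset_compact he hv).isClosed.isOpen_compl.mem_nhds hz'] with z' hz'
    exact mM_zero hi hij hz'
  · filter_upwards with z'
    simp [mM, hv]

lemma del_eq (he : Presents c M e) (i j : ℕ) (g p : E n → E n) {z : M}
    (hz : z ∈ (e (kk j)).source) :
    del 𝓕 c (vch 𝓕 c i) j i g p (e (kk j) z) =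
      mM 𝓕 c e i j z • (p (vch 𝓕 c i (c.glue (kk j) (kk i) (e (kk j) z))) - g (e (kk j) z)) := by
  unfold del
  rw [mval_eq he i j hz]

lemma del_eq' (he : Presents c M e) (i j : ℕ) (g p : E n → E n) {z : M}
    (hz : z ∈ (e (kk j)).source) (hz' : z ∈ (e (kk i)).source) :
    del 𝓕 c (vch 𝓕 c i) j i g p (e (kk j) z) =
      mM 𝓕 c e i j z • (p (vch 𝓕 c i (e (kk i) z)) - g (e (kk j) z)) := by
  rw [del_eq he i j g p hz, he.glue_eq _ _ z hz hz']

lemma inner_smooth (he : Presents c M e) (j : ℕ) (l : ℕ) (hl : l ≤ j)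
    (hn : ∀ i < l, Nice 𝓕 c e i) : ∀ z ∈ (e (kk j)).source,
    ContMDiffAt 𝓘(ℝ, E n) 𝓘(ℝ, E n) ∞
      (fun z => inner 𝓕 c (vch 𝓕 c) j l (e (kk j) z)) z := by
  induction l with
  | zero =>
    intro z hz
    simp only [inner]
    exact contMDiffAt_of_mem_maximalAtlas (he.mem _) hz
  | succ l ih =>
    intro z hz
    have ih' := ih (by omega) (fun i hi => hn i (by omega)) z hz
    have hnl := hn l (Nat.lt_succ_self l)
    have hlj : l < j := by omega
    simp only [inner]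
    set p := 𝓕.pe (pidx 𝓕 c (vch 𝓕 c l) j l (inner 𝓕 c (vch 𝓕 c) j l)) with hp
    by_cases hD : valid c l ∧ z ∈ Dset e l
    · have hz2 := Dset_sub he hD.1 hD.2
      have h1 := hnl.1 z hz2.1
      have h2 : ContMDiffAt 𝓘(ℝ, E n) 𝓘(ℝ, E n) ∞ (fun z => p (vch 𝓕 c l (e (kk l) z))) z :=
        ContMDiffAt.comp z ((𝓕.vec_smooth (𝓕.pe_mem _)).contMDiff.contMDiffAt) h1
      have h3 : ContMDiffAt 𝓘(ℝ, E n) 𝓘(ℝ, E n) ∞ (fun z => inner 𝓕 c (vch 𝓕 c) j l (e (kk j) z) +
          mM 𝓕 c e l j z • (p (vch 𝓕 c l (e (kk l) z)) - inner 𝓕 c (vch 𝓕 c) j l (e (kk j) z))) z :=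
        ih'.add ((mM_smoothAt he hnl hlj z).smul (h2.sub ih'))
      refine h3.congr_of_eventuallyEq ?_
      filter_upwards [(isOpen_B2 e l).mem_nhds hz2, (e (kk j)).open_source.mem_nhds hz]
        with z' hz1 hz2
      rw [del_eq' he l j _ _ hz2 hz1.1]
    · refine ih'.congr_of_eventuallyEq ?_
      filter_upwards [mM_eventually_zero he hnl hlj hD, (e (kk j)).open_source.mem_nhds hz]
        with z' hz1 hz2
      rw [del_eq he l j _ _ hz2, hz1, zero_smul, add_zero]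

/-- existence of good approximations -/
lemma exists_goodP (he : Presents c M e) {i j : ℕ} (hij : i < j) (hn : Nice 𝓕 c e i)
    (hvj : valid c j) {g : E n → E n}
    (hg : ∀ z ∈ (e (kk j)).source, ContMDiffAt 𝓘(ℝ, E n) 𝓘(ℝ, E n) ∞ (fun z => g (e (kk j) z)) z) :
    ∃ m, GoodP 𝓕 c (vch 𝓕 c i) j i g m := by
  by_cases hv : valid c i
  swap
  · refine ⟨0, fun a b _ _ => ?_⟩
    have h0 : ∀ x, del 𝓕 c (vch 𝓕 c i) j i g (𝓕.pe 0) x = 0 := by
      intro x
      simp [del, mval, hv]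
    rw [h0, h0]
    have := epsi_pos j i
    constructor
    · simpa using this.le
    · simp only [sub_self, norm_zero]
      positivity
  obtain ⟨w, hw1, hw2, hw3, -⟩ := exists_w2 he hn hv
  have hws : ∀ z, z ∈ w.source ↔ z ∈ (e (kk i)).source ∧
      e (kk i) z ∈ ball (qq i : E n) (2 * rr i) := fun z => by rw [hw2]; rfl
  set A : Set (E n) := closedBall (qq j : E n) (2 * rr j) with hA
  have hAc : IsCompact A := isCompact_closedBall _ _
  have hAt : A ⊆ (e (kk j)).target := by rw [he.target]; exact hvj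
  set Z : Set M := Dset e i ∩ (e (kk j)).symm '' A with hZ
  have hZc : IsCompact Z := (Dset_compact he hv).inter
    (hAc.image_of_continuousOn ((e (kk j)).continuousOn_symm.mono hAt))
  have hZw : Z ⊆ w.source := fun z hz => (hws z).2 (Dset_sub he hv hz.1)
  have hZe : Z ⊆ (e (kk j)).source := by
    rintro z ⟨-, x, hx, rfl⟩
    exact (e (kk j)).map_target (hAt hx)
  -- the cutoff
  obtain ⟨omt, ho1, ho2, -, ho3⟩ := exists_global (V := ℝ) (W := (e (kk j)).target)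
    (g := fun x => mM 𝓕 c e i j ((e (kk j)).symm x)) hAc (e (kk j)).open_target hAt (by
      intro x hx
      have : ContMDiffAt 𝓘(ℝ, E n) 𝓘(ℝ, ℝ) ∞ (fun x => mM 𝓕 c e i j ((e (kk j)).symm x)) x :=
        ContMDiffAt.comp x (mM_smoothAt he hn hij _)
          (contMDiffAt_symm_of_mem_maximalAtlas (he.mem _) hx)
      exact this.contDiffAt.contDiffWithinAt)
  -- the chart `w` in the coordinates `e (kk j)`
  obtain ⟨ut, hu1, hu2, -, hu3⟩ := exists_global (V := E n)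
    (W := (e (kk j)).target ∩ (e (kk j)).symm ⁻¹' w.source) (K := (e (kk j)) '' Z)
    (g := fun x => w ((e (kk j)).symm x))
    (hZc.image_of_continuousOn ((e (kk j)).continuousOn.mono hZe))
    ((e (kk j)).isOpen_inter_preimage_symm w.open_source) (by
      rintro _ ⟨z, hz, rfl⟩
      refine ⟨(e (kk j)).map_source (hZe hz), ?_⟩
      rw [mem_preimage, (e (kk j)).left_inv (hZe hz)]
      exact hZw hz) (by
      intro x hx
      have : ContMDiffAt 𝓘(ℝ, E n) 𝓘(ℝ, E n) ∞ (fun x => w ((e (kk j)).symm x)) x :=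
        ContMDiffAt.comp x (contMDiffAt_of_mem_maximalAtlas hw1 hx.2)
          (contMDiffAt_symm_of_mem_maximalAtlas (he.mem _) hx.1)
      exact this.contDiffAt.contDiffWithinAt)
  -- the map to be approximated
  obtain ⟨ft, hf1, -, -, hf3⟩ := exists_global (V := E n)
    (W := w.target ∩ w.symm ⁻¹' (e (kk j)).source) (K := w '' Z)
    (g := fun y => g (e (kk j) (w.symm y)))
    (hZc.image_of_continuousOn (w.continuousOn.mono hZw))
    (w.isOpen_inter_preimage_symm (e (kk j)).open_source) (by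
      rintro _ ⟨z, hz, rfl⟩
      refine ⟨w.map_source (hZw hz), ?_⟩
      rw [mem_preimage, w.left_inv (hZw hz)]
      exact hZe hz) (by
      intro x hx
      have : ContMDiffAt 𝓘(ℝ, E n) 𝓘(ℝ, E n) ∞ (fun y => g (e (kk j) (w.symm y))) x :=
        ContMDiffAt.comp (g := fun z => g (e (kk j) z)) x (hg _ hx.2)
          (contMDiffAt_symm_of_mem_maximalAtlas hw1 hx.1)
      exact this.contDiffAt.contDiffWithinAt)
  obtain ⟨p, hp, hp1, hp2⟩ := 𝓕.exists_blend ho1 ho2 hu1 hu2 hf1 (epsi_pos j i)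
  obtain ⟨m, rfl⟩ := 𝓕.pe_surj hp
  have key : ∀ x ∈ A, del 𝓕 c (vch 𝓕 c i) j i g (𝓕.pe m) x =
      omt x • (𝓕.pe m (ut x) - ft (ut x)) := by
    intro x hx
    obtain ⟨z, hz, hzx⟩ : ∃ z ∈ (e (kk j)).source, e (kk j) z = x :=
      ⟨(e (kk j)).symm x, (e (kk j)).map_target (hAt hx), (e (kk j)).right_inv (hAt hx)⟩
    have hzs : (e (kk j)).symm x = z := by rw [← hzx, (e (kk j)).left_inv hz]
    have h1 : omt x = mM 𝓕 c e i j z := by
      rw [(ho3 x hx).self_of_nhds, hzs]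
    by_cases hzD : z ∈ Dset e i
    · have hzZ : z ∈ Z := ⟨hzD, ⟨x, hx, hzs⟩⟩
      have h2 : ut x = w z := by
        rw [(hu3 x ⟨z, hzZ, hzx⟩).self_of_nhds, hzs]
      have h3 : ft (w z) = g x := by
        rw [(hf3 (w z) ⟨z, hzZ, rfl⟩).self_of_nhds, w.left_inv (hZw hzZ), hzx]
      rw [h1, h2, h3]
      have h4 := del_eq' (𝓕 := 𝓕) he i j g (𝓕.pe m) hz (Dset_sub he hv hzD).1
      rw [hzx] at h4
      rw [h4, hw3]
    · have h0 : mM 𝓕 c e i j z = 0 := mM_zero hn hij hzD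
      have h4 := del_eq (𝓕 := 𝓕) he i j g (𝓕.pe m) hz
      rw [hzx] at h4
      rw [h4, h1, h0, zero_smul, zero_smul]
  refine ⟨m, fun a b ha hb => ?_⟩
  rw [key _ (ball_subset_closedBall ha), key _ (ball_subset_closedBall hb)]
  exact ⟨hp1 _, hp2 _ _⟩

lemma bounds_of_dense {Δ : E n → E n} {U : Set (E n)} (hU : IsOpen U) {ε : ℝ}
    (hc : ∀ x ∈ U, ContinuousAt Δ x)
    (h : ∀ a b : ℕ, (ctr a : E n) ∈ U → (ctr b : E n) ∈ U →
      ‖Δ (ctr a)‖ ≤ ε ∧ ‖Δ (ctr a) - Δ (ctr b)‖ ≤ ε * ‖(ctr a : E n) - ctr b‖) :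
    ∀ x ∈ U, ∀ y ∈ U, ‖Δ x‖ ≤ ε ∧ ‖Δ x - Δ y‖ ≤ ε * ‖x - y‖ := by
  have hd : DenseRange (ctr : ℕ → E n) := TopologicalSpace.denseRange_denseSeq _
  intro x hx y hy
  constructor
  · by_contra hcon
    push Not at hcon
    have h1 : ∀ᶠ z in 𝓝 x, ε < ‖Δ z‖ := ((hc x hx).norm).eventually_const_lt hcon
    obtain ⟨V, hV, hVo, hxV⟩ := _root_.eventually_nhds_iff.1 (h1.and (hU.mem_nhds hx))
    obtain ⟨a, ha⟩ := hd.exists_mem_open hVo ⟨x, hxV⟩
    have := hV _ ha
    exact absurd (h a a this.2 this.2).1 (not_le.2 this.1)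
  · by_contra hcon
    push Not at hcon
    have hcx : ContinuousAt (fun p : E n × E n => ‖Δ p.1 - Δ p.2‖ - ε * ‖p.1 - p.2‖) (x, y) := by
      have h1 : ContinuousAt (fun p : E n × E n => Δ p.1) (x, y) :=
        ContinuousAt.comp (f := Prod.fst) (g := Δ) (hc x hx) continuousAt_fst
      have h2 : ContinuousAt (fun p : E n × E n => Δ p.2) (x, y) :=
        ContinuousAt.comp (f := Prod.snd) (g := Δ) (hc y hy) continuousAt_snd
      exact ((h1.sub h2).norm).sub (continuousAt_const.mul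
        ((continuousAt_fst.sub continuousAt_snd).norm))
    have h1 : ∀ᶠ p : E n × E n in 𝓝 (x, y), 0 < ‖Δ p.1 - Δ p.2‖ - ε * ‖p.1 - p.2‖ :=
      hcx.eventually_const_lt (by linarith)
    rw [nhds_prod_eq] at h1
    obtain ⟨P, hP, Q, hQ, hPQ⟩ := Filter.eventually_prod_iff.1 h1
    obtain ⟨V, hV, hVo, hxV⟩ := _root_.eventually_nhds_iff.1 (hP.and (hU.mem_nhds hx))
    obtain ⟨W, hW, hWo, hyW⟩ := _root_.eventually_nhds_iff.1 (hQ.and (hU.mem_nhds hy))
    obtain ⟨a, ha⟩ := hd.exists_mem_open hVo ⟨x, hxV⟩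
    obtain ⟨b, hb⟩ := hd.exists_mem_open hWo ⟨y, hyW⟩
    have h2 := hPQ (hV _ ha).1 (hW _ hb).1
    have h3 := (h a b (hV _ ha).2 (hW _ hb).2).2
    simp only at h2
    linarith

lemma inner_near (he : Presents c M e) (j : ℕ) (hvj : valid c j) (l : ℕ) (hl : l ≤ j)
    (hn : ∀ i < l, Nice 𝓕 c e i) :
    ∀ x ∈ ball (qq j : E n) (2 * rr j), ∀ y ∈ ball (qq j : E n) (2 * rr j),
      ‖inner 𝓕 c (vch 𝓕 c) j l x - x‖ ≤ min (rr j / 4) (1 / 2) * (1 - 1 / 2 ^ l) ∧
      ‖(inner 𝓕 c (vch 𝓕 c) j l x - x) - (inner 𝓕 c (vch 𝓕 c) j l y - y)‖ ≤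
        min (rr j / 4) (1 / 2) * (1 - 1 / 2 ^ l) * ‖x - y‖ := by
  induction l with
  | zero => intro x _ y _; simp [inner]
  | succ l ih =>
    intro x hx y hy
    have hnl := hn l (Nat.lt_succ_self l)
    have hlj : l < j := by omega
    obtain ⟨ih1, ih2⟩ := ih (by omega) (fun i hi => hn i (by omega)) x hx y hy
    have hsm := inner_smooth he j l (by omega) (fun i hi => hn i (by omega))
    have hsm' := inner_smooth he j (l + 1) hl hn
    have hgood : GoodP 𝓕 c (vch 𝓕 c l) j l (inner 𝓕 c (vch 𝓕 c) j l)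
        (pidx 𝓕 c (vch 𝓕 c l) j l (inner 𝓕 c (vch 𝓕 c) j l)) :=
      Nat.sInf_mem (exists_goodP he hlj hnl hvj hsm)
    set Δ : E n → E n := del 𝓕 c (vch 𝓕 c l) j l (inner 𝓕 c (vch 𝓕 c) j l)
      (𝓕.pe (pidx 𝓕 c (vch 𝓕 c l) j l (inner 𝓕 c (vch 𝓕 c) j l))) with hΔ
    have hin : ∀ x, inner 𝓕 c (vch 𝓕 c) j (l + 1) x = inner 𝓕 c (vch 𝓕 c) j l x + Δ x :=
      fun x => rfl
    have hcont : ∀ x ∈ ball (qq j : E n) (2 * rr j), ContinuousAt Δ x := by
      intro x hx
      have hxd := ball_sub_dom hvj hx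
      have c1 : ContinuousAt (inner 𝓕 c (vch 𝓕 c) j l) x :=
        (contDiffAt_of_comp he hxd (hsm _ (symm_mem_source he hxd))).continuousAt
      have c2 : ContinuousAt (inner 𝓕 c (vch 𝓕 c) j (l + 1)) x :=
        (contDiffAt_of_comp he hxd (hsm' _ (symm_mem_source he hxd))).continuousAt
      have : Δ = fun x => inner 𝓕 c (vch 𝓕 c) j (l + 1) x - inner 𝓕 c (vch 𝓕 c) j l x := by
        ext1 x; rw [hin]; abel
      rw [this]
      exact c2.sub c1
    obtain ⟨b1, b2⟩ := bounds_of_dense isOpen_ball hcont hgood x hx y hy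
    have hB : 0 ≤ min (rr j / 4) (1 / 2) := by
      have := rr_pos j
      positivity
    have hsum : min (rr j / 4) (1 / 2) * (1 - 1 / 2 ^ l) + epsi j l =
        min (rr j / 4) (1 / 2) * (1 - 1 / 2 ^ (l + 1)) := by
      unfold epsi
      rw [pow_succ]
      field_simp
      ring
    constructor
    · rw [hin]
      have e1 : inner 𝓕 c (vch 𝓕 c) j l x + Δ x - x = (inner 𝓕 c (vch 𝓕 c) j l x - x) + Δ x := by
        abel
      rw [e1, ← hsum]
      exact (norm_add_le _ _).trans (add_le_add ih1 b1)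
    · rw [hin, hin]
      have e1 : inner 𝓕 c (vch 𝓕 c) j l x + Δ x - x - (inner 𝓕 c (vch 𝓕 c) j l y + Δ y - y) =
          ((inner 𝓕 c (vch 𝓕 c) j l x - x) - (inner 𝓕 c (vch 𝓕 c) j l y - y)) + (Δ x - Δ y) := by
        abel
      rw [e1, ← hsum, add_mul]
      exact (norm_add_le _ _).trans (add_le_add ih2 b2)

/-- All charts are nice. -/
theorem nice (he : Presents c M e) (j : ℕ) : Nice 𝓕 c e j := by
  induction j using Nat.strong_induction_on with
  | _ j ih =>
    refine ⟨?_, fun hv => ?_⟩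
    · have := inner_smooth he j j le_rfl ih
      rwa [← vch_eq] at this
    · have h := inner_near he j hv j le_rfl ih
      rw [← vch_eq] at h
      have hB : 0 ≤ min (rr j / 4) (1 / 2) := by
        have := rr_pos j
        positivity
      have h1 : (1 : ℝ) - 1 / 2 ^ j ≤ 1 := by
        have : (0:ℝ) < 1 / 2 ^ j := by positivity
        linarith
      refine ⟨fun x hx => ?_, fun x hx y hy => ?_⟩
      · refine (h x hx x hx).1.trans ?_
        refine (mul_le_of_le_one_right hB h1).trans (min_le_left _ _)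
      · refine (h x hx y hy).2.trans ?_
        apply mul_le_mul_of_nonneg_right _ (norm_nonneg _)
        exact (mul_le_of_le_one_right hB h1).trans (min_le_right _ _)

end MP7d75
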