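import Pool.Agent.MP_7d75c8_lc.Atlas2

/-!
# Compatibility of the charts, and the `𝓕`-atlas of a code
-/

open Set Filter Topology Metric Manifold
open scoped ContDiff

noncomputable section

namespace MP7d75

variable {n : ℕ} {𝓕 : Fam n} {c : GluingData n} {M : Type*} [TopologicalSpace M]
  [ChartedSpace (E n) M] [T2Space M] [IsManifold 𝓘(ℝ, E n) ∞ M]
  {e : ℕ → OpenPartialHomeomorph M (E n)}

/-- `g` is locally at `z` an `𝓕`-function of `u`. -/
def VRel (𝓕 : Fam n) (u g : M → E n) (z : M) : Prop :=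
  ∃ p : E n → E n, VecIn (𝓕.A : Set (E n → ℝ)) p ∧ ∀ᶠ z' in 𝓝 z, g z' = p (u z')

lemma vecIn_comp {p q : E n → E n} (hp : VecIn (𝓕.A : Set (E n → ℝ)) p)
    (hq : VecIn (𝓕.A : Set (E n → ℝ)) q) : VecIn (𝓕.A : Set (E n → ℝ)) (fun x => p (q x)) :=
  fun i => 𝓕.comp _ (hp i) q hq

lemma vecIn_blend {q p b : E n → E n} {m : E n → ℝ} (hq : VecIn (𝓕.A : Set (E n → ℝ)) q)
    (hp : VecIn (𝓕.A : Set (E n → ℝ)) p) (hb : VecIn (𝓕.A : Set (E n → ℝ)) b) (hm : m ∈ 𝓕.A) :
    VecIn (𝓕.A : Set (E n → ℝ)) (fun y => q y + m (b y) • (p (b y) - q y)) := by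
  intro i
  have h1 : (fun y => m (b y)) ∈ 𝓕.A := 𝓕.comp m hm b hb
  have h2 : (fun y => p (b y) i) ∈ 𝓕.A := 𝓕.comp _ (hp i) b hb
  have h3 : (fun y => (q y + m (b y) • (p (b y) - q y)) i) =
      (fun y => q y i) + (fun y => m (b y)) * ((fun y => p (b y) i) - (fun y => q y i)) := by
    ext y
    simp
  show (fun y => (q y + m (b y) • (p (b y) - q y)) i) ∈ 𝓕.A
  rw [h3]
  exact 𝓕.A.add_mem (hq i) (𝓕.A.mul_mem h1 (𝓕.A.sub_mem h2 (hq i)))

/-- shrinking neighbourhoods -/
def Vset (𝓕 : Fam n) (c : GluingData n) (e : ℕ → OpenPartialHomeomorph M (E n)) (i j : ℕ) :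
    Set M :=
  {z | (z ∈ (e (kk i)).source ∧ e (kk i) z ∈ ball (qq i : E n) (2 * rr i)) ∧
    vch 𝓕 c i (e (kk i) z) ∈ ball (qq i : E n) (rr i * (1 + 1 / 2 ^ j))}

lemma Vset_mono {i j k : ℕ} (hjk : j ≤ k) : Vset 𝓕 c e i k ⊆ Vset 𝓕 c e i j := by
  rintro z ⟨h1, h2⟩
  refine ⟨h1, ball_subset_ball ?_ h2⟩
  apply mul_le_mul_of_nonneg_left _ (rr_pos i).le
  have : (1:ℝ) / 2 ^ k ≤ 1 / 2 ^ j := by
    apply one_div_le_one_div_of_le (by positivity)
    exact pow_le_pow_right₀ (by norm_num) hjk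
  linarith

lemma isOpen_Vset (he : Presents c M e) (i j : ℕ) : IsOpen (Vset 𝓕 c e i j) := by
  rw [isOpen_iff_mem_nhds]
  rintro z ⟨h1, h2⟩
  have h3 := ((nice (𝓕 := 𝓕) he i).1 z h1.1).continuousAt
  filter_upwards [(isOpen_B2 e i).mem_nhds h1, h3.preimage_mem_nhds (isOpen_ball.mem_nhds h2)]
    with z' hz1 hz2
  exact ⟨hz1, hz2⟩

lemma mM_one {i j : ℕ} (hv : valid c i) {z : M} (hz : z ∈ Vset 𝓕 c e i (j + 1)) :
    mM 𝓕 c e i j z = 1 := by
  have : valid c i ∧ z ∈ (e (kk i)).source ∧ e (kk i) z ∈ ball (qq i : E n) (2 * rr i) :=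
    ⟨hv, hz.1⟩
  simp only [mM]
  rw [if_pos this]
  exact mu_one _ _ _ (ball_subset_closedBall hz.2)

/-- compatibility of the charts -/
theorem compat_vch (he : Presents c M e) (j : ℕ) : ∀ i < j, valid c i →
    ∀ z ∈ (e (kk j)).source, z ∈ Vset 𝓕 c e i (j + 1) →
      VRel 𝓕 (fun z => vch 𝓕 c i (e (kk i) z)) (fun z => vch 𝓕 c j (e (kk j) z)) z := by
  induction j using Nat.strong_induction_on with
  | _ j ihj =>
    have main : ∀ l ≤ j, ∀ i < l, valid c i → ∀ z ∈ (e (kk j)).source, z ∈ Vset 𝓕 c e i (j + 1) →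
        VRel 𝓕 (fun z => vch 𝓕 c i (e (kk i) z))
          (fun z => inner 𝓕 c (vch 𝓕 c) j l (e (kk j) z)) z := by
      intro l
      induction l with
      | zero => intro _ i hi; exact absurd hi (Nat.not_lt_zero _)
      | succ l ih =>
        intro hl i hi hv z hz hzV
        have hnl := nice (𝓕 := 𝓕) he l
        have hlj : l < j := by omega
        simp only [inner]
        set p := 𝓕.pe (pidx 𝓕 c (vch 𝓕 c l) j l (inner 𝓕 c (vch 𝓕 c) j l)) with hp
        rcases Nat.lt_succ_iff_lt_or_eq.1 hi with hil | rfl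
        · obtain ⟨q, hq, hqe⟩ := ih (by omega) i hil hv z hz hzV
          by_cases hD : valid c l ∧ z ∈ Dset e l
          · have hz2 := Dset_sub he hD.1 hD.2
            obtain ⟨b, hb, hbe⟩ := ihj l hlj i hil hv z hz2.1 (Vset_mono (by omega) hzV)
            have hpm : VecIn (𝓕.A : Set (E n → ℝ)) p := 𝓕.pe_mem _
            refine ⟨fun y => q y + mu 𝓕 l j (b y) • (p (b y) - q y),
              vecIn_blend hq hpm hb (mu_mem 𝓕 l j), ?_⟩
            filter_upwards [hqe, hbe, (isOpen_B2 e l).mem_nhds hz2,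
              (e (kk j)).open_source.mem_nhds hz] with z' h1 h2 h3 h4
            rw [del_eq' he l j _ _ h4 h3.1]
            have h5 : mM 𝓕 c e l j z' = mu 𝓕 l j (vch 𝓕 c l (e (kk l) z')) := by
              simp only [mM]
              rw [if_pos ⟨hD.1, h3⟩]
            rw [h5, h2, h1]
          · refine ⟨q, hq, ?_⟩
            filter_upwards [hqe, mM_eventually_zero he hnl hlj hD,
              (e (kk j)).open_source.mem_nhds hz] with z' h1 h2 h3
            rw [del_eq he l j _ _ h3, h2, zero_smul, add_zero]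
            exact h1
        · refine ⟨p, 𝓕.pe_mem _, ?_⟩
          filter_upwards [(isOpen_Vset he i (j + 1)).mem_nhds hzV,
            (e (kk j)).open_source.mem_nhds hz] with z' h1 h2
          rw [del_eq' he i j _ _ h2 h1.1.1, mM_one hv h1, one_smul]
          abel
    have := main j le_rfl
    rwa [← vch_eq] at this

/-- inverting an `𝓕`-relation between charts -/
lemma inv_rel {w w' : OpenPartialHomeomorph M (E n)}
    (hw : w ∈ IsManifold.maximalAtlas 𝓘(ℝ, E n) ∞ M)
    (hw' : w' ∈ IsManifold.maximalAtlas 𝓘(ℝ, E n) ∞ M) {x : M} (hx : x ∈ w.source)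
    (hx' : x ∈ w'.source) (h : VRel 𝓕 w w' x) : VRel 𝓕 w' w x := by
  obtain ⟨u, hu, hue⟩ := h
  set v0 : E n → E n := fun y => w (w'.symm y) with hv0
  have hv0d : ContMDiffAt 𝓘(ℝ, E n) 𝓘(ℝ, E n) ∞ v0 (w' x) := by
    have h2 : ContMDiffAt 𝓘(ℝ, E n) 𝓘(ℝ, E n) ∞ w'.symm (w' x) :=
      contMDiffAt_symm_of_mem_maximalAtlas hw' (w'.map_source hx')
    have h3 : ContMDiffAt 𝓘(ℝ, E n) 𝓘(ℝ, E n) ∞ w (w'.symm (w' x)) := by
      apply contMDiffAt_of_mem_maximalAtlas hw
      rw [w'.left_inv hx']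
      exact hx
    exact ContMDiffAt.comp (w' x) h3 h2
  have hux : u (w x) = w' x := hue.self_of_nhds.symm
  have hv0u : ∀ᶠ y in 𝓝 (w x), v0 (u y) = y := by
    have h1 := (w.symm.continuousAt (w.map_source hx)).eventually
      (p := fun z => w' z = u (w z)) (by simpa [w.left_inv hx] using hue)
    have h2 : ∀ᶠ y in 𝓝 (w x), w.symm y ∈ w'.source := by
      exact (w.symm.continuousAt (w.map_source hx)).preimage_mem_nhds
        (w'.open_source.mem_nhds (by simpa [w.left_inv hx] using hx'))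
    filter_upwards [h1, h2, w.open_target.mem_nhds (w.map_source hx)] with y hy1 hy2 hy3
    rw [w.right_inv hy3] at hy1
    rw [← hy1]
    simp only [hv0]
    rw [w'.left_inv hy2, w.right_inv hy3]
  have hinj : Function.Injective (fderiv ℝ u (w x)) := by
    have hd1 : DifferentiableAt ℝ v0 (u (w x)) := by
      rw [hux]
      exact (hv0d.contDiffAt.differentiableAt (by simp))
    have hd2 : DifferentiableAt ℝ u (w x) :=
      ((𝓕.vec_smooth hu).differentiable (by simp)) _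
    have h3 : fderiv ℝ (fun y => v0 (u y)) (w x) =
        (fderiv ℝ v0 (u (w x))).comp (fderiv ℝ u (w x)) := fderiv_comp (w x) hd1 hd2
    have h4 : fderiv ℝ (fun y => v0 (u y)) (w x) = ContinuousLinearMap.id ℝ (E n) := by
      have : (fun y => v0 (u y)) =ᶠ[𝓝 (w x)] fun y => y := hv0u
      rw [this.fderiv_eq]
      exact fderiv_fun_id
    intro a b hab
    have h5 : (fderiv ℝ v0 (u (w x))).comp (fderiv ℝ u (w x)) =
        ContinuousLinearMap.id ℝ (E n) := by
      rw [← h3, h4]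
    have ha := congrArg (fun L : E n →L[ℝ] E n => L a) h5
    have hb := congrArg (fun L : E n →L[ℝ] E n => L b) h5
    simp only [ContinuousLinearMap.comp_apply, ContinuousLinearMap.id_apply] at ha hb
    rw [← ha, ← hb, hab]
  obtain ⟨v, hv, hvu⟩ := 𝓕.inv u hu (w x) hinj
  refine ⟨v, hv, ?_⟩
  have := (w.continuousAt hx).eventually hvu
  filter_upwards [this, hue] with z hz1 hz2
  rw [hz2, hz1]

/-- the `j`-th chart of the `𝓕`-atlas -/
lemma exists_chart (he : Presents c M e) (j : ℕ) :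
    ∃ w : OpenPartialHomeomorph M (E n), w ∈ IsManifold.maximalAtlas 𝓘(ℝ, E n) ∞ M ∧
      (∀ z, z ∈ w.source ↔ valid c j ∧ (z ∈ (e (kk j)).source ∧
        e (kk j) z ∈ ball (qq j : E n) (2 * rr j)) ∧
        vch 𝓕 c j (e (kk j) z) ∈ ball (qq j : E n) (rr j)) ∧
      (∀ z ∈ w.source, w z = vch 𝓕 c j (e (kk j) z)) ∧
      (valid c j → w.target = ball (qq j : E n) (rr j)) := by
  by_cases hv : valid c j
  · obtain ⟨w, h1, h2, h3, h4⟩ := exists_w2 he (nice (𝓕 := 𝓕) he j) hv
    refine ⟨w.trans (OpenPartialHomeomorph.ofSet (ball (qq j : E n) (rr j)) isOpen_ball),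
      ?_, ?_, ?_, ?_⟩
    · apply OpenPartialHomeomorph.mem_maximalAtlas_of_contMDiffOn
      · intro z hz
        rw [OpenPartialHomeomorph.trans_source] at hz
        have := contMDiffAt_of_mem_maximalAtlas h1 hz.1
        simpa using this.contMDiffWithinAt
      · intro y hy
        rw [OpenPartialHomeomorph.trans_target] at hy
        have hy2 : y ∈ w.target := by simpa using hy.2
        have := contMDiffAt_symm_of_mem_maximalAtlas h1 hy2
        simpa [OpenPartialHomeomorph.trans_symm_eq_symm_trans_symm] using this.contMDiffWithinAt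
    · intro z
      rw [OpenPartialHomeomorph.trans_source, h2]
      simp [h3, hv, and_assoc]
    · intro z hz
      simp [h3]
    · intro _
      rw [OpenPartialHomeomorph.trans_target]
      simp only [OpenPartialHomeomorph.ofSet_target, OpenPartialHomeomorph.ofSet_symm]
      exact inter_eq_left.2 h4
  · refine ⟨(e 0).restr ∅, ?_, ?_, ?_, ?_⟩
    · apply OpenPartialHomeomorph.mem_maximalAtlas_of_contMDiffOn
      · intro x hx; simp at hx
      · intro x hx; simp at hx
    · intro z; simp [hv]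
    · intro z hz; simp at hz
    · intro h; exact absurd h hv

/-- The `𝓕`-atlas of a presented manifold: charts -/
def wch (𝓕 : Fam n) (he : Presents c M e) (j : ℕ) : OpenPartialHomeomorph M (E n) :=
  (exists_chart (𝓕 := 𝓕) he j).choose

lemma wch_mem (he : Presents c M e) (j : ℕ) :
    wch 𝓕 he j ∈ IsManifold.maximalAtlas 𝓘(ℝ, E n) ∞ M :=
  (exists_chart (𝓕 := 𝓕) he j).choose_spec.1

lemma wch_source (he : Presents c M e) (j : ℕ) (z : M) :
    z ∈ (wch 𝓕 he j).source ↔ valid c j ∧ (z ∈ (e (kk j)).source ∧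
        e (kk j) z ∈ ball (qq j : E n) (2 * rr j)) ∧
        vch 𝓕 c j (e (kk j) z) ∈ ball (qq j : E n) (rr j) :=
  (exists_chart (𝓕 := 𝓕) he j).choose_spec.2.1 z

lemma wch_eq (he : Presents c M e) (j : ℕ) {z : M} (hz : z ∈ (wch 𝓕 he j).source) :
    wch 𝓕 he j z = vch 𝓕 c j (e (kk j) z) :=
  (exists_chart (𝓕 := 𝓕) he j).choose_spec.2.2.1 z hz

lemma wch_target (he : Presents c M e) (j : ℕ) (hv : valid c j) :
    (wch 𝓕 he j).target = ball (qq j : E n) (rr j) :=
  (exists_chart (𝓕 := 𝓕) he j).choose_spec.2.2.2 hv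

lemma wch_sub_Vset (he : Presents c M e) {i j : ℕ} {z : M} (hz : z ∈ (wch 𝓕 he i).source) :
    z ∈ Vset 𝓕 c e i j := by
  obtain ⟨-, h1, h2⟩ := (wch_source he i z).1 hz
  refine ⟨h1, ball_subset_ball ?_ h2⟩
  have := rr_pos i
  have h3 : (0:ℝ) < 1 / 2 ^ j := by positivity
  nlinarith

lemma wch_rel (he : Presents c M e) {i j : ℕ} (hij : i < j) {z : M}
    (hi : z ∈ (wch 𝓕 he i).source) (hj : z ∈ (wch 𝓕 he j).source) :
    VRel 𝓕 (wch 𝓕 he i) (wch 𝓕 he j) z := by
  obtain ⟨p, hp, hpe⟩ := compat_vch (𝓕 := 𝓕) he j i hij ((wch_source he i z).1 hi).1 z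
    ((wch_source he j z).1 hj).2.1.1 (wch_sub_Vset he hi)
  refine ⟨p, hp, ?_⟩
  filter_upwards [hpe, (wch 𝓕 he i).open_source.mem_nhds hi,
    (wch 𝓕 he j).open_source.mem_nhds hj] with z' h1 h2 h3
  rw [wch_eq he i h2, wch_eq he j h3]
  exact h1

lemma wch_cover (he : Presents c M e) (z : M) : ∃ j, z ∈ (wch 𝓕 he j).source := by
  obtain ⟨k, hk⟩ := he.cover z
  have hx : e k z ∈ c.dom k := by rw [← he.target]; exact (e k).map_source hk
  obtain ⟨δ, hδ, hball⟩ := Metric.isOpen_iff.1 (c.isOpen_dom k) (e k z) hx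
  obtain ⟨b, hb⟩ := exists_nat_one_div_lt (show (0:ℝ) < δ / 4 by linarith)
  set r : ℝ := 1 / ((b:ℝ) + 1) with hr
  have hr0 : 0 < r := by positivity
  obtain ⟨a, ha⟩ := (TopologicalSpace.denseRange_denseSeq (E n)).exists_dist_lt (e k z)
    (show (0:ℝ) < r / 2 by linarith)
  obtain ⟨j, hj⟩ := idx_surj (k, a, b)
  have hkk : kk j = k := by simp [kk, hj]
  have hqq : (qq j : E n) = ctr a := by simp [qq, hj]
  have hrr : rr j = r := by simp [rr, rq, hj, hr]
  have ha' : dist (e k z) (qq j) < rr j / 2 := by rw [hqq, hrr]; exact ha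
  have hv : valid c j := by
    intro y hy
    rw [hkk]
    apply hball
    rw [mem_closedBall] at hy
    rw [mem_ball]
    have := dist_triangle y (qq j) (e k z)
    rw [dist_comm (qq j : E n) (e k z)] at this
    rw [hrr] at *
    linarith
  refine ⟨j, (wch_source he j z).2 ⟨hv, ⟨by rw [hkk]; exact hk, ?_⟩, ?_⟩⟩
  · rw [hkk, mem_ball]
    have := rr_pos j
    linarith
  · have h1 : e (kk j) z ∈ ball (qq j : E n) (2 * rr j) := by
      rw [hkk, mem_ball]
      have := rr_pos j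
      linarith
    have h2 := ((nice (𝓕 := 𝓕) he j).2 hv).1 _ h1
    rw [hkk] at h2 ⊢
    rw [mem_ball]
    have h3 := dist_triangle (vch 𝓕 c j (e k z)) (e k z) (qq j)
    rw [← dist_eq_norm] at h2
    have := rr_pos j
    linarith

/-- The `𝓕`-atlas of a presented manifold. -/
def codeAtlas (𝓕 : Fam n) (he : Presents c M e) : FAtlas 𝓕 M where
  w := wch 𝓕 he
  mem := wch_mem he
  cover := wch_cover he
  compat := by
    intro i j x hi hj l
    have key : VRel 𝓕 (wch 𝓕 he i) (wch 𝓕 he j) x := by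
      rcases lt_trichotomy i j with h | h | h
      · exact wch_rel he h hi hj
      · subst h
        exact ⟨fun y => y, fun l => 𝓕.coord l, by simp⟩
      · exact inv_rel (wch_mem he j) (wch_mem he i) hj hi (wch_rel he h hj hi)
    obtain ⟨p, hp, hpe⟩ := key
    refine ⟨_, hp l, ?_⟩
    filter_upwards [hpe] with z hz
    rw [hz]

end MP7d75
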