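import Pool.Agent.MP_7d75c8_lc.Maps

/-!
# From an isomorphism of the countable structures to a diffeomorphism
-/

open Set Filter Topology Metric Manifold
open scoped ContDiff

noncomputable section

namespace MP7d75

/-- The joint image of `φ (v i)` meets the open rational box `D`. -/
def MeetsBox {M : Type*} (φ : ℕ → M → ℝ) {m : ℕ} (D : Fin m → ℚ × ℚ) (v : Fin m → ℕ) : Prop :=
  ∃ x, ∀ i, ((D i).1 : ℝ) < φ (v i) x ∧ φ (v i) x < ((D i).2 : ℝ)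

lemma exists_point {M N : Type*} [TopologicalSpace N] {φ : ℕ → M → ℝ} {ψ : ℕ → N → ℝ}
    (hψc : ∀ a, Continuous (ψ a)) (hψs : ∀ a, HasCompactSupport (ψ a)) {τ : ℕ → ℕ}
    (hτ : ∀ (m : ℕ) (D : Fin m → ℚ × ℚ) (v : Fin m → ℕ), MeetsBox φ D v → MeetsBox ψ D (τ ∘ v))
    (x : M) (a0 : ℕ) (ha0 : φ a0 x = 1) : ∃ y, ∀ a, ψ (τ a) y = φ a x := by
  classical
  set K : Set N := {y | (1/2 : ℝ) ≤ ψ (τ a0) y} with hK
  have hKc : IsCompact K := by
    refine (hψs (τ a0)).of_isClosed_subset (isClosed_le continuous_const (hψc _)) ?_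
    intro y hy
    apply subset_tsupport
    rw [Function.mem_support]
    have : (1/2:ℝ) ≤ ψ (τ a0) y := hy
    intro h0
    rw [h0] at this
    norm_num at this
  let t : ℕ × ℕ → Set N := fun p => {y | |ψ (τ p.1) y - φ p.1 x| ≤ 1 / ((p.2 : ℝ) + 1)}
  have ht : ∀ p, IsClosed (t p) := fun p =>
    isClosed_le (((hψc _).sub continuous_const).abs) continuous_const
  have hfin : ∀ u : Finset (ℕ × ℕ), (K ∩ ⋂ p ∈ u, t p).Nonempty := by
    intro u
    -- a uniform epsilon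
    obtain ⟨ε, hε0, hε2, hεu⟩ : ∃ ε : ℝ, 0 < ε ∧ ε ≤ 1/2 ∧ ∀ p ∈ u, ε ≤ 1 / ((p.2 : ℝ) + 1) := by
      induction u using Finset.induction_on with
      | empty => exact ⟨1/2, by norm_num, le_refl _, by simp⟩
      | insert p u _ ih =>
        obtain ⟨ε, h0, h2, hu⟩ := ih
        refine ⟨min ε (1 / ((p.2:ℝ) + 1)), lt_min h0 (by positivity), (min_le_left _ _).trans h2, ?_⟩
        intro q hq
        rcases Finset.mem_insert.1 hq with rfl | hq
        · exact min_le_right _ _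
        · exact (min_le_left _ _).trans (hu q hq)
    let s : Finset ℕ := insert a0 (u.image Prod.fst)
    let v : Fin s.card → ℕ := fun i => (s.equivFin.symm i : ℕ)
    have hD : ∀ i : Fin s.card, ∃ d : ℚ × ℚ, φ (v i) x - ε < d.1 ∧ (d.1:ℝ) < φ (v i) x ∧
        φ (v i) x < d.2 ∧ (d.2:ℝ) < φ (v i) x + ε := by
      intro i
      obtain ⟨r, h1, h2⟩ := exists_rat_btwn (show φ (v i) x - ε < φ (v i) x by linarith)
      obtain ⟨r', h3, h4⟩ := exists_rat_btwn (show φ (v i) x < φ (v i) x + ε by linarith)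
      exact ⟨(r, r'), h1, h2, h3, h4⟩
    choose D hD using hD
    obtain ⟨y, hy⟩ := hτ _ D v ⟨x, fun i => ⟨(hD i).2.1, (hD i).2.2.1⟩⟩
    have key : ∀ a ∈ s, |ψ (τ a) y - φ a x| < ε := by
      intro a ha
      obtain ⟨i, hi⟩ : ∃ i, v i = a := ⟨s.equivFin ⟨a, ha⟩, by simp [v]⟩
      have h1 := hy i
      have h2 := hD i
      simp only [Function.comp_apply, hi] at h1 h2
      rw [abs_lt]
      constructor <;> linarith [h1.1, h1.2, h2.1, h2.2.2.2]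
    refine ⟨y, ?_, ?_⟩
    · have := key a0 (Finset.mem_insert_self _ _)
      rw [ha0, abs_lt] at this
      show (1/2:ℝ) ≤ ψ (τ a0) y
      linarith [this.1]
    · rw [mem_iInter₂]
      intro p hp
      have := key p.1 (Finset.mem_insert_of_mem (Finset.mem_image_of_mem _ hp))
      exact this.le.trans (hεu p hp)
  obtain ⟨y, hyK, hy⟩ := hKc.inter_iInter_nonempty t ht hfin
  refine ⟨y, fun a => ?_⟩
  have hle : ∀ k : ℕ, |ψ (τ a) y - φ a x| ≤ 1 / ((k:ℝ) + 1) := fun k =>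
    (mem_iInter.1 hy (a, k))
  have : |ψ (τ a) y - φ a x| ≤ 0 := by
    refine ge_of_tendsto' (tendsto_one_div_add_atTop_nhds_zero_nat (𝕜 := ℝ)) hle
  have h0 := abs_nonpos_iff.1 this
  linarith

variable {n : ℕ} {𝓕 : Fam n} {M : Type*} [TopologicalSpace M] [ChartedSpace (E n) M]
  {N : Type*} [TopologicalSpace N] [ChartedSpace (E n) N]

/-- compactly supported locally-`𝓕` functions -/
def LFc (𝒜 : FAtlas 𝓕 M) (f : M → ℝ) : Prop := HasCompactSupport f ∧ ∀ x, 𝒜.LF f x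

/-- `φ` enumerates the compactly supported locally-`𝓕` functions, each infinitely often. -/
def IsEnum (𝒜 : FAtlas 𝓕 M) (φ : ℕ → M → ℝ) : Prop :=
  (∀ a, LFc 𝒜 (φ a)) ∧ ∀ f, LFc 𝒜 f → {a | φ a = f}.Infinite

lemma IsEnum.exists_eq {𝒜 : FAtlas 𝓕 M} {φ : ℕ → M → ℝ} (h : IsEnum 𝒜 φ) {f : M → ℝ}
    (hf : LFc 𝒜 f) : ∃ a, φ a = f := (h.2 f hf).nonempty

lemma LFc.continuous {𝒜 : FAtlas 𝓕 M} {f : M → ℝ} (hf : LFc 𝒜 f) : Continuous f :=
  continuous_iff_continuousAt.2 fun x => (hf.2 x).continuousAt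

section
variable [T2Space M] {𝒜 : FAtlas 𝓕 M}

/-- the coordinate functions cut off by a bump -/
lemma exists_cutoff_coord (𝒜 : FAtlas 𝓕 M) {x : M} {j : ℕ} (hj : x ∈ (𝒜.w j).source) :
    ∃ c : Fin n → M → ℝ, (∀ l, LFc 𝒜 (c l)) ∧ ∀ᶠ z in 𝓝 x, ∀ l, c l z = 𝒜.w j z l := by
  obtain ⟨β, h1, h2, h3, h4, h5⟩ := exists_lf_bump_at 𝒜 ((𝒜.w j).open_source.mem_nhds hj)
  refine ⟨fun l z => β z * 𝒜.w j z l, fun l => ⟨h4.mul_right, fun z => ?_⟩, ?_⟩
  · by_cases hz : z ∈ tsupport β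
    · exact (h1 z).mul (FAtlas.lf_coord (h5 hz) l)
    · refine (FAtlas.lf_zero z).congr ?_
      filter_upwards [(isClosed_tsupport β).isOpen_compl.mem_nhds hz] with z' hz'
      rw [image_eq_zero_of_notMem_tsupport hz', zero_mul]
  · filter_upwards [h3] with z hz l
    rw [hz, one_mul]

lemma IsEnum.separates {φ : ℕ → M → ℝ} (h : IsEnum 𝒜 φ) {x y : M}
    (hxy : ∀ a, φ a x = φ a y) : x = y := by
  by_contra hne
  obtain ⟨β, h1, h2, h3, h4, h5⟩ := exists_lf_bump_at 𝒜 (x := x) (U := {y}ᶜ)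
    (isClosed_singleton.isOpen_compl.mem_nhds hne)
  obtain ⟨a, ha⟩ := h.exists_eq ⟨h4, h1⟩
  have hx : β x = 1 := h3.self_of_nhds
  have hy : β y = 0 := by
    apply image_eq_zero_of_notMem_tsupport
    intro hmem
    exact h5 hmem rfl
  have := hxy a
  rw [ha, hx, hy] at this
  exact one_ne_zero this

lemma IsEnum.exists_one {φ : ℕ → M → ℝ} (h : IsEnum 𝒜 φ) (x : M) : ∃ a, φ a x = 1 := by
  obtain ⟨β, h1, h2, h3, h4, h5⟩ := exists_lf_bump_at 𝒜 (x := x) (U := univ) univ_mem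
  obtain ⟨a, ha⟩ := h.exists_eq ⟨h4, h1⟩
  exact ⟨a, by rw [ha]; exact h3.self_of_nhds⟩

end

section
variable [T2Space N] {𝒜 : FAtlas 𝓕 M} {ℬ : FAtlas 𝓕 N}

lemma continuous_of_intertwine {φ : ℕ → M → ℝ} {ψ : ℕ → N → ℝ} (hφ : IsEnum 𝒜 φ)
    (hψ : IsEnum ℬ ψ) (τ : ℕ → ℕ) (hτ : Function.Surjective τ) (h : M → N)
    (hh : ∀ a x, ψ (τ a) (h x) = φ a x) : Continuous h := by
  rw [continuous_iff_continuousAt]
  intro x W hW
  obtain ⟨β, h1, h2, h3, h4, h5⟩ := exists_lf_bump_at ℬ (x := h x) hW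
  obtain ⟨b, hb⟩ := hψ.exists_eq ⟨h4, h1⟩
  obtain ⟨a, rfl⟩ := hτ b
  have hx : φ a x = 1 := by rw [← hh, hb]; exact h3.self_of_nhds
  have hc : ContinuousAt (φ a) x := ((hφ.1 a).2 x).continuousAt
  have : ∀ᶠ z in 𝓝 x, φ a z ≠ 0 := by
    apply hc.eventually_ne
    rw [hx]; exact one_ne_zero
  rw [mem_map]
  filter_upwards [this] with z hz
  apply h5
  apply subset_tsupport
  rw [Function.mem_support, ← hb, hh]
  exact hz

lemma contMDiff_of_intertwine [IsManifold 𝓘(ℝ, E n) ∞ M] [IsManifold 𝓘(ℝ, E n) ∞ N]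
    {φ : ℕ → M → ℝ} {ψ : ℕ → N → ℝ} (hφ : IsEnum 𝒜 φ)
    (hψ : IsEnum ℬ ψ) (τ : ℕ → ℕ) (hτ : Function.Surjective τ) (h : M → N)
    (hh : ∀ a x, ψ (τ a) (h x) = φ a x) : ContMDiff 𝓘(ℝ, E n) 𝓘(ℝ, E n) ∞ h := by
  have hc := continuous_of_intertwine hφ hψ τ hτ h hh
  intro x
  obtain ⟨j, hj⟩ := ℬ.cover (h x)
  obtain ⟨c, hc1, hc2⟩ := exists_cutoff_coord ℬ hj
  choose b hb using fun l => hψ.exists_eq (hc1 l)
  choose a ha using fun l => hτ (b l)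
  have h1 : ∀ᶠ z in 𝓝 x, ∀ l, ℬ.w j (h z) l = φ (a l) z := by
    filter_upwards [hc.continuousAt.eventually hc2] with z hz l
    rw [← hz l, ← hb l, ← hh, ha]
  have h2 : ContMDiffAt 𝓘(ℝ, E n) 𝓘(ℝ, E n) ∞ (fun z => ℬ.w j (h z)) x := by
    have h3 : ContMDiffAt 𝓘(ℝ, E n) 𝓘(ℝ, E n) ∞ (fun z => WithLp.toLp 2 (fun l => φ (a l) z)) x := by
      have h4 : ContMDiffAt 𝓘(ℝ, E n) 𝓘(ℝ, Fin n → ℝ) ∞ (fun z => (fun l => φ (a l) z)) x := by
        rw [contMDiffAt_pi_space]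
        intro l
        exact ((hφ.1 (a l)).2 x).contMDiffAt
      have h5 : ContMDiff 𝓘(ℝ, Fin n → ℝ) 𝓘(ℝ, E n) ∞
          (fun y : Fin n → ℝ => (WithLp.toLp 2 y : E n)) := by
        apply ContDiff.contMDiff
        exact (PiLp.continuousLinearEquiv 2 ℝ (fun _ : Fin n => ℝ)).symm.contDiff
      exact ContMDiffAt.comp x h5.contMDiffAt h4
    refine h3.congr_of_eventuallyEq ?_
    filter_upwards [h1] with z hz
    ext l
    simpa using hz l
  have h6 : ContMDiffAt 𝓘(ℝ, E n) 𝓘(ℝ, E n) ∞ (fun z => (ℬ.w j).symm (ℬ.w j (h z))) x := by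
    refine ContMDiffAt.comp x ?_ h2
    exact contMDiffAt_symm_of_mem_maximalAtlas (ℬ.mem j) ((ℬ.w j).map_source hj)
  refine h6.congr_of_eventuallyEq ?_
  filter_upwards [hc.continuousAt.preimage_mem_nhds ((ℬ.w j).open_source.mem_nhds hj)] with z hz
  exact ((ℬ.w j).left_inv hz).symm

end

/-- An isomorphism of the structures yields a diffeomorphism. -/
theorem diffeo_of_iso [T2Space M] [T2Space N] [IsManifold 𝓘(ℝ, E n) ∞ M]
    [IsManifold 𝓘(ℝ, E n) ∞ N] {𝒜 : FAtlas 𝓕 M} {ℬ : FAtlas 𝓕 N}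
    {φ : ℕ → M → ℝ} {ψ : ℕ → N → ℝ} (hφ : IsEnum 𝒜 φ) (hψ : IsEnum ℬ ψ) (σ : ℕ ≃ ℕ)
    (hσ : ∀ (m : ℕ) (D : Fin m → ℚ × ℚ) (v : Fin m → ℕ),
      MeetsBox φ D v ↔ MeetsBox ψ D (σ ∘ v)) :
    Nonempty (Diffeomorph 𝓘(ℝ, E n) 𝓘(ℝ, E n) M N ∞) := by
  have h1 : ∀ x : M, ∃ y, ∀ a, ψ (σ a) y = φ a x := by
    intro x
    obtain ⟨a0, ha0⟩ := hφ.exists_one x
    exact exists_point (fun a => (hψ.1 a).continuous) (fun a => (hψ.1 a).1)
      (fun m D v hv => (hσ m D v).1 hv) x a0 ha0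
  have h2 : ∀ y : N, ∃ x, ∀ b, φ (σ.symm b) x = ψ b y := by
    intro y
    obtain ⟨b0, hb0⟩ := hψ.exists_one y
    refine exists_point (fun a => (hφ.1 a).continuous) (fun a => (hφ.1 a).1)
      (fun m D v hv => ?_) y b0 hb0
    rw [hσ]
    convert hv using 1
    ext i
    simp
  choose f hf using h1
  choose g hg using h2
  refine ⟨⟨⟨f, g, ?_, ?_⟩, ?_, ?_⟩⟩
  · intro x
    apply hφ.separates
    intro a
    have := hg (f x) (σ a)
    rw [σ.symm_apply_apply] at this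
    rw [this, hf]
  · intro y
    apply hψ.separates
    intro b
    have := hf (g y) (σ.symm b)
    rw [σ.apply_symm_apply] at this
    rw [this, hg]
  · exact contMDiff_of_intertwine hφ hψ σ σ.surjective f (fun a x => hf x a)
  · exact contMDiff_of_intertwine hψ hφ σ.symm σ.symm.surjective g (fun a x => hg x a)

end MP7d75
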