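import Pool.Agent.MP_7d75c8_lc.Step
import Pool.Agent.MP_7d75c8_lc.IsoToDiffeo

/-!
# From a diffeomorphism to an isomorphism of the countable structures: back and forth
-/

open Set Filter Topology Metric Manifold
open scoped ContDiff

noncomputable section

namespace MP7d75

/-! ## The combinatorial back-and-forth -/

theorem back_forth (G : List (ℕ × ℕ) → Prop) (h0 : G [])
    (hinj : ∀ s, G s → ∀ p ∈ s, ∀ q ∈ s, (p.1 = q.1 ↔ p.2 = q.2))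
    (forth : ∀ s, G s → ∀ a, ∃ b, G ((a, b) :: s))
    (back : ∀ s, G s → ∀ b, ∃ a, G ((a, b) :: s)) :
    ∃ σ : ℕ ≃ ℕ, ∀ A : Finset ℕ, ∃ s, G s ∧ ∀ a ∈ A, (a, σ a) ∈ s := by
  have step : ∀ (s : {s : List (ℕ × ℕ) // G s}) (k : ℕ), ∃ s' : {s : List (ℕ × ℕ) // G s},
      (∀ p ∈ s.1, p ∈ s'.1) ∧ (∃ b, (k, b) ∈ s'.1) ∧ ∃ a, (a, k) ∈ s'.1 := by
    intro s k
    obtain ⟨b, hb⟩ := forth s.1 s.2 k
    obtain ⟨a, ha⟩ := back _ hb k
    refine ⟨⟨_, ha⟩, ?_, ⟨b, ?_⟩, ⟨a, ?_⟩⟩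
    · intro p hp
      exact List.mem_cons_of_mem _ (List.mem_cons_of_mem _ hp)
    · exact List.mem_cons_of_mem _ List.mem_cons_self
    · exact List.mem_cons_self
  choose nxt hn1 hn2 hn3 using step
  let S : ℕ → {s : List (ℕ × ℕ) // G s} := fun k => Nat.rec ⟨[], h0⟩ (fun k s => nxt s k) k
  have hS : ∀ k, S (k + 1) = nxt (S k) k := fun k => rfl
  have hmono : ∀ k l, k ≤ l → ∀ p ∈ (S k).1, p ∈ (S l).1 := by
    intro k l hkl
    induction hkl with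
    | refl => exact fun p hp => hp
    | step _ ih =>
      intro p hp
      rw [Nat.succ_eq_add_one, hS]
      exact hn1 _ _ _ (ih p hp)
  have h1 : ∀ a, ∃ b, (a, b) ∈ (S (a + 1)).1 := fun a => by rw [hS]; exact hn2 _ _
  have h2 : ∀ b, ∃ a, (a, b) ∈ (S (b + 1)).1 := fun a => by rw [hS]; exact hn3 _ _
  choose f hf using h1
  choose g hg using h2
  have hgf : ∀ a, g (f a) = a := by
    intro a
    have e1 := hmono _ _ (le_max_left (a + 1) (f a + 1)) _ (hf a)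
    have e2 := hmono _ _ (le_max_right (a + 1) (f a + 1)) _ (hg (f a))
    exact ((hinj _ (S (max (a + 1) (f a + 1))).2 _ e2 _ e1).2 rfl)
  have hfg : ∀ b, f (g b) = b := by
    intro b
    have e1 := hmono _ _ (le_max_left (b + 1) (g b + 1)) _ (hg b)
    have e2 := hmono _ _ (le_max_right (b + 1) (g b + 1)) _ (hf (g b))
    exact ((hinj _ (S (max (b + 1) (g b + 1))).2 _ e2 _ e1).1 rfl)
  refine ⟨⟨f, g, hgf, hfg⟩, fun A => ?_⟩
  refine ⟨(S (A.sup (fun a => a + 1))).1, (S _).2, fun a ha => ?_⟩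
  exact hmono _ _ (Finset.le_sup (f := fun a => a + 1) ha) _ (hf a)

variable {n : ℕ} {𝓕 : Fam n} {M : Type*} [TopologicalSpace M] [ChartedSpace (E n) M]
  {N : Type*} [TopologicalSpace N] [ChartedSpace (E n) N]
  [T2Space M] [T2Space N] [IsManifold 𝓘(ℝ, E n) ∞ M] [IsManifold 𝓘(ℝ, E n) ∞ N]
  {𝒜 : FAtlas 𝓕 M} {ℬ : FAtlas 𝓕 N}

/-- Finitely many modification steps. -/
theorem exists_multi {L : Set M} (hL : IsCompact L) (Ls : List (Set M × ℕ × ℕ)) :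
    ∀ (h : Diffeomorph 𝓘(ℝ, E n) 𝓘(ℝ, E n) M N ∞)
    (_ : ∀ q ∈ Ls, IsCompact q.1 ∧ q.1 ⊆ (𝒜.w q.2.1).source ∧
      ∀ z ∈ q.1, h z ∈ (ℬ.w q.2.2).source)
    (_ : ∀ x ∈ L, LFmap 𝒜 ℬ h x),
    ∃ h1 : Diffeomorph 𝓘(ℝ, E n) 𝓘(ℝ, E n) M N ∞,
      (∀ x, LFmap 𝒜 ℬ h x → LFmap 𝒜 ℬ h1 x) ∧ (∀ q ∈ Ls, ∀ x ∈ q.1, LFmap 𝒜 ℬ h1 x) ∧
      (∀ x ∈ L, h1 x = h x) := by
  induction Ls with
  | nil => exact fun h _ _ => ⟨h, fun x hx => hx, by simp, fun x _ => rfl⟩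
  | cons q Ls ih =>
    intro h hLs hLh
    obtain ⟨hq1, hq2, hq3⟩ := hLs q List.mem_cons_self
    obtain ⟨h1, e1, e2, e3, e4⟩ := exists_step (𝒜 := 𝒜) (ℬ := ℬ) h hq1 hq2 hq3 hL hLh
      (Ls.map fun q => (q.1, (ℬ.w q.2.2).source)) (by
        intro p hp
        obtain ⟨q', hq', rfl⟩ := List.mem_map.1 hp
        obtain ⟨g1, g2, g3⟩ := hLs q' (List.mem_cons_of_mem _ hq')
        exact ⟨g1, (ℬ.w q'.2.2).open_source, g3⟩)
    obtain ⟨h2, f1, f2, f3⟩ := ih h1 (by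
        intro q' hq'
        obtain ⟨g1, g2, g3⟩ := hLs q' (List.mem_cons_of_mem _ hq')
        exact ⟨g1, g2, e4 _ (List.mem_map_of_mem hq')⟩)
      (fun x hx => e1 x (hLh x hx))
    refine ⟨h2, fun x hx => f1 x (e1 x hx), ?_, fun x hx => (f3 x hx).trans (e3 x hx)⟩
    intro q' hq' x hx
    rcases List.mem_cons.1 hq' with rfl | hq'
    · exact f1 x (e2 x hx)
    · exact f2 q' hq' x hx

/-- Making a diffeomorphism locally `𝓕` near a further compact set. -/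
theorem exists_modify (h : Diffeomorph 𝓘(ℝ, E n) 𝓘(ℝ, E n) M N ∞) {L P : Set M}
    (hL : IsCompact L) (hLh : ∀ x ∈ L, LFmap 𝒜 ℬ h x) (hP : IsCompact P) :
    ∃ h1 : Diffeomorph 𝓘(ℝ, E n) 𝓘(ℝ, E n) M N ∞,
      (∀ x, LFmap 𝒜 ℬ h x → LFmap 𝒜 ℬ h1 x) ∧ (∀ x ∈ P, LFmap 𝒜 ℬ h1 x) ∧
      (∀ x ∈ L, h1 x = h x) := by
  classical
  haveI : LocallyCompactSpace M := ChartedSpace.locallyCompactSpace (E n) M
  have hx : ∀ x : M, ∃ q : Set M × ℕ × ℕ, q.1 ∈ 𝓝 x ∧ IsCompact q.1 ∧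
      q.1 ⊆ (𝒜.w q.2.1).source ∧ ∀ z ∈ q.1, h z ∈ (ℬ.w q.2.2).source := by
    intro x
    obtain ⟨i, hi⟩ := 𝒜.cover x
    obtain ⟨j, hj⟩ := ℬ.cover (h x)
    have hU : IsOpen ((𝒜.w i).source ∩ h ⁻¹' (ℬ.w j).source) :=
      (𝒜.w i).open_source.inter ((ℬ.w j).open_source.preimage h.continuous)
    obtain ⟨K, hK, hKU, hKc⟩ := local_compact_nhds (hU.mem_nhds ⟨hi, hj⟩)
    exact ⟨(K, i, j), hK, hKc, fun z hz => (hKU hz).1, fun z hz => (hKU hz).2⟩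
  choose q hq1 hq2 hq3 hq4 using hx
  obtain ⟨t, -, ht⟩ := hP.elim_nhds_subcover (fun x => (q x).1) (fun x _ => hq1 x)
  obtain ⟨h1, e1, e2, e3⟩ := exists_multi (𝒜 := 𝒜) (ℬ := ℬ) hL (t.toList.map q) h (by
    intro p hp
    obtain ⟨x, _, rfl⟩ := List.mem_map.1 hp
    exact ⟨hq2 x, hq3 x, hq4 x⟩) hLh
  refine ⟨h1, e1, fun x hx => ?_, e3⟩
  obtain ⟨y, hy, hxy⟩ := mem_iUnion₂.1 (ht hx)
  exact e2 (q y) (List.mem_map_of_mem (Finset.mem_toList.2 hy)) x hxy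

/-- Finite partial isomorphisms witnessed by a diffeomorphism. -/
def Good (𝒜 : FAtlas 𝓕 M) (ℬ : FAtlas 𝓕 N) (φ : ℕ → M → ℝ) (ψ : ℕ → N → ℝ)
    (s : List (ℕ × ℕ)) : Prop :=
  (∀ p ∈ s, ∀ q ∈ s, (p.1 = q.1 ↔ p.2 = q.2)) ∧
  ∃ h : Diffeomorph 𝓘(ℝ, E n) 𝓘(ℝ, E n) M N ∞, ∀ p ∈ s,
    (∀ x, φ p.1 x = ψ p.2 (h x)) ∧ ∀ x ∈ tsupport (φ p.1), LFmap 𝒜 ℬ h x

omit [T2Space M] [T2Space N] in
lemma Good.swap {φ : ℕ → M → ℝ} {ψ : ℕ → N → ℝ} {s : List (ℕ × ℕ)} (hs : Good 𝒜 ℬ φ ψ s) :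
    Good ℬ 𝒜 ψ φ (s.map Prod.swap) := by
  obtain ⟨h1, h, h2⟩ := hs
  refine ⟨?_, h.symm, ?_⟩
  · intro p hp q hq
    obtain ⟨p', hp', rfl⟩ := List.mem_map.1 hp
    obtain ⟨q', hq', rfl⟩ := List.mem_map.1 hq
    exact (h1 p' hp' q' hq').symm
  · intro p hp
    obtain ⟨p', hp', rfl⟩ := List.mem_map.1 hp
    obtain ⟨e1, e2⟩ := h2 p' hp'
    refine ⟨fun y => ?_, fun y hy => ?_⟩
    · rw [Prod.fst_swap, Prod.snd_swap, e1 (h.symm y), h.apply_symm_apply]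
    · rw [Prod.fst_swap] at hy
      have hx : h.symm y ∈ tsupport (φ p'.1) := by
        have hsup : Function.support (φ p'.1) = h ⁻¹' (Function.support (ψ p'.2)) := by
          ext x
          simp only [Function.mem_support, mem_preimage, e1 x]
        rw [tsupport, hsup]
        have : closure (h ⁻¹' (Function.support (ψ p'.2))) =
            h ⁻¹' (closure (Function.support (ψ p'.2))) :=
          (h.toHomeomorph.preimage_closure _).symm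
        rw [this, mem_preimage, h.apply_symm_apply]
        exact hy
      have := (e2 _ hx).symm
      rwa [h.apply_symm_apply] at this

lemma Good.forth {φ : ℕ → M → ℝ} {ψ : ℕ → N → ℝ} (hφ : IsEnum 𝒜 φ) (hψ : IsEnum ℬ ψ)
    {s : List (ℕ × ℕ)} (hs : Good 𝒜 ℬ φ ψ s) (a : ℕ) : ∃ b, Good 𝒜 ℬ φ ψ ((a, b) :: s) := by
  classical
  by_cases ha : ∃ b, (a, b) ∈ s
  · obtain ⟨b, hb⟩ := ha
    obtain ⟨h1, h, h2⟩ := hs
    have hsub : ∀ p, p ∈ (a, b) :: s → p ∈ s := by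
      intro p hp
      rcases List.mem_cons.1 hp with rfl | hp
      · exact hb
      · exact hp
    exact ⟨b, fun p hp q hq => h1 p (hsub p hp) q (hsub q hq), h, fun p hp => h2 p (hsub p hp)⟩
  · push Not at ha
    obtain ⟨h1, h, h2⟩ := hs
    set L : Set M := ⋃ p ∈ s.toFinset, tsupport (φ p.1) with hL
    have hLc : IsCompact L := s.toFinset.isCompact_biUnion fun p _ => (hφ.1 p.1).1
    have hLh : ∀ x ∈ L, LFmap 𝒜 ℬ h x := by
      intro x hx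
      obtain ⟨p, hp, hxp⟩ := mem_iUnion₂.1 hx
      exact (h2 p (List.mem_toFinset.1 hp)).2 x hxp
    obtain ⟨h', e1, e2, e3⟩ := exists_modify (𝒜 := 𝒜) (ℬ := ℬ) h hLc hLh (hφ.1 a).1
    have hf : LFc ℬ (fun y => φ a (h'.symm y)) := by
      refine ⟨(hφ.1 a).1.comp_homeomorph h'.symm.toHomeomorph, fun y => ?_⟩
      by_cases hy : h'.symm y ∈ tsupport (φ a)
      · have h3 := (e2 _ hy).symm
        rw [h'.apply_symm_apply] at h3
        exact h3.2 _ ((hφ.1 a).2 _)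
      · refine (FAtlas.lf_zero y).congr ?_
        have : ∀ᶠ x in 𝓝 (h'.symm y), φ a x = 0 := by
          filter_upwards [(isClosed_tsupport (φ a)).isOpen_compl.mem_nhds hy] with x hx
          exact image_eq_zero_of_notMem_tsupport hx
        exact h'.symm.continuous.continuousAt.eventually this
    obtain ⟨b, hb, hbs⟩ := (hψ.2 _ hf).exists_notMem_finset (s.map Prod.snd).toFinset
    have hb' : ψ b = fun y => φ a (h'.symm y) := hb
    rw [List.mem_toFinset] at hbs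
    have hbs' : ∀ p ∈ s, p.2 ≠ b := fun p hp h => hbs (h ▸ List.mem_map_of_mem hp)
    have has' : ∀ p ∈ s, p.1 ≠ a := fun p hp h => ha p.2 (by rw [← h]; exact hp)
    refine ⟨b, ?_, h', ?_⟩
    · intro p hp q hq
      rcases List.mem_cons.1 hp with rfl | hp <;> rcases List.mem_cons.1 hq with rfl | hq
      · simp
      · simp only
        exact ⟨fun h => absurd h.symm (has' q hq), fun h => absurd h.symm (hbs' q hq)⟩
      · simp only
        exact ⟨fun h => absurd h (has' p hp), fun h => absurd h (hbs' p hp)⟩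
      · exact h1 p hp q hq
    · intro p hp
      rcases List.mem_cons.1 hp with rfl | hp
      · refine ⟨fun x => ?_, e2⟩
        simp only [hb', h'.symm_apply_apply]
      · obtain ⟨f1, f2⟩ := h2 p hp
        refine ⟨fun x => ?_, fun x hx => e1 x (f2 x hx)⟩
        by_cases hx : x ∈ tsupport (φ p.1)
        · rw [e3 x (mem_iUnion₂.2 ⟨p, List.mem_toFinset.2 hp, hx⟩)]
          exact f1 x
        · rw [image_eq_zero_of_notMem_tsupport hx]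
          by_contra hne
          have h3 : φ p.1 (h.symm (h' x)) ≠ 0 := by
            rw [f1, h.apply_symm_apply]
            exact fun h => hne h.symm
          have h4 : h.symm (h' x) ∈ tsupport (φ p.1) := subset_tsupport _ h3
          have h5 := e3 _ (mem_iUnion₂.2 ⟨p, List.mem_toFinset.2 hp, h4⟩)
          rw [h.apply_symm_apply] at h5
          have h6 := h'.injective h5
          rw [h6] at h4
          exact hx h4

/-- A diffeomorphism yields an isomorphism of the structures. -/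
theorem iso_of_diffeo {φ : ℕ → M → ℝ} {ψ : ℕ → N → ℝ} (hφ : IsEnum 𝒜 φ) (hψ : IsEnum ℬ ψ)
    (h : Diffeomorph 𝓘(ℝ, E n) 𝓘(ℝ, E n) M N ∞) :
    ∃ σ : ℕ ≃ ℕ, ∀ (m : ℕ) (D : Fin m → ℚ × ℚ) (v : Fin m → ℕ),
      MeetsBox φ D v ↔ MeetsBox ψ D (σ ∘ v) := by
  classical
  obtain ⟨σ, hσ⟩ := back_forth (Good 𝒜 ℬ φ ψ) ⟨by simp, h, by simp⟩ (fun s hs => hs.1)
    (fun s hs a => hs.forth hφ hψ a)
    (fun s hs b => by
      obtain ⟨a, ha⟩ := hs.swap.forth hψ hφ b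
      refine ⟨a, ?_⟩
      have := ha.swap
      simpa using this)
  refine ⟨σ, fun m D v => ?_⟩
  obtain ⟨s, ⟨-, k, hk⟩, hs⟩ := hσ (Finset.univ.image v)
  have key : ∀ i x, φ (v i) x = ψ (σ (v i)) (k x) := fun i x =>
    (hk _ (hs (v i) (Finset.mem_image_of_mem _ (Finset.mem_univ i)))).1 x
  constructor
  · rintro ⟨x, hx⟩
    refine ⟨k x, fun i => ?_⟩
    rw [Function.comp_apply, ← key]
    exact hx i
  · rintro ⟨y, hy⟩
    refine ⟨k.symm y, fun i => ?_⟩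
    rw [key, k.apply_symm_apply]
    exact hy i

/-- The structure theorem. -/
theorem diffeo_iff_iso {φ : ℕ → M → ℝ} {ψ : ℕ → N → ℝ} (hφ : IsEnum 𝒜 φ) (hψ : IsEnum ℬ ψ) :
    Nonempty (Diffeomorph 𝓘(ℝ, E n) 𝓘(ℝ, E n) M N ∞) ↔
    ∃ σ : ℕ ≃ ℕ, ∀ (m : ℕ) (D : Fin m → ℚ × ℚ) (v : Fin m → ℕ),
      MeetsBox φ D v ↔ MeetsBox ψ D (σ ∘ v) :=
  ⟨fun ⟨h⟩ => iso_of_diffeo hφ hψ h, fun ⟨σ, hσ⟩ => diffeo_of_iso hφ hψ σ hσ⟩

end MP7d75
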