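import Pool.Agent.MP_7d75c8_lc.Defs

/-!
# Countable function families and `𝓕`-atlases (internal machinery)
-/

open Set Filter Topology Metric Manifold
open scoped ContDiff

noncomputable section

namespace MP7d75

variable {n : ℕ}

/-- Coordinates of a vector valued map belong to `A`. -/
def VecIn {X : Type*} (A : Set (X → ℝ)) (g : X → E n) : Prop := ∀ i, (fun x => g x i) ∈ A

/-- A countable ring of smooth functions on `ℝⁿ` closed under composition and local inverses,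
containing the coordinates and many bump functions, and `C¹`-dense. -/
structure Fam (n : ℕ) where
  A : Subring (E n → ℝ)
  countable : (A : Set (E n → ℝ)).Countable
  smooth : ∀ f ∈ A, ContDiff ℝ ∞ f
  coord : ∀ i : Fin n, (fun x : E n => x i) ∈ A
  comp : ∀ f ∈ A, ∀ g : E n → E n, VecIn (A : Set (E n → ℝ)) g → (fun x => f (g x)) ∈ A
  dense : ∀ f : E n → ℝ, ContDiff ℝ ∞ f → ∀ R ε : ℝ, 0 < ε → ∃ p ∈ A,
    (∀ x ∈ closedBall (0 : E n) R, |p x - f x| ≤ ε) ∧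
    (∀ x ∈ closedBall (0 : E n) R, ∀ y ∈ closedBall (0 : E n) R,
      |(p x - f x) - (p y - f y)| ≤ ε * ‖x - y‖)
  bump : ∀ (a : ℕ) (r s : ℚ), 0 < r → r < s → ∃ β ∈ A, (∀ x, 0 ≤ β x ∧ β x ≤ 1) ∧
    (∀ x ∈ closedBall (TopologicalSpace.denseSeq (E n) a) r, β x = 1) ∧
    (∀ x, x ∉ ball (TopologicalSpace.denseSeq (E n) a) s → β x = 0)
  inv : ∀ g : E n → E n, VecIn (A : Set (E n → ℝ)) g → ∀ x, Function.Injective (fderiv ℝ g x) →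
    ∃ h : E n → E n, VecIn (A : Set (E n → ℝ)) h ∧ ∀ᶠ y in 𝓝 x, h (g y) = y

namespace Fam

variable (𝓕 : Fam n)

lemma vec_smooth {g : E n → E n} (hg : VecIn (𝓕.A : Set (E n → ℝ)) g) : ContDiff ℝ ∞ g := by
  rw [contDiff_euclidean]
  exact fun i => 𝓕.smooth _ (hg i)

end Fam

variable (𝓕 : Fam n) (M : Type*) [TopologicalSpace M] [ChartedSpace (E n) M]

/-- An atlas of smooth charts whose transition maps are locally in `𝓕`. -/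
structure FAtlas where
  w : ℕ → OpenPartialHomeomorph M (E n)
  mem : ∀ j, w j ∈ IsManifold.maximalAtlas 𝓘(ℝ, E n) ∞ M
  cover : ∀ x, ∃ j, x ∈ (w j).source
  compat : ∀ i j x, x ∈ (w i).source → x ∈ (w j).source →
    ∀ l, ∃ f ∈ 𝓕.A, ∀ᶠ z in 𝓝 x, w j z l = f (w i z)

variable {𝓕 M}

namespace FAtlas

variable (𝒜 : FAtlas 𝓕 M)

/-- `f` is locally an `𝓕`-function at `x`. -/
def LF (f : M → ℝ) (x : M) : Prop :=
  ∃ i, x ∈ (𝒜.w i).source ∧ ∃ g ∈ 𝓕.A, ∀ᶠ z in 𝓝 x, f z = g (𝒜.w i z)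

variable {𝒜}

lemma exists_vec {i j : ℕ} {x : M} (hi : x ∈ (𝒜.w i).source) (hj : x ∈ (𝒜.w j).source) :
    ∃ u : E n → E n, VecIn (𝓕.A : Set (E n → ℝ)) u ∧ ∀ᶠ z in 𝓝 x, 𝒜.w j z = u (𝒜.w i z) := by
  choose f hf hfe using 𝒜.compat i j x hi hj
  refine ⟨fun y => WithLp.toLp 2 (fun l => f l y), fun l => hf l, ?_⟩
  have := eventually_all.2 hfe
  filter_upwards [this] with z hz
  ext l
  simpa using hz l

lemma LF.exists_at {f : M → ℝ} {x : M} (h : 𝒜.LF f x) {j : ℕ} (hj : x ∈ (𝒜.w j).source) :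
    ∃ g ∈ 𝓕.A, ∀ᶠ z in 𝓝 x, f z = g (𝒜.w j z) := by
  obtain ⟨i, hi, g, hg, hfg⟩ := h
  obtain ⟨u, hu, hue⟩ := exists_vec hj hi
  refine ⟨fun y => g (u y), 𝓕.comp g hg u hu, ?_⟩
  filter_upwards [hfg, hue] with z h1 h2
  rw [h1, h2]

lemma lf_of_chart {f : M → ℝ} {x : M} {j : ℕ} (hj : x ∈ (𝒜.w j).source) {g : E n → ℝ}
    (hg : g ∈ 𝓕.A) (h : ∀ᶠ z in 𝓝 x, f z = g (𝒜.w j z)) : 𝒜.LF f x := ⟨j, hj, g, hg, h⟩

lemma LF.congr {f g : M → ℝ} {x : M} (h : 𝒜.LF f x) (hfg : ∀ᶠ z in 𝓝 x, g z = f z) :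
    𝒜.LF g x := by
  obtain ⟨i, hi, p, hp, hpe⟩ := h
  refine ⟨i, hi, p, hp, ?_⟩
  filter_upwards [hpe, hfg] with z h1 h2
  rw [h2, h1]

lemma LF.add {f g : M → ℝ} {x : M} (hf : 𝒜.LF f x) (hg : 𝒜.LF g x) :
    𝒜.LF (fun z => f z + g z) x := by
  obtain ⟨i, hi, p, hp, hpe⟩ := hf
  obtain ⟨q, hq, hqe⟩ := hg.exists_at hi
  refine ⟨i, hi, p + q, 𝓕.A.add_mem hp hq, ?_⟩
  filter_upwards [hpe, hqe] with z h1 h2
  simp [h1, h2]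

lemma LF.mul {f g : M → ℝ} {x : M} (hf : 𝒜.LF f x) (hg : 𝒜.LF g x) :
    𝒜.LF (fun z => f z * g z) x := by
  obtain ⟨i, hi, p, hp, hpe⟩ := hf
  obtain ⟨q, hq, hqe⟩ := hg.exists_at hi
  refine ⟨i, hi, p * q, 𝓕.A.mul_mem hp hq, ?_⟩
  filter_upwards [hpe, hqe] with z h1 h2
  simp [h1, h2]

lemma LF.neg {f : M → ℝ} {x : M} (hf : 𝒜.LF f x) : 𝒜.LF (fun z => - f z) x := by
  obtain ⟨i, hi, p, hp, hpe⟩ := hf
  refine ⟨i, hi, -p, 𝓕.A.neg_mem hp, ?_⟩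
  filter_upwards [hpe] with z h1
  simp [h1]

lemma LF.sub {f g : M → ℝ} {x : M} (hf : 𝒜.LF f x) (hg : 𝒜.LF g x) :
    𝒜.LF (fun z => f z - g z) x := by
  simpa [sub_eq_add_neg] using hf.add hg.neg

lemma lf_zero (x : M) : 𝒜.LF (fun _ => 0) x := by
  obtain ⟨j, hj⟩ := 𝒜.cover x
  exact ⟨j, hj, 0, 𝓕.A.zero_mem, by simp⟩

lemma lf_one (x : M) : 𝒜.LF (fun _ => 1) x := by
  obtain ⟨j, hj⟩ := 𝒜.cover x
  exact ⟨j, hj, 1, 𝓕.A.one_mem, by simp⟩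

lemma LF.eventually {f : M → ℝ} {x : M} (hf : 𝒜.LF f x) : ∀ᶠ y in 𝓝 x, 𝒜.LF f y := by
  obtain ⟨i, hi, p, hp, hpe⟩ := hf
  filter_upwards [hpe.eventually_nhds, (𝒜.w i).open_source.mem_nhds hi] with y hy hy'
  exact ⟨i, hy', p, hp, hy⟩

lemma LF.contMDiffAt {f : M → ℝ} {x : M} (hf : 𝒜.LF f x) :
    ContMDiffAt 𝓘(ℝ, E n) 𝓘(ℝ, ℝ) ∞ f x := by
  obtain ⟨i, hi, p, hp, hpe⟩ := hf
  have h1 : ContMDiffAt 𝓘(ℝ, E n) 𝓘(ℝ, E n) ∞ (𝒜.w i) x :=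
    contMDiffAt_of_mem_maximalAtlas (𝒜.mem i) hi
  have h2 : ContMDiffAt 𝓘(ℝ, E n) 𝓘(ℝ, ℝ) ∞ (fun z => p (𝒜.w i z)) x :=
    ((𝓕.smooth p hp).contMDiff.contMDiffAt).comp x h1
  exact h2.congr_of_eventuallyEq hpe

lemma LF.continuousAt {f : M → ℝ} {x : M} (hf : 𝒜.LF f x) : ContinuousAt f x :=
  hf.contMDiffAt.continuousAt

end FAtlas

end MP7d75
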