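import Pool.Agent.MP_7d75c8_lc.Basic

/-!
# Extension by zero and locally-`𝓕` bump functions
-/

open Set Filter Topology Metric Manifold
open scoped ContDiff

noncomputable section

namespace MP7d75

variable {n : ℕ} {𝓕 : Fam n} {M : Type*} [TopologicalSpace M] [ChartedSpace (E n) M]

/-- Extension by zero of a function given in a chart. -/
def ext0 {V : Type*} [Zero V] (e : OpenPartialHomeomorph M (E n)) (g : E n → V) (z : M) : V :=
  open Classical in if z ∈ e.source then g (e z) else 0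

lemma ext0_of_mem {V : Type*} [Zero V] {e : OpenPartialHomeomorph M (E n)} {g : E n → V} {z : M}
    (hz : z ∈ e.source) : ext0 e g z = g (e z) := by simp [ext0, hz]

lemma ext0_of_notMem {V : Type*} [Zero V] {e : OpenPartialHomeomorph M (E n)} {g : E n → V}
    {z : M} (hz : z ∉ e.source) : ext0 e g z = 0 := by simp [ext0, hz]

lemma isCompact_symm_image {e : OpenPartialHomeomorph M (E n)} {C : Set (E n)}
    (hC : IsCompact C) (hCt : C ⊆ e.target) : IsCompact (e.symm '' C) :=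
  hC.image_of_continuousOn (e.continuousOn_symm.mono hCt)

lemma isCompact_image {e : OpenPartialHomeomorph M (E n)} {C : Set M}
    (hC : IsCompact C) (hCt : C ⊆ e.source) : IsCompact (e '' C) :=
  hC.image_of_continuousOn (e.continuousOn.mono hCt)

lemma ext0_support {V : Type*} [Zero V] {e : OpenPartialHomeomorph M (E n)} {g : E n → V}
    {C : Set (E n)} (hg : ∀ y ∈ e.target, y ∉ C → g y = 0) :
    Function.support (ext0 e g) ⊆ e.symm '' C := by
  intro z hz
  by_cases hs : z ∈ e.source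
  · rw [Function.mem_support, ext0_of_mem hs] at hz
    by_contra hcon
    apply hz
    apply hg _ (e.map_source hs)
    intro hC
    exact hcon ⟨e z, hC, e.left_inv hs⟩
  · exact absurd (ext0_of_notMem hs) hz

section T2
variable [T2Space M]

lemma ext0_tsupport {V : Type*} [Zero V] {e : OpenPartialHomeomorph M (E n)} {g : E n → V}
    {C : Set (E n)} (hC : IsCompact C) (hCt : C ⊆ e.target)
    (hg : ∀ y ∈ e.target, y ∉ C → g y = 0) :
    tsupport (ext0 e g) ⊆ e.symm '' C :=
  closure_minimal (ext0_support hg) (isCompact_symm_image hC hCt).isClosed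

lemma ext0_hasCompactSupport {V : Type*} [Zero V] {e : OpenPartialHomeomorph M (E n)}
    {g : E n → V} {C : Set (E n)} (hC : IsCompact C) (hCt : C ⊆ e.target)
    (hg : ∀ y ∈ e.target, y ∉ C → g y = 0) :
    HasCompactSupport (ext0 e g) :=
  HasCompactSupport.intro (isCompact_symm_image hC hCt) fun z hz => by
    by_contra h
    exact hz (ext0_support hg h)

lemma ext0_eventually_zero {V : Type*} [Zero V] {e : OpenPartialHomeomorph M (E n)} {g : E n → V}
    {C : Set (E n)} (hC : IsCompact C) (hCt : C ⊆ e.target)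
    (hg : ∀ y ∈ e.target, y ∉ C → g y = 0) {z : M} (hz : z ∉ e.symm '' C) :
    ∀ᶠ z' in 𝓝 z, ext0 e g z' = 0 := by
  filter_upwards [(isCompact_symm_image hC hCt).isClosed.isOpen_compl.mem_nhds hz] with z' hz'
  by_contra h
  exact hz' (ext0_support hg h)

variable {𝒜 : FAtlas 𝓕 M}

lemma ext0_lf {j : ℕ} {g : E n → ℝ} {C : Set (E n)} (hC : IsCompact C)
    (hCt : C ⊆ (𝒜.w j).target) (hg : ∀ y ∈ (𝒜.w j).target, y ∉ C → g y = 0)
    (hA : ∀ y ∈ (𝒜.w j).target, ∃ p ∈ 𝓕.A, ∀ᶠ y' in 𝓝 y, g y' = p y') (x : M) :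
    𝒜.LF (ext0 (𝒜.w j) g) x := by
  by_cases hx : x ∈ (𝒜.w j).source
  · obtain ⟨p, hp, hpe⟩ := hA _ ((𝒜.w j).map_source hx)
    refine ⟨j, hx, p, hp, ?_⟩
    have h1 := ((𝒜.w j).continuousAt hx).eventually hpe
    filter_upwards [h1, (𝒜.w j).open_source.mem_nhds hx] with z h2 h3
    rw [ext0_of_mem h3, h2]
  · refine (FAtlas.lf_zero x).congr (ext0_eventually_zero hC hCt hg ?_)
    rintro ⟨y, hy, rfl⟩
    exact hx ((𝒜.w j).map_target (hCt hy))

/-- local bump -/
lemma exists_lf_bump_at (𝒜 : FAtlas 𝓕 M) {x : M} {U : Set M} (hU : U ∈ 𝓝 x) :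
    ∃ β : M → ℝ, (∀ z, 𝒜.LF β z) ∧ (∀ z, 0 ≤ β z ∧ β z ≤ 1) ∧ (∀ᶠ z in 𝓝 x, β z = 1) ∧
      HasCompactSupport β ∧ tsupport β ⊆ U := by
  obtain ⟨j, hj⟩ := 𝒜.cover x
  set e := 𝒜.w j with he
  have hW : e.target ∩ e.symm ⁻¹' U ∈ 𝓝 (e x) := by
    apply inter_mem (e.open_target.mem_nhds (e.map_source hj))
    have := (e.symm.continuousAt (e.map_source hj)).preimage_mem_nhds
      (t := U) (by simpa [e.left_inv hj] using hU)
    exact this
  obtain ⟨δ, hδ, hball⟩ := Metric.mem_nhds_iff.1 hW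
  -- rational radii
  obtain ⟨s, hs1, hs2⟩ := exists_rat_btwn (show δ / 4 < δ / 2 by linarith)
  obtain ⟨r, hr1, hr2⟩ := exists_rat_btwn (show δ / 8 < δ / 4 by linarith)
  have hr0 : (0:ℝ) < r := by linarith
  have hrs : (r:ℝ) < s := by linarith
  obtain ⟨a, ha⟩ := (TopologicalSpace.denseRange_denseSeq (E n)).exists_dist_lt (e x)
    (show (0:ℝ) < δ / 8 by linarith)
  obtain ⟨β, hβA, hβ01, hβ1, hβ0⟩ := 𝓕.bump a r s (by exact_mod_cast hr0) (by exact_mod_cast hrs)
  set c := TopologicalSpace.denseSeq (E n) a with hc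
  have hsub : closedBall c s ⊆ ball (e x) δ := by
    intro y hy
    rw [mem_closedBall] at hy
    rw [mem_ball]
    calc dist y (e x) ≤ dist y c + dist c (e x) := dist_triangle _ _ _
      _ < δ := by rw [dist_comm c]; linarith
  have hCt : closedBall c s ⊆ e.target := fun y hy => (hball (hsub hy)).1
  have hg : ∀ y ∈ e.target, y ∉ closedBall c (s:ℝ) → β y = 0 := by
    intro y _ hy
    apply hβ0
    intro h
    exact hy (ball_subset_closedBall h)
  refine ⟨ext0 e β, ?_, ?_, ?_, ?_, ?_⟩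
  · intro z
    exact ext0_lf (isCompact_closedBall _ _) hCt hg (fun y _ => ⟨β, hβA, by simp⟩) z
  · intro z
    by_cases hz : z ∈ e.source
    · rw [ext0_of_mem hz]; exact hβ01 _
    · rw [ext0_of_notMem hz]; simp
  · have h1 : ball c (r:ℝ) ∈ 𝓝 (e x) := by
      apply isOpen_ball.mem_nhds
      rw [mem_ball]; linarith
    filter_upwards [(e.continuousAt hj).preimage_mem_nhds h1, e.open_source.mem_nhds hj]
      with z hz1 hz2
    rw [ext0_of_mem hz2]
    exact hβ1 _ (ball_subset_closedBall hz1)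
  · exact ext0_hasCompactSupport (isCompact_closedBall _ _) hCt hg
  · refine (ext0_tsupport (isCompact_closedBall _ _) hCt hg).trans ?_
    rintro _ ⟨y, hy, rfl⟩
    exact (hball (hsub hy)).2

/-- bump functions for a compact set in an open set -/
lemma exists_lf_bump (𝒜 : FAtlas 𝓕 M) {K U : Set M} (hK : IsCompact K) (hU : IsOpen U)
    (hKU : K ⊆ U) :
    ∃ β : M → ℝ, (∀ z, 𝒜.LF β z) ∧ (∀ z, 0 ≤ β z ∧ β z ≤ 1) ∧
      (∀ x ∈ K, ∀ᶠ z in 𝓝 x, β z = 1) ∧ HasCompactSupport β ∧ tsupport β ⊆ U := by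
  refine hK.induction_on (p := fun K' => ∃ β : M → ℝ, (∀ z, 𝒜.LF β z) ∧
    (∀ z, 0 ≤ β z ∧ β z ≤ 1) ∧ (∀ x ∈ K', ∀ᶠ z in 𝓝 x, β z = 1) ∧ HasCompactSupport β ∧
      tsupport β ⊆ U) ?_ ?_ ?_ ?_
  · refine ⟨fun _ => 0, fun z => FAtlas.lf_zero z, by simp, by simp, HasCompactSupport.zero, ?_⟩
    have : tsupport (fun _ : M => (0:ℝ)) = ∅ := by
      rw [tsupport_eq_empty_iff]; rfl
    rw [this]; simp
  · rintro s t hst ⟨β, h1, h2, h3, h4⟩
    exact ⟨β, h1, h2, fun x hx => h3 x (hst hx), h4⟩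
  · rintro s t ⟨β, h1, h2, h3, h4, h5⟩ ⟨γ, g1, g2, g3, g4, g5⟩
    refine ⟨fun z => β z + γ z - β z * γ z, ?_, ?_, ?_, ?_, ?_⟩
    · intro z
      exact ((h1 z).add (g1 z)).sub ((h1 z).mul (g1 z))
    · intro z
      obtain ⟨a1, a2⟩ := h2 z
      obtain ⟨b1, b2⟩ := g2 z
      constructor
      · nlinarith
      · nlinarith
    · rintro x (hx | hx)
      · filter_upwards [h3 x hx] with z hz
        rw [hz]; ring
      · filter_upwards [g3 x hx] with z hz
        rw [hz]; ring
    · have : HasCompactSupport (fun z => β z + γ z) := h4.add g4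
      have h' : HasCompactSupport (fun z => β z * γ z) := h4.mul_right
      exact this.sub h'
    · have : tsupport (fun z => β z + γ z - β z * γ z) ⊆ tsupport β ∪ tsupport γ := by
        rw [tsupport, tsupport, tsupport, ← closure_union]
        apply closure_mono
        intro z hz
        by_contra hcon
        simp only [mem_union, Function.mem_support, not_or, not_not] at hcon
        apply hz
        simp [hcon.1, hcon.2]
      exact this.trans (union_subset h5 g5)
  · intro x hx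
    obtain ⟨β, h1, h2, h3, h4, h5⟩ := exists_lf_bump_at 𝒜 (hU.mem_nhds (hKU hx))
    exact ⟨{z | ∀ᶠ z' in 𝓝 z, β z' = 1}, mem_nhdsWithin_of_mem_nhds (h3.eventually_nhds),
      β, h1, h2, fun z hz => hz, h4, h5⟩

end T2

end MP7d75
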