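import Pool.Agent.MP_7d75c8_lc.IsoToDiffeo

/-!
# Enumeration of the compactly supported locally-`𝓕` functions
-/

open Set Filter Topology Metric Manifold
open scoped ContDiff

noncomputable section

namespace MP7d75

variable {n : ℕ}

/-- compactly supported functions on `ℝⁿ` that are locally in `𝓕` -/
def Fam.Ac (𝓕 : Fam n) : Set (E n → ℝ) :=
  {f | HasCompactSupport f ∧ ∀ y, ∃ p ∈ 𝓕.A, ∀ᶠ y' in 𝓝 y, f y' = p y'}

lemma Fam.exists_ge (𝓕 : Fam n) : ∃ ge : ℕ → E n → ℝ, (𝓕.A : Set (E n → ℝ)) = range ge :=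
  𝓕.countable.exists_eq_range ⟨0, 𝓕.A.zero_mem⟩

lemma exists_small_ball {y : E n} {U : Set (E n)} (hU : U ∈ 𝓝 y) :
    ∃ a b : ℕ, y ∈ ball (TopologicalSpace.denseSeq (E n) a) (1 / ((b:ℝ) + 1)) ∧
      ball (TopologicalSpace.denseSeq (E n) a) (1 / ((b:ℝ) + 1)) ⊆ U := by
  obtain ⟨δ, hδ, hball⟩ := Metric.mem_nhds_iff.1 hU
  obtain ⟨b, hb⟩ := exists_nat_one_div_lt (show (0:ℝ) < δ / 2 by linarith)
  have hr0 : (0:ℝ) < 1 / ((b:ℝ) + 1) := by positivity
  obtain ⟨a, ha⟩ := (TopologicalSpace.denseRange_denseSeq (E n)).exists_dist_lt y hr0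
  refine ⟨a, b, ha, fun z hz => hball ?_⟩
  rw [mem_ball] at hz ⊢
  have := dist_triangle z (TopologicalSpace.denseSeq (E n) a) y
  rw [dist_comm (TopologicalSpace.denseSeq (E n) a) y] at this
  linarith

lemma Fam.countable_Ac (𝓕 : Fam n) : 𝓕.Ac.Countable := by
  classical
  obtain ⟨ge, hge⟩ := 𝓕.exists_ge
  have hex : ∀ f ∈ 𝓕.Ac, ∃ s : Finset (ℕ × ℕ × ℕ),
      (∀ t ∈ s, ∀ y ∈ ball (TopologicalSpace.denseSeq (E n) t.1) (1 / ((t.2.1:ℝ) + 1)),
        f y = ge t.2.2 y) ∧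
      ∀ y, (∀ t ∈ s, y ∉ ball (TopologicalSpace.denseSeq (E n) t.1) (1 / ((t.2.1:ℝ) + 1))) →
        f y = 0 := by
    rintro f ⟨hfc, hf⟩
    have h1 : ∀ y : E n, ∃ t : ℕ × ℕ × ℕ,
        y ∈ ball (TopologicalSpace.denseSeq (E n) t.1) (1 / ((t.2.1:ℝ) + 1)) ∧
        ∀ z ∈ ball (TopologicalSpace.denseSeq (E n) t.1) (1 / ((t.2.1:ℝ) + 1)),
          f z = ge t.2.2 z := by
      intro y
      obtain ⟨p, hp, hpe⟩ := hf y
      have : p ∈ range ge := by rw [← hge]; exact hp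
      obtain ⟨m, rfl⟩ := this
      obtain ⟨a, b, h1, h2⟩ := exists_small_ball hpe
      exact ⟨(a, b, m), h1, fun z hz => h2 hz⟩
    choose t ht1 ht2 using h1
    obtain ⟨u, -, hu⟩ := hfc.elim_nhds_subcover
      (fun y => ball (TopologicalSpace.denseSeq (E n) (t y).1) (1 / (((t y).2.1:ℝ) + 1)))
      (fun y _ => isOpen_ball.mem_nhds (ht1 y))
    refine ⟨u.image t, ?_, ?_⟩
    · intro s hs y hy
      obtain ⟨x, _, rfl⟩ := Finset.mem_image.1 hs
      exact ht2 x y hy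
    · intro y hy
      by_contra hne
      have hy' : y ∈ tsupport f := subset_tsupport _ hne
      obtain ⟨x, hx, hxy⟩ := mem_iUnion₂.1 (hu hy')
      exact hy _ (Finset.mem_image_of_mem _ hx) hxy
  choose! s hs1 hs2 using hex
  refine Set.MapsTo.countable_of_injOn (t := univ) (f := s) (fun _ _ => mem_univ _) ?_
    (Set.to_countable _)
  intro f hf g hg hfg
  ext y
  by_cases hy : ∃ t ∈ s f, y ∈ ball (TopologicalSpace.denseSeq (E n) t.1) (1 / ((t.2.1:ℝ) + 1))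
  · obtain ⟨t, ht, hty⟩ := hy
    rw [hs1 f hf t ht y hty, hs1 g hg t (hfg ▸ ht) y hty]
  · push Not at hy
    rw [hs2 f hf y hy, hs2 g hg y (hfg ▸ hy)]

lemma Fam.exists_fc (𝓕 : Fam n) : ∃ fc : ℕ → E n → ℝ, 𝓕.Ac = range fc :=
  𝓕.countable_Ac.exists_eq_range ⟨fun _ => 0, HasCompactSupport.zero,
    fun _ => ⟨0, 𝓕.A.zero_mem, by simp⟩⟩

/-- enumeration of `Ac` -/
def Fam.fc (𝓕 : Fam n) : ℕ → E n → ℝ := 𝓕.exists_fc.choose

lemma Fam.fc_mem (𝓕 : Fam n) (m : ℕ) : 𝓕.fc m ∈ 𝓕.Ac := by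
  rw [𝓕.exists_fc.choose_spec]; exact ⟨m, rfl⟩

lemma Fam.fc_surj (𝓕 : Fam n) {f : E n → ℝ} (hf : f ∈ 𝓕.Ac) : ∃ m, 𝓕.fc m = f := by
  rw [𝓕.exists_fc.choose_spec] at hf; exact hf

lemma Fam.fc_continuous (𝓕 : Fam n) (m : ℕ) : Continuous (𝓕.fc m) := by
  rw [continuous_iff_continuousAt]
  intro y
  obtain ⟨p, hp, hpe⟩ := (𝓕.fc_mem m).2 y
  exact (𝓕.smooth p hp).continuous.continuousAt.congr (hpe.mono fun z hz => hz.symm)

variable {𝓕 : Fam n} {M : Type*} [TopologicalSpace M] [ChartedSpace (E n) M]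

/-- the list coded by a natural number -/
def lst (a : ℕ) : List (ℕ × ℕ) := Denumerable.ofNat (List (ℕ × ℕ)) a

/-- basic compactly supported functions -/
def basic (𝒜 : FAtlas 𝓕 M) (T : ℕ → Set (E n)) (p : ℕ × ℕ) (z : M) : ℝ :=
  open Classical in if tsupport (𝓕.fc p.2) ⊆ T p.1 then ext0 (𝒜.w p.1) (𝓕.fc p.2) z else 0

/-- sums of basic functions over a list -/
def sumL (𝒜 : FAtlas 𝓕 M) (T : ℕ → Set (E n)) (l : List (ℕ × ℕ)) (z : M) : ℝ :=
  (l.map (fun p => basic 𝒜 T p z)).sum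

/-- the enumeration -/
def phi (𝒜 : FAtlas 𝓕 M) (T : ℕ → Set (E n)) (a : ℕ) (z : M) : ℝ := sumL 𝒜 T (lst a) z

variable {𝒜 : FAtlas 𝓕 M} {T : ℕ → Set (E n)}

lemma sumL_nil (z : M) : sumL 𝒜 T [] z = 0 := by simp [sumL]

lemma sumL_cons (p : ℕ × ℕ) (l : List (ℕ × ℕ)) (z : M) :
    sumL 𝒜 T (p :: l) z = basic 𝒜 T p z + sumL 𝒜 T l z := by simp [sumL]

lemma sumL_append (l l' : List (ℕ × ℕ)) (z : M) :
    sumL 𝒜 T (l ++ l') z = sumL 𝒜 T l z + sumL 𝒜 T l' z := by simp [sumL]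

variable [T2Space M]

/-- hypothesis on the targets -/
def TgtHyp (𝒜 : FAtlas 𝓕 M) (T : ℕ → Set (E n)) : Prop :=
  ∀ j, (𝒜.w j).source = ∅ ∨ (𝒜.w j).target = T j

lemma basic_LFc (hT : TgtHyp 𝒜 T) (p : ℕ × ℕ) : LFc 𝒜 (basic 𝒜 T p) := by
  have hzero : LFc 𝒜 (fun _ : M => (0:ℝ)) := ⟨HasCompactSupport.zero, fun x => FAtlas.lf_zero x⟩
  by_cases hs : tsupport (𝓕.fc p.2) ⊆ T p.1
  · have hb : basic 𝒜 T p = ext0 (𝒜.w p.1) (𝓕.fc p.2) := by
      ext z; simp [basic, hs]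
    rcases hT p.1 with h | h
    · have : basic 𝒜 T p = fun _ => 0 := by
        rw [hb]; ext z
        exact ext0_of_notMem (by rw [h]; exact notMem_empty z)
      rw [this]; exact hzero
    · have hC : IsCompact (tsupport (𝓕.fc p.2)) := (𝓕.fc_mem p.2).1
      have hCt : tsupport (𝓕.fc p.2) ⊆ (𝒜.w p.1).target := by rw [h]; exact hs
      have h0 : ∀ y ∈ (𝒜.w p.1).target, y ∉ tsupport (𝓕.fc p.2) → 𝓕.fc p.2 y = 0 :=
        fun y _ hy => image_eq_zero_of_notMem_tsupport hy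
      rw [hb]
      exact ⟨ext0_hasCompactSupport hC hCt h0,
        fun x => ext0_lf hC hCt h0 (fun y _ => (𝓕.fc_mem p.2).2 y) x⟩
  · have : basic 𝒜 T p = fun _ => 0 := by ext z; simp [basic, hs]
    rw [this]; exact hzero

lemma sumL_LFc (hT : TgtHyp 𝒜 T) (l : List (ℕ × ℕ)) : LFc 𝒜 (sumL 𝒜 T l) := by
  induction l with
  | nil =>
    have : sumL 𝒜 T [] = fun _ => 0 := by ext z; exact sumL_nil z
    rw [this]
    exact ⟨HasCompactSupport.zero, fun x => FAtlas.lf_zero x⟩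
  | cons p l ih =>
    have : sumL 𝒜 T (p :: l) = fun z => basic 𝒜 T p z + sumL 𝒜 T l z := by
      ext z; exact sumL_cons p l z
    rw [this]
    exact ⟨(basic_LFc hT p).1.add ih.1, fun x => ((basic_LFc hT p).2 x).add (ih.2 x)⟩

/-- a compactly supported locally-`𝓕` function supported in one chart is basic -/
lemma exists_basic (hT : TgtHyp 𝒜 T) {j : ℕ} {f : M → ℝ} (hf : ∀ x, 𝒜.LF f x) {C : Set M}
    (hC : IsCompact C) (hCj : C ⊆ (𝒜.w j).source) (h0 : ∀ z, z ∉ C → f z = 0) :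
    ∃ m, basic 𝒜 T (j, m) = f := by
  classical
  by_cases hCe : C = ∅
  · -- `f = 0`
    have hf0 : f = fun _ => 0 := by ext z; exact h0 z (by rw [hCe]; exact notMem_empty z)
    obtain ⟨m, hm⟩ := 𝓕.fc_surj (f := fun _ => 0) ⟨HasCompactSupport.zero,
      fun _ => ⟨0, 𝓕.A.zero_mem, by simp⟩⟩
    refine ⟨m, ?_⟩
    ext z
    simp only [basic, hm, hf0]
    split_ifs
    · by_cases hz : z ∈ (𝒜.w j).source
      · exact ext0_of_mem hz
      · exact ext0_of_notMem hz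
    · rfl
  have htgt : (𝒜.w j).target = T j := by
    rcases hT j with h | h
    · exfalso
      apply hCe
      rw [h] at hCj
      exact subset_empty_iff.1 hCj
    · exact h
  set w := 𝒜.w j with hw
  set g : E n → ℝ := fun y => if y ∈ w.target then f (w.symm y) else 0 with hg
  have hCc : IsCompact (w '' C) := isCompact_image hC hCj
  have hCt : w '' C ⊆ w.target := by
    rintro _ ⟨z, hz, rfl⟩; exact w.map_source (hCj hz)
  have hg0 : ∀ y, y ∉ w '' C → g y = 0 := by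
    intro y hy
    simp only [hg]
    split_ifs with hyt
    · apply h0
      intro h
      exact hy ⟨_, h, w.right_inv hyt⟩
    · rfl
  have hgA : g ∈ 𝓕.Ac := by
    refine ⟨HasCompactSupport.intro hCc hg0, fun y => ?_⟩
    by_cases hy : y ∈ w.target
    · obtain ⟨p, hp, hpe⟩ := (hf (w.symm y)).exists_at (w.map_target hy)
      refine ⟨p, hp, ?_⟩
      have h1 := (w.symm.continuousAt hy).eventually hpe
      filter_upwards [h1, w.open_target.mem_nhds hy] with y' h2 h3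
      simp only [hg, h3, if_true]
      rw [h2, ← hw, w.right_inv h3]
    · refine ⟨0, 𝓕.A.zero_mem, ?_⟩
      filter_upwards [hCc.isClosed.isOpen_compl.mem_nhds (fun h => hy (hCt h))] with y' hy'
      exact hg0 y' hy'
  obtain ⟨m, hm⟩ := 𝓕.fc_surj hgA
  refine ⟨m, ?_⟩
  have hts : tsupport g ⊆ w '' C := by
    apply closure_minimal _ hCc.isClosed
    intro y hy
    by_contra h
    exact hy (hg0 y h)
  ext z
  simp only [basic, hm]
  rw [if_pos (hts.trans (by rw [← htgt]; exact hCt))]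
  by_cases hz : z ∈ w.source
  · rw [ext0_of_mem hz]
    simp only [hg, w.map_source hz, if_true]
    rw [w.left_inv hz]
  · rw [ext0_of_notMem hz, h0 z (fun h => hz (hCj h))]

/-- every compactly supported locally-`𝓕` function is a sum of basic functions -/
lemma exists_list (hT : TgtHyp 𝒜 T) {f : M → ℝ} (hf : LFc 𝒜 f) : ∃ l, sumL 𝒜 T l = f := by
  have key : ∃ μ : M → ℝ, (∀ z, 𝒜.LF μ z) ∧ (∀ z ∈ tsupport f, μ z = 1) ∧
      ∀ g : M → ℝ, (∀ z, 𝒜.LF g z) → ∃ l, sumL 𝒜 T l = fun z => μ z * g z := by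
    refine IsCompact.induction_on (hf.1 : IsCompact (tsupport f)) (p := fun S => ∃ μ : M → ℝ,
      (∀ z, 𝒜.LF μ z) ∧ (∀ z ∈ S, μ z = 1) ∧
      ∀ g : M → ℝ, (∀ z, 𝒜.LF g z) → ∃ l, sumL 𝒜 T l = fun z => μ z * g z) ?_ ?_ ?_ ?_
    · refine ⟨fun _ => 0, fun x => FAtlas.lf_zero x, by simp, fun g _ => ⟨[], ?_⟩⟩
      ext z; simp [sumL_nil]
    · rintro S S' hSS' ⟨μ, h1, h2, h3⟩
      exact ⟨μ, h1, fun z hz => h2 z (hSS' hz), h3⟩
    · rintro S S' ⟨μ, h1, h2, h3⟩ ⟨ν, g1, g2, g3⟩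
      refine ⟨fun z => μ z + ν z - μ z * ν z,
        fun z => ((h1 z).add (g1 z)).sub ((h1 z).mul (g1 z)), ?_, ?_⟩
      · rintro z (hz | hz)
        · simp only [h2 z hz]; ring
        · simp only [g2 z hz]; ring
      · intro g hg
        obtain ⟨l, hl⟩ := h3 g hg
        obtain ⟨l', hl'⟩ := g3 (fun z => (1 - μ z) * g z)
          (fun z => ((FAtlas.lf_one z).sub (h1 z)).mul (hg z))
        refine ⟨l ++ l', ?_⟩
        ext z
        rw [sumL_append, congrFun hl z, congrFun hl' z]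
        ring
    · intro x _
      obtain ⟨j, hj⟩ := 𝒜.cover x
      obtain ⟨β, h1, h2, h3, h4, h5⟩ :=
        exists_lf_bump_at 𝒜 ((𝒜.w j).open_source.mem_nhds hj)
      refine ⟨{z | β z = 1}, mem_nhdsWithin_of_mem_nhds h3, β, h1, fun z hz => hz, ?_⟩
      intro g hg
      obtain ⟨m, hm⟩ := exists_basic hT (j := j) (f := fun z => β z * g z)
        (fun z => (h1 z).mul (hg z)) h4 h5
        (fun z hz => by
          show β z * g z = 0
          rw [image_eq_zero_of_notMem_tsupport hz, zero_mul])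
      refine ⟨[(j, m)], ?_⟩
      ext z
      rw [sumL_cons, sumL_nil, congrFun hm z, add_zero]
  obtain ⟨μ, -, h2, h3⟩ := key
  obtain ⟨l, hl⟩ := h3 f hf.2
  refine ⟨l, ?_⟩
  rw [hl]
  ext z
  by_cases hz : z ∈ tsupport f
  · rw [h2 z hz, one_mul]
  · rw [image_eq_zero_of_notMem_tsupport hz, mul_zero]

/-- The enumeration property. -/
theorem isEnum_phi (hT : TgtHyp 𝒜 T) : IsEnum 𝒜 (phi 𝒜 T) := by
  refine ⟨fun a => sumL_LFc hT (lst a), fun f hf => ?_⟩
  obtain ⟨l, hl⟩ := exists_list hT hf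
  obtain ⟨m, hm⟩ := 𝓕.fc_surj (f := fun _ => 0) ⟨HasCompactSupport.zero,
      fun _ => ⟨0, 𝓕.A.zero_mem, by simp⟩⟩
  have hb0 : ∀ z, basic 𝒜 T (0, m) z = 0 := by
    intro z
    simp only [basic, hm]
    split_ifs
    · by_cases hz : z ∈ (𝒜.w 0).source
      · exact ext0_of_mem hz
      · exact ext0_of_notMem hz
    · rfl
  have hrep : ∀ k : ℕ, sumL 𝒜 T (List.replicate k (0, m) ++ l) = f := by
    intro k
    rw [← hl]
    induction k with
    | zero => simp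
    | succ k ih =>
      ext z
      rw [List.replicate_succ, List.cons_append, sumL_cons, hb0, zero_add, congrFun ih z]
  refine Set.infinite_of_injective_forall_mem
    (f := fun k : ℕ => Encodable.encode (List.replicate k ((0, m) : ℕ × ℕ) ++ l)) ?_ ?_
  · intro k k' hkk
    have h1 := Encodable.encode_injective hkk
    have h2 := congrArg List.length h1
    simpa using h2
  · intro k
    show phi 𝒜 T _ = f
    ext z
    simp only [phi, lst, Denumerable.ofNat_encode]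
    exact congrFun (hrep k) z

end MP7d75
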