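import Pool.Agent.MP_7d75c8_lc.Meas
import Pool.Agent.MP_7d75c8_lc.Atlas3
import Pool.Agent.MP_7d75c8_lc.Enum
import Pool.Agent.MP_7d75c8_lc.BackForth

/-!
# The reduction
-/

open Set Filter Topology Metric MeasureTheory Manifold
open scoped ContDiff

noncomputable section

namespace MP7d75

variable {n : ℕ} (𝓕 : Fam n)

/-- basic functions in coordinates of chart `k` -/
def basicHat (c : GluingData n) (p : ℕ × ℕ) (k : ℕ) (y : E n) : ℝ :=
  open Classical in
  if tsupport (𝓕.fc p.2) ⊆ ball (qq p.1 : E n) (rr p.1) ∧ valid c p.1 ∧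
    y ∈ c.gdom k (kk p.1) ∧ c.glue k (kk p.1) y ∈ ball (qq p.1 : E n) (2 * rr p.1)
  then 𝓕.fc p.2 (vch 𝓕 c p.1 (c.glue k (kk p.1) y)) else 0

/-- the functions `phi` in coordinates of chart `k` -/
def phiHat (c : GluingData n) (a : ℕ) (k : ℕ) (y : E n) : ℝ :=
  ((lst a).map (fun p => basicHat 𝓕 c p k y)).sum

section meas
variable {X : Type*} [MeasurableSpace X] {c : X → GluingData n}

lemma meas_basicHat (hc : MeasCode c) (p : ℕ × ℕ) (k : ℕ) (y : E n) :
    Measurable fun x => basicHat 𝓕 (c x) p k y := by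
  classical
  have hg := hc.eval k (kk p.1) y
  have hgd : MeasurableSet {x | y ∈ (c x).gdom k (kk p.1)} := by
    have h1 : Measurable fun x : X => (x, y) := measurable_id.prodMk measurable_const
    exact h1 (hc.gdom k (kk p.1))
  unfold basicHat
  refine Measurable.ite ?_ ?_ measurable_const
  · exact (MeasurableSet.const _).inter ((meas_valid hc p.1).inter
      (hgd.inter (hg measurableSet_ball)))
  · exact (𝓕.fc_continuous p.2).measurable.comp
      ((meas_vch (𝓕 := 𝓕) hc p.1).comp (measurable_id.prodMk hg))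

lemma meas_phiHat (hc : MeasCode c) (a k : ℕ) (y : E n) :
    Measurable fun x => phiHat 𝓕 (c x) a k y := by
  unfold phiHat
  induction lst a with
  | nil => simp
  | cons p l ih =>
    simp only [List.map_cons, List.sum_cons]
    exact (meas_basicHat 𝓕 hc p k y).add ih

end meas

/-- The relation `MeetsBox` computed from the code. -/
def CodeBox (c : GluingData n) {m : ℕ} (D : Fin m → ℚ × ℚ) (v : Fin m → ℕ) : Prop :=
  ∃ k a : ℕ, (ctr a : E n) ∈ c.dom k ∧
    ∀ i, ((D i).1 : ℝ) < phiHat 𝓕 c (v i) k (ctr a) ∧ phiHat 𝓕 c (v i) k (ctr a) < ((D i).2 : ℝ)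

lemma meas_codeBox {X : Type*} [MeasurableSpace X] {c : X → GluingData n} (hc : MeasCode c)
    {m : ℕ} (D : Fin m → ℚ × ℚ) (v : Fin m → ℕ) : MeasurableSet {x | CodeBox 𝓕 (c x) D v} := by
  have : {x | CodeBox 𝓕 (c x) D v} = ⋃ (k : ℕ) (a : ℕ), ({x | (ctr a : E n) ∈ (c x).dom k} ∩
      ⋂ i, {x | ((D i).1 : ℝ) < phiHat 𝓕 (c x) (v i) k (ctr a) ∧
        phiHat 𝓕 (c x) (v i) k (ctr a) < ((D i).2 : ℝ)}) := by
    ext x
    simp only [CodeBox, mem_ofPred_eq, mem_iUnion, mem_inter_iff, mem_iInter]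
  rw [this]
  refine MeasurableSet.iUnion fun k => MeasurableSet.iUnion fun a => MeasurableSet.inter ?_ ?_
  · have h1 : Measurable fun x : X => (x, (ctr a : E n)) := measurable_id.prodMk measurable_const
    have h2 := h1 (hc.gdom k k)
    have h3 : {x | (ctr a : E n) ∈ (c x).dom k} =
        (fun x : X => (x, (ctr a : E n))) ⁻¹' {p : X × E n | p.2 ∈ (c p.1).gdom k k} := by
      ext x
      simp only [mem_ofPred_eq, mem_preimage, (c x).gdom_self]
    rw [h3]
    exact h2
  · refine MeasurableSet.iInter fun i => ?_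
    have h := meas_phiHat 𝓕 hc (v i) k (ctr a)
    exact (measurableSet_lt measurable_const h).inter (measurableSet_lt h measurable_const)

section geometry

variable {𝓕} {c : GluingData n} {M : Type*} [TopologicalSpace M]
  [ChartedSpace (E n) M] [T2Space M] [IsManifold 𝓘(ℝ, E n) ∞ M]
  {e : ℕ → OpenPartialHomeomorph M (E n)}

/-- targets -/
def Tt (j : ℕ) : Set (E n) := ball (qq j : E n) (rr j)

lemma tgtHyp (he : Presents c M e) : TgtHyp (codeAtlas 𝓕 he) Tt := by
  intro j
  by_cases hv : valid c j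
  · exact Or.inr (wch_target he j hv)
  · left
    apply eq_empty_of_forall_notMem
    intro z hz
    exact hv ((wch_source he j z).1 hz).1

lemma basic_eq (he : Presents c M e) (p : ℕ × ℕ) {k : ℕ} {z : M} (hz : z ∈ (e k).source) :
    basic (codeAtlas 𝓕 he) Tt p z = basicHat 𝓕 c p k (e k z) := by
  classical
  have hw : (codeAtlas 𝓕 he).w p.1 = wch 𝓕 he p.1 := rfl
  unfold basic basicHat
  rw [hw]
  by_cases hs : tsupport (𝓕.fc p.2) ⊆ ball (qq p.1 : E n) (rr p.1)
  swap
  · rw [if_neg (show ¬ tsupport (𝓕.fc p.2) ⊆ Tt p.1 from hs), if_neg (fun h => hs h.1)]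
  rw [if_pos (show tsupport (𝓕.fc p.2) ⊆ Tt p.1 from hs)]
  by_cases hz' : z ∈ (e (kk p.1)).source
  swap
  · have h1 : e k z ∉ c.gdom k (kk p.1) := by rw [he.gdom_iff _ _ z hz]; exact hz'
    rw [if_neg (fun h => h1 h.2.2.1)]
    exact ext0_of_notMem (fun h => hz' ((wch_source he p.1 z).1 h).2.1.1)
  have h1 : e k z ∈ c.gdom k (kk p.1) := by rw [he.gdom_iff _ _ z hz]; exact hz'
  have h2 := he.glue_eq k (kk p.1) z hz hz'
  by_cases hzw : z ∈ (wch 𝓕 he p.1).source
  · obtain ⟨g1, g2, g3⟩ := (wch_source he p.1 z).1 hzw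
    rw [ext0_of_mem hzw, wch_eq he p.1 hzw, if_pos ⟨hs, g1, h1, by rw [h2]; exact g2.2⟩, h2]
  · rw [ext0_of_notMem hzw]
    split_ifs with h
    · rw [h2] at h ⊢
      symm
      apply image_eq_zero_of_notMem_tsupport
      intro h3
      exact hzw ((wch_source he p.1 z).2 ⟨h.2.1, ⟨hz', h.2.2.2⟩, hs h3⟩)
    · rfl

lemma phi_eq (he : Presents c M e) (a : ℕ) {k : ℕ} {z : M} (hz : z ∈ (e k).source) :
    phi (codeAtlas 𝓕 he) Tt a z = phiHat 𝓕 c a k (e k z) := by
  unfold phi phiHat sumL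
  congr 1
  apply List.map_congr_left
  intro p _
  exact basic_eq he p hz

lemma codeBox_iff (he : Presents c M e) {m : ℕ} (D : Fin m → ℚ × ℚ) (v : Fin m → ℕ) :
    MeetsBox (phi (codeAtlas 𝓕 he) Tt) D v ↔ CodeBox 𝓕 c D v := by
  have hφ := isEnum_phi (tgtHyp (𝓕 := 𝓕) he)
  constructor
  · rintro ⟨x, hx⟩
    obtain ⟨k, hk⟩ := he.cover x
    have hcont : ∀ a, Continuous (phi (codeAtlas 𝓕 he) Tt a) := fun a => (hφ.1 a).continuous
    have hsym : ContinuousAt (e k).symm (e k x) := (e k).symm.continuousAt ((e k).map_source hk)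
    have h1 : ∀ᶠ y in 𝓝 (e k x), ∀ i, ((D i).1 : ℝ) < phi (codeAtlas 𝓕 he) Tt (v i) ((e k).symm y) ∧
        phi (codeAtlas 𝓕 he) Tt (v i) ((e k).symm y) < ((D i).2 : ℝ) := by
      rw [eventually_all]
      intro i
      have h2 : ContinuousAt (fun y => phi (codeAtlas 𝓕 he) Tt (v i) ((e k).symm y)) (e k x) :=
        (hcont (v i)).continuousAt.comp hsym
      have h3 := hx i
      have h4 : phi (codeAtlas 𝓕 he) Tt (v i) ((e k).symm (e k x)) =
        phi (codeAtlas 𝓕 he) Tt (v i) x := by rw [(e k).left_inv hk]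
      have h5 : ((D i).1 : ℝ) < phi (codeAtlas 𝓕 he) Tt (v i) ((e k).symm (e k x)) := by
        rw [h4]; exact h3.1
      have h6 : phi (codeAtlas 𝓕 he) Tt (v i) ((e k).symm (e k x)) < ((D i).2 : ℝ) := by
        rw [h4]; exact h3.2
      exact (h2.eventually_const_lt h5).and (h2.eventually_lt_const h6)
    have h5 := h1.and ((e k).open_target.mem_nhds ((e k).map_source hk))
    obtain ⟨U, hU, hUo, hxU⟩ := _root_.eventually_nhds_iff.1 h5
    obtain ⟨a, ha⟩ := (TopologicalSpace.denseRange_denseSeq (E n)).exists_mem_open hUo ⟨_, hxU⟩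
    obtain ⟨g1, g2⟩ := hU _ ha
    refine ⟨k, a, by rw [← he.target]; exact g2, fun i => ?_⟩
    have g3 := g1 i
    rw [phi_eq he (v i) ((e k).map_target g2), (e k).right_inv g2] at g3
    exact g3
  · rintro ⟨k, a, ha, hD⟩
    have hat : (ctr a : E n) ∈ (e k).target := by rw [he.target]; exact ha
    refine ⟨(e k).symm (ctr a), fun i => ?_⟩
    rw [phi_eq he (v i) ((e k).map_target hat), (e k).right_inv hat]
    exact hD i

end geometry

/-- The language of the reduction: an `m`-ary relation symbol for each rational box in `ℝᵐ`. -/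
def boxLang : FirstOrder.Language.{0, 0} := ⟨fun _ => Empty, fun m => Fin m → ℚ × ℚ⟩

instance : Countable boxLang.Symbols := by
  unfold FirstOrder.Language.Symbols boxLang
  simp only
  infer_instance

/-- The structure attached to a code. -/
def codeStr (c : GluingData n) : boxLang.Structure ℕ where
  funMap := fun F _ => F.elim
  RelMap := fun D v => CodeBox 𝓕 c D v

/-- General reduction theorem for measurable families of gluing data presenting manifolds. -/
theorem codeStr_iff {c c' : GluingData n} {M : Type*} [TopologicalSpace M]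
    [ChartedSpace (E n) M] [T2Space M] [IsManifold 𝓘(ℝ, E n) ∞ M]
    {N : Type*} [TopologicalSpace N]
    [ChartedSpace (E n) N] [T2Space N] [IsManifold 𝓘(ℝ, E n) ∞ N]
    {e : ℕ → OpenPartialHomeomorph M (E n)} {e' : ℕ → OpenPartialHomeomorph N (E n)}
    (he : Presents c M e) (he' : Presents c' N e') :
    Nonempty (Diffeomorph 𝓘(ℝ, E n) 𝓘(ℝ, E n) M N ∞) ↔
      StructIso boxLang (codeStr 𝓕 c) (codeStr 𝓕 c') := by
  rw [diffeo_iff_iso (isEnum_phi (tgtHyp (𝓕 := 𝓕) he)) (isEnum_phi (tgtHyp (𝓕 := 𝓕) he'))]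
  constructor
  · rintro ⟨σ, hσ⟩
    refine ⟨@FirstOrder.Language.Equiv.mk boxLang ℕ ℕ (codeStr 𝓕 c) (codeStr 𝓕 c') σ ?_ ?_⟩
    · intro m F
      exact F.elim
    · intro m D v
      have := hσ m D v
      rw [codeBox_iff he D v, codeBox_iff he' D (σ ∘ v)] at this
      exact this.symm
  · rintro ⟨f⟩
    refine ⟨@FirstOrder.Language.Equiv.toEquiv boxLang ℕ ℕ (codeStr 𝓕 c) (codeStr 𝓕 c') f,
      fun m D v => ?_⟩
    rw [codeBox_iff he D v, codeBox_iff he' D _]
    exact (@FirstOrder.Language.Equiv.map_rel' boxLang ℕ ℕ (codeStr 𝓕 c) (codeStr 𝓕 c') f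
      m D v).symm

end MP7d75
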