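import Mathlib

/-!
# Definitions for MP_7d75c8_lc (classification of smooth manifolds by countable structures)

* `MP7d75.Code n` : codes for connected smooth `n`-manifolds, i.e. countable smooth atlases given
  by open subsets of `ℝⁿ` and gluing diffeomorphisms between open subsets of them;
* `MP7d75.Code.Space` : the coded manifold (the quotient of the disjoint union of the open sets),
  with its topology and smooth structure;
* the Borel structures on `Code n` and on the space of `L`-structures with universe `ℕ`;
* `MP7d75.ClassifiableByCountableStructures`.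
-/

open Set Filter Topology Metric Manifold
open scoped ContDiff

noncomputable section

namespace MP7d75

/-- Euclidean space `ℝⁿ`. -/
abbrev E (n : ℕ) := EuclideanSpace ℝ (Fin n)

/-- Gluing data: open subsets `dom i` of `ℝⁿ` (`i ∈ ℕ`), open subsets `gdom i j ⊆ dom i` and
smooth gluing maps `glue i j : gdom i j → gdom j i` (normalised to be `0` outside `gdom i j`)
satisfying the cocycle conditions. In particular `glue i j` is a diffeomorphism from `gdom i j`
onto `gdom j i` with inverse `glue j i`. -/
structure GluingData (n : ℕ) where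
  dom : ℕ → Set (E n)
  gdom : ℕ → ℕ → Set (E n)
  glue : ℕ → ℕ → E n → E n
  isOpen_gdom : ∀ i j, IsOpen (gdom i j)
  gdom_subset : ∀ i j, gdom i j ⊆ dom i
  gdom_self : ∀ i, gdom i i = dom i
  glue_self : ∀ i, ∀ x ∈ dom i, glue i i x = x
  glue_mem : ∀ i j, ∀ x ∈ gdom i j, glue i j x ∈ gdom j i
  glue_glue : ∀ i j, ∀ x ∈ gdom i j, glue j i (glue i j x) = x
  glue_trans : ∀ i j k, ∀ x ∈ gdom i j, glue i j x ∈ gdom j k →
    x ∈ gdom i k ∧ glue j k (glue i j x) = glue i k x
  glue_smooth : ∀ i j, ContDiffOn ℝ ∞ (glue i j) (gdom i j)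
  glue_off : ∀ i j x, x ∉ gdom i j → glue i j x = 0

namespace GluingData

variable {n : ℕ} (c : GluingData n)

lemma isOpen_dom (i : ℕ) : IsOpen (c.dom i) := c.gdom_self i ▸ c.isOpen_gdom i i

/-- The equivalence relation on the disjoint union of the `dom i` induced by the gluing maps. -/
def setoid : Setoid (Σ i, c.dom i) where
  r p q := (p.2 : E n) ∈ c.gdom p.1 q.1 ∧ c.glue p.1 q.1 p.2 = q.2
  iseqv :=
    { refl := fun p => ⟨by rw [c.gdom_self]; exact p.2.2, c.glue_self _ _ p.2.2⟩
      symm := fun {p q} h => ⟨by rw [← h.2]; exact c.glue_mem _ _ _ h.1,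
        by rw [← h.2]; exact c.glue_glue _ _ _ h.1⟩
      trans := fun {p q r} h h' => by
        have := c.glue_trans p.1 q.1 r.1 p.2 h.1 (by rw [h.2]; exact h'.1)
        exact ⟨this.1, by rw [← this.2, h.2]; exact h'.2⟩ }

/-- The topological space obtained by gluing. -/
def Space : Type := Quotient c.setoid

instance : TopologicalSpace c.Space := inferInstanceAs (TopologicalSpace (Quotient c.setoid))

/-- The point of the glued space with coordinate `x` in the `i`-th chart. -/
def pt (i : ℕ) (x : c.dom i) : c.Space := Quotient.mk c.setoid ⟨i, x⟩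

lemma pt_eq_pt {i j : ℕ} {x : c.dom i} {y : c.dom j} :
    c.pt i x = c.pt j y ↔ (x : E n) ∈ c.gdom i j ∧ c.glue i j x = y :=
  Quotient.eq (r := c.setoid)

lemma exists_rep (s : c.Space) : ∃ (i : ℕ) (x : c.dom i), c.pt i x = s := by
  obtain ⟨⟨i, x⟩, h⟩ := Quotient.exists_rep s
  exact ⟨i, x, h⟩

/-- The inclusion of the `i`-th piece is an open embedding. -/
lemma isOpenEmbedding_pt (i : ℕ) : IsOpenEmbedding (c.pt i) := by
  have hc : Continuous (c.pt i) := continuous_quotient_mk'.comp continuous_sigmaMk
  refine IsOpenEmbedding.of_continuous_injective_isOpenMap hc ?_ ?_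
  · intro x y hxy
    have h := c.pt_eq_pt.1 hxy
    rw [c.glue_self i x x.2] at h
    exact Subtype.ext h.2
  · intro U hU
    change IsOpen ((Quotient.mk c.setoid) ⁻¹' (c.pt i '' U))
    rw [isOpen_sigma_iff]
    intro j
    have hVo : IsOpen {y : E n | y ∈ c.gdom j i ∧ c.glue j i y ∈ Subtype.val '' U} := by
      have := (c.glue_smooth j i).continuousOn.isOpen_inter_preimage (c.isOpen_gdom j i)
        ((c.isOpen_dom i).isOpenMap_subtype_val U hU)
      exact this
    have : Sigma.mk j ⁻¹' (Quotient.mk c.setoid ⁻¹' (c.pt i '' U)) =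
        Subtype.val ⁻¹' {y : E n | y ∈ c.gdom j i ∧ c.glue j i y ∈ Subtype.val '' U} := by
      ext y
      simp only [mem_preimage, mem_image, mem_ofPred_eq]
      constructor
      · rintro ⟨x, hx, hxy⟩
        have h := c.pt_eq_pt.1 (show c.pt j y = c.pt i x from hxy.symm)
        exact ⟨h.1, x, hx, h.2.symm⟩
      · rintro ⟨h1, x, hx, h2⟩
        exact ⟨x, hx, (c.pt_eq_pt.2 ⟨h1, h2.symm⟩).symm⟩
    rw [this]
    exact hVo.preimage continuous_subtype_val

/-- The `i`-th chart of the glued space: the inverse of the inclusion of `dom i`. -/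
def chart (i : ℕ) [Nonempty (c.dom i)] : OpenPartialHomeomorph c.Space (E n) :=
  (IsOpenEmbedding.toOpenPartialHomeomorph (c.pt i) (c.isOpenEmbedding_pt i)).symm.trans
    (IsOpenEmbedding.toOpenPartialHomeomorph (Subtype.val : c.dom i → E n)
      (c.isOpen_dom i).isOpenEmbedding_subtypeVal)

/-- The glued space is a charted space whose charts are the inverses of the inclusions. -/
instance : ChartedSpace (E n) c.Space where
  atlas := {e | ∃ (i : ℕ) (_ : Nonempty (c.dom i)), e = c.chart i}
  chartAt s :=
    haveI : Nonempty (c.dom (c.exists_rep s).choose) := ⟨(c.exists_rep s).choose_spec.choose⟩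
    c.chart (c.exists_rep s).choose
  mem_chart_source s := by
    have : Nonempty (c.dom (c.exists_rep s).choose) := ⟨(c.exists_rep s).choose_spec.choose⟩
    simp only [chart, OpenPartialHomeomorph.trans_source, OpenPartialHomeomorph.symm_source,
      IsOpenEmbedding.toOpenPartialHomeomorph_target,
      IsOpenEmbedding.toOpenPartialHomeomorph_source, preimage_univ, inter_univ]
    exact ⟨_, (c.exists_rep s).choose_spec.choose_spec⟩
  chart_mem_atlas s := ⟨_, ⟨(c.exists_rep s).choose_spec.choose⟩, rfl⟩

end GluingData

/-- A code for a connected smooth `n`-manifold: gluing data whose glued space is Hausdorff and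
connected. (The glued space is automatically second countable, as countably many pieces are
glued.) -/
structure Code (n : ℕ) extends GluingData n where
  t2 : T2Space toGluingData.Space
  conn : ConnectedSpace toGluingData.Space

/-- The connected smooth manifold coded by `c`. -/
abbrev Code.Space {n : ℕ} (c : Code n) : Type := c.toGluingData.Space

/-- The Borel structure on the space of codes: generated by the sets of codes with
`closedBall q r ⊆ gdom i j` (the Effros Borel structure for the open sets `gdom i j`; recall
`gdom i i = dom i`) and by the evaluation maps `c ↦ glue i j q` of the gluing maps. -/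
instance (n : ℕ) : MeasurableSpace (Code n) :=
  MeasurableSpace.generateFrom
    ({S | ∃ (i j : ℕ) (q : E n) (r : ℝ), S = {c : Code n | closedBall q r ⊆ c.gdom i j}} ∪
     {S | ∃ (i j : ℕ) (q : E n) (B : Set (E n)), MeasurableSet B ∧
        S = {c : Code n | c.glue i j q ∈ B}})

/-- The diffeomorphism relation on codes. -/
def DiffeoRel (n : ℕ) (c c' : Code n) : Prop :=
  Nonempty (Diffeomorph 𝓘(ℝ, E n) 𝓘(ℝ, E n) c.Space c'.Space ∞)

/-- The Borel structure on the space of `L`-structures with universe `ℕ`, generated by the sets of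
structures satisfying a given atomic formula. -/
instance (L : FirstOrder.Language.{0, 0}) : MeasurableSpace (L.Structure ℕ) :=
  MeasurableSpace.generateFrom
    ({S | ∃ (k : ℕ) (R : L.Relations k) (v : Fin k → ℕ), S = {A | A.RelMap R v}} ∪
     {S | ∃ (k : ℕ) (F : L.Functions k) (v : Fin k → ℕ) (a : ℕ), S = {A | A.funMap F v = a}})

/-- Isomorphism of `L`-structures with universe `ℕ`. -/
def StructIso (L : FirstOrder.Language.{0, 0}) (A B : L.Structure ℕ) : Prop :=
  Nonempty (@FirstOrder.Language.Equiv L ℕ ℕ A B)

/-- The relation `r` on `X` is classifiable by countable structures: for some countable language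
`L` there is a Borel map `f` from `X` to the space of `L`-structures with universe `ℕ` such that
`r x y` holds iff `f x` and `f y` are isomorphic. -/
def ClassifiableByCountableStructures {X : Type*} [MeasurableSpace X] (r : X → X → Prop) : Prop :=
  ∃ (L : FirstOrder.Language.{0, 0}) (_ : Countable L.Symbols) (f : X → L.Structure ℕ),
    Measurable f ∧ ∀ x y, r x y ↔ StructIso L (f x) (f y)

end MP7d75
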