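import Pool.Agent.MP_7d75c8_lc.Perturb

/-!
# Existence of a countable function family
-/

open Set Filter Topology Metric
open scoped ContDiff

noncomputable section

namespace MP7d75

variable {n : ℕ}

/-! ## A countable `C¹`-dense set of smooth functions -/

theorem exists_dense_family (n : ℕ) : ∃ D : Set (E n → ℝ), D.Countable ∧
    (∀ f ∈ D, ContDiff ℝ ∞ f) ∧ ∀ f : E n → ℝ, ContDiff ℝ ∞ f → ∀ R ε : ℝ, 0 < ε → ∃ p ∈ D,
    (∀ x ∈ closedBall (0 : E n) R, |p x - f x| ≤ ε) ∧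
    (∀ x ∈ closedBall (0 : E n) R, ∀ y ∈ closedBall (0 : E n) R,
      |(p x - f x) - (p y - f y)| ≤ ε * ‖x - y‖) := by
  let S : Set C(E n, ℝ × (E n →L[ℝ] ℝ)) :=
    {F | ∃ f : E n → ℝ, ContDiff ℝ ∞ f ∧ ∀ x, F x = (f x, fderiv ℝ f x)}
  obtain ⟨t, htc, htd⟩ := TopologicalSpace.exists_countable_dense S
  have hS : ∀ F : S, ∃ f : E n → ℝ, ContDiff ℝ ∞ f ∧ ∀ x, F.1 x = (f x, fderiv ℝ f x) :=
    fun F => F.2
  choose φ hφ1 hφ2 using hS
  refine ⟨φ '' t, htc.image φ, ?_, ?_⟩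
  · rintro _ ⟨F, _, rfl⟩; exact hφ1 F
  · intro f hf R ε hε
    have hcont : Continuous fun x => (f x, fderiv ℝ f x) :=
      hf.continuous.prodMk (hf.continuous_fderiv (by simp))
    let F : S := ⟨⟨fun x => (f x, fderiv ℝ f x), hcont⟩, f, hf, fun x => rfl⟩
    have hnb : {G : S | ∀ x ∈ closedBall (0 : E n) R, dist (F.1 x) (G.1 x) < ε} ∈ 𝓝 F := by
      have h1 : {q : C(E n, ℝ × (E n →L[ℝ] ℝ)) × C(E n, ℝ × (E n →L[ℝ] ℝ)) |
          ∀ x ∈ closedBall (0 : E n) R, (q.1 x, q.2 x) ∈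
            {r : (ℝ × (E n →L[ℝ] ℝ)) × (ℝ × (E n →L[ℝ] ℝ)) | dist r.1 r.2 < ε}} ∈
          uniformity C(E n, ℝ × (E n →L[ℝ] ℝ)) := by
        rw [ContinuousMap.mem_compactConvergence_entourage_iff]
        exact ⟨closedBall 0 R, _, isCompact_closedBall _ _, Metric.dist_mem_uniformity hε,
          Subset.rfl⟩
      have h2 : {G : C(E n, ℝ × (E n →L[ℝ] ℝ)) |
          ∀ x ∈ closedBall (0 : E n) R, dist (F.1 x) (G x) < ε} ∈ 𝓝 F.1 :=
        UniformSpace.ball_mem_nhds F.1 h1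
      exact continuous_subtype_val.continuousAt.preimage_mem_nhds h2
    obtain ⟨G, hG1, hG2⟩ := mem_closure_iff_nhds.1 (htd.closure_eq ▸ mem_univ F) _ hnb
    have hGx : ∀ x ∈ closedBall (0 : E n) R, |f x - φ G x| < ε ∧
        ‖fderiv ℝ f x - fderiv ℝ (φ G) x‖ < ε := by
      intro x hx
      have h3 := hG1 x hx
      rw [hφ2 G x] at h3
      have h4 : F.1 x = (f x, fderiv ℝ f x) := rfl
      rw [h4, Prod.dist_eq, max_lt_iff] at h3
      rw [← Real.dist_eq, ← dist_eq_norm]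
      exact h3
    refine ⟨φ G, ⟨G, hG2, rfl⟩, fun x hx => ?_, fun x hx y hy => ?_⟩
    · rw [abs_sub_comm]; exact (hGx x hx).1.le
    · have hd : ∀ z ∈ closedBall (0 : E n) R,
          DifferentiableAt ℝ (fun x => φ G x - f x) z := fun z _ =>
        (((hφ1 G).differentiable (by simp)) z).sub ((hf.differentiable (by simp)) z)
      have hb : ∀ z ∈ closedBall (0 : E n) R, ‖fderiv ℝ (fun x => φ G x - f x) z‖ ≤ ε := by
        intro z hz
        rw [fderiv_fun_sub (((hφ1 G).differentiable (by simp)) z)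
          ((hf.differentiable (by simp)) z), ← norm_neg]
        have := (hGx z hz).2.le
        rwa [show -(fderiv ℝ (φ G) z - fderiv ℝ f z) = fderiv ℝ f z - fderiv ℝ (φ G) z by abel]
      have := (convex_closedBall (0 : E n) R).norm_image_sub_le_of_norm_fderiv_le hd hb hy hx
      simpa [Real.norm_eq_abs] using this

/-! ## Bump functions -/

/-- the bump with rational radii -/
def bumpF (a : ℕ) (r s : ℚ) : E n → ℝ :=
  if h : 0 < r ∧ r < s then
    ((⟨(r:ℝ), (s:ℝ), by exact_mod_cast h.1, by exact_mod_cast h.2⟩ :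
      ContDiffBump (TopologicalSpace.denseSeq (E n) a)) : E n → ℝ)
  else 0

lemma bumpF_smooth (a : ℕ) (r s : ℚ) : ContDiff ℝ ∞ (bumpF a r s : E n → ℝ) := by
  unfold bumpF
  split_ifs with h
  · exact ContDiffBump.contDiff _
  · exact contDiff_const

lemma bumpF_spec {a : ℕ} {r s : ℚ} (hr : 0 < r) (hs : r < s) :
    (∀ x : E n, 0 ≤ bumpF a r s x ∧ bumpF a r s x ≤ 1) ∧
    (∀ x ∈ closedBall (TopologicalSpace.denseSeq (E n) a) r, bumpF a r s x = 1) ∧
    (∀ x, x ∉ ball (TopologicalSpace.denseSeq (E n) a) s → bumpF a r s x = 0) := by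
  have hh : 0 < r ∧ r < s := ⟨hr, hs⟩
  refine ⟨fun x => ?_, fun x hx => ?_, fun x hx => ?_⟩
  · unfold bumpF
    rw [dif_pos hh]
    exact ⟨ContDiffBump.nonneg _, ContDiffBump.le_one _⟩
  · unfold bumpF
    rw [dif_pos hh]
    exact ContDiffBump.one_of_mem_closedBall _ hx
  · unfold bumpF
    rw [dif_pos hh]
    apply ContDiffBump.zero_of_le_dist
    simpa using hx

/-! ## Cut-off local inverses -/

/-- vector valued function with given coordinates -/
def vecF {X : Type*} (g : Fin n → X → ℝ) (x : X) : E n := WithLp.toLp 2 (fun i => g i x)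

lemma vecF_apply {X : Type*} (g : Fin n → X → ℝ) (x : X) (i : Fin n) : vecF g x i = g i x := rfl

lemma vecF_smooth {g : Fin n → E n → ℝ} (hg : ∀ i, ContDiff ℝ ∞ (g i)) :
    ContDiff ℝ ∞ (vecF g) := by
  rw [contDiff_euclidean]
  exact fun i => hg i

/-- the cut-off local inverse -/
def invF (g : Fin n → E n → ℝ) (q : ℕ × ℕ × ℕ × ℕ × Fin n) : E n → ℝ :=
  open Classical in
  if InjOn (vecF g) (ball (TopologicalSpace.denseSeq (E n) q.1) (1 / ((q.2.1:ℝ) + 1))) ∧
    (∀ x ∈ ball (TopologicalSpace.denseSeq (E n) q.1) (1 / ((q.2.1:ℝ) + 1)),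
      Function.Injective (fderiv ℝ (vecF g) x)) ∧
    closedBall (TopologicalSpace.denseSeq (E n) q.2.2.1) (1 / ((q.2.2.2.1:ℝ) + 1)) ⊆
      vecF g '' ball (TopologicalSpace.denseSeq (E n) q.1) (1 / ((q.2.1:ℝ) + 1))
  then fun y => bumpF q.2.2.1 (1 / (2 * ((q.2.2.2.1:ℚ) + 1))) (1 / ((q.2.2.2.1:ℚ) + 1)) y *
    (Function.invFunOn (vecF g)
      (ball (TopologicalSpace.denseSeq (E n) q.1) (1 / ((q.2.1:ℝ) + 1))) y) q.2.2.2.2
  else 0

lemma invFunOn_smoothAt {G : E n → E n} (hG : ContDiff ℝ ∞ G) {B : Set (E n)} (hB : IsOpen B)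
    (hinj : InjOn G B) {x : E n} (hx : x ∈ B) (hd : Function.Injective (fderiv ℝ G x)) :
    ContDiffAt ℝ ∞ (Function.invFunOn G B) (G x) := by
  obtain ⟨L, hL⟩ := exists_equiv_of_injective _ hd
  have hGd : HasFDerivAt G (L : E n →L[ℝ] E n) x := by
    rw [hL]; exact ((hG.differentiable (by simp)) x).hasFDerivAt
  have hGa : ContDiffAt ℝ ∞ G x := hG.contDiffAt
  have h1 := hGa.to_localInverse hGd (by simp)
  have h2 : ∀ᶠ x' in 𝓝 x, Function.invFunOn G B (G x') = x' := by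
    filter_upwards [hB.mem_nhds hx] with x' hx'
    exact hinj.leftInvOn_invFunOn hx'
  exact h1.congr_of_eventuallyEq ((hGa.hasStrictFDerivAt' hGd (by simp)).localInverse_unique h2)

lemma image_isOpen {G : E n → E n} (hG : ContDiff ℝ ∞ G) {B : Set (E n)} (hB : IsOpen B)
    (hd : ∀ x ∈ B, Function.Injective (fderiv ℝ G x)) : IsOpen (G '' B) := by
  rw [isOpen_iff_mem_nhds]
  rintro _ ⟨x, hx, rfl⟩
  obtain ⟨L, hL⟩ := exists_equiv_of_injective _ (hd x hx)
  have hGd : HasFDerivAt G (L : E n →L[ℝ] E n) x := by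
    rw [hL]; exact ((hG.differentiable (by simp)) x).hasFDerivAt
  have h3 := (hG.contDiffAt.hasStrictFDerivAt' hGd (by simp)).map_nhds_eq_of_equiv
  rw [← h3]
  exact image_mem_map (hB.mem_nhds hx)

lemma invF_smooth {g : Fin n → E n → ℝ} (hg : ∀ i, ContDiff ℝ ∞ (g i))
    (q : ℕ × ℕ × ℕ × ℕ × Fin n) : ContDiff ℝ ∞ (invF g q) := by
  unfold invF
  split_ifs with h
  swap
  · exact contDiff_const
  obtain ⟨h1, h2, h3⟩ := h
  have hG := vecF_smooth hg
  rw [contDiff_iff_contDiffAt]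
  intro y
  by_cases hy : y ∈ closedBall (TopologicalSpace.denseSeq (E n) q.2.2.1)
      (1 / ((q.2.2.2.1:ℝ) + 1))
  · obtain ⟨x, hx, rfl⟩ := h3 hy
    apply (bumpF_smooth _ _ _).contDiffAt.mul
    have h4 := invFunOn_smoothAt hG isOpen_ball h1 hx (h2 x hx)
    exact (contDiffAt_euclidean.1 h4) q.2.2.2.2
  · have : (fun y => bumpF q.2.2.1 (1 / (2 * ((q.2.2.2.1:ℚ) + 1))) (1 / ((q.2.2.2.1:ℚ) + 1)) y *
        (Function.invFunOn (vecF g)
        (ball (TopologicalSpace.denseSeq (E n) q.1) (1 / ((q.2.1:ℝ) + 1))) y) q.2.2.2.2)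
        =ᶠ[𝓝 y] fun _ => 0 := by
      filter_upwards [isClosed_closedBall.isOpen_compl.mem_nhds hy] with z hz
      rw [(bumpF_spec (by positivity) (by
        apply one_div_lt_one_div_of_lt (by positivity)
        have : (0:ℚ) ≤ q.2.2.2.1 := by positivity
        linarith)).2.2 z, zero_mul]
      intro hz'
      apply hz
      have := ball_subset_closedBall hz'
      push_cast at this
      exact this
    exact contDiffAt_const.congr_of_eventuallyEq this

/-! ## The closure -/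

/-- the base set -/
def base (D : Set (E n → ℝ)) : Set (E n → ℝ) :=
  D ∪ {0, 1} ∪ range (fun (i : Fin n) (x : E n) => x i) ∪
    range (fun t : ℕ × ℚ × ℚ => bumpF t.1 t.2.1 t.2.2)

/-- one closure step -/
def stepF (T : Set (E n → ℝ)) : Set (E n → ℝ) :=
  T ∪ image2 (fun f g => f + g) T T ∪ image2 (fun f g => f * g) T T ∪ (fun f => -f) '' T ∪
    image2 (fun (f : E n → ℝ) (g : Fin n → E n → ℝ) (x : E n) => f (vecF g x)) T
      (Set.pi univ fun _ => T) ∪
    image2 (fun (g : Fin n → E n → ℝ) (q : ℕ × ℕ × ℕ × ℕ × Fin n) => invF g q)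
      (Set.pi univ fun _ => T) univ

lemma stepF_countable {T : Set (E n → ℝ)} (hT : T.Countable) : (stepF T).Countable := by
  have hpi : (Set.pi univ fun _ : Fin n => T).Countable := Set.countable_univ_pi fun _ => hT
  unfold stepF
  refine (((((hT.union (hT.image2 hT _)).union (hT.image2 hT _)).union (hT.image _)).union
    (hT.image2 hpi _)).union (hpi.image2 (Set.to_countable _) _))

lemma stepF_smooth {T : Set (E n → ℝ)} (hT : ∀ f ∈ T, ContDiff ℝ ∞ f) :
    ∀ f ∈ stepF T, ContDiff ℝ ∞ f := by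
  rintro f (((((hf | ⟨g, hg, h, hh, rfl⟩) | ⟨g, hg, h, hh, rfl⟩) | ⟨g, hg, rfl⟩) |
    ⟨g, hg, h, hh, rfl⟩) | ⟨g, hg, q, -, rfl⟩)
  · exact hT f hf
  · exact (hT g hg).add (hT h hh)
  · exact (hT g hg).mul (hT h hh)
  · exact (hT g hg).neg
  · exact (hT g hg).comp (vecF_smooth fun i => hT _ (hh i (mem_univ i)))
  · exact invF_smooth (fun i => hT _ (hg i (mem_univ i))) q

/-- stages -/
def stage (D : Set (E n → ℝ)) : ℕ → Set (E n → ℝ)
  | 0 => base D
  | k + 1 => stepF (stage D k)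

lemma stage_mono (D : Set (E n → ℝ)) : Monotone (stage D) :=
  monotone_nat_of_le_succ fun k f hf =>
    Or.inl (Or.inl (Or.inl (Or.inl (Or.inl hf))))

lemma stage_countable {D : Set (E n → ℝ)} (hD : D.Countable) (k : ℕ) :
    (stage D k).Countable := by
  induction k with
  | zero =>
    refine ((hD.union ?_).union ?_).union ?_
    · exact Set.to_countable _
    · exact countable_range _
    · exact countable_range _
  | succ k ih => exact stepF_countable ih

lemma contDiff_coord (i : Fin n) : ContDiff ℝ ∞ (fun x : E n => x i) :=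
  (contDiff_euclidean.1 contDiff_id) i

lemma stage_smooth {D : Set (E n → ℝ)} (hD : ∀ f ∈ D, ContDiff ℝ ∞ f) (k : ℕ) :
    ∀ f ∈ stage D k, ContDiff ℝ ∞ f := by
  induction k with
  | zero =>
    rintro f (((hf | hf) | ⟨i, rfl⟩) | ⟨t, rfl⟩)
    · exact hD f hf
    · rcases hf with rfl | rfl
      · exact contDiff_const
      · exact contDiff_const
    · exact contDiff_coord i
    · exact bumpF_smooth _ _ _
  | succ k ih => exact stepF_smooth ih

/-- the family -/
def famA (D : Set (E n → ℝ)) : Set (E n → ℝ) := ⋃ k, stage D k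

lemma famA_two {D : Set (E n → ℝ)} {f g : E n → ℝ} (hf : f ∈ famA D) (hg : g ∈ famA D) :
    ∃ k, f ∈ stage D k ∧ g ∈ stage D k := by
  obtain ⟨k, hk⟩ := mem_iUnion.1 hf
  obtain ⟨l, hl⟩ := mem_iUnion.1 hg
  exact ⟨max k l, stage_mono D (le_max_left _ _) hk, stage_mono D (le_max_right _ _) hl⟩

lemma famA_pi {D : Set (E n → ℝ)} {g : Fin n → E n → ℝ} (hg : ∀ i, g i ∈ famA D) :
    ∃ k, ∀ i, g i ∈ stage D k := by
  choose k hk using fun i => mem_iUnion.1 (hg i)
  exact ⟨Finset.univ.sup k, fun i => stage_mono D (Finset.le_sup (Finset.mem_univ i)) (hk i)⟩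

lemma famA_step {D : Set (E n → ℝ)} {f : E n → ℝ} {k : ℕ} (hf : f ∈ stepF (stage D k)) :
    f ∈ famA D := mem_iUnion.2 ⟨k + 1, hf⟩

/-- The inverse function property. -/
lemma famA_inv {D : Set (E n → ℝ)} (hDs : ∀ f ∈ D, ContDiff ℝ ∞ f) {g : Fin n → E n → ℝ}
    (hg : ∀ i, g i ∈ famA D) (x : E n) (hx : Function.Injective (fderiv ℝ (vecF g) x)) :
    ∃ h : Fin n → E n → ℝ, (∀ i, h i ∈ famA D) ∧ ∀ᶠ y in 𝓝 x, vecF h (vecF g y) = y := by
  obtain ⟨k, hk⟩ := famA_pi hg
  have hG : ContDiff ℝ ∞ (vecF g) := vecF_smooth fun i => stage_smooth hDs k _ (hk i)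
  obtain ⟨L, hL⟩ := exists_equiv_of_injective _ hx
  have hGd : HasFDerivAt (vecF g) (L : E n →L[ℝ] E n) x := by
    rw [hL]; exact ((hG.differentiable (by simp)) x).hasFDerivAt
  have hst := hG.contDiffAt.hasStrictFDerivAt' hGd (by simp)
  set e := hst.toOpenPartialHomeomorph (vecF g) with he
  have hxe : x ∈ e.source := hst.mem_toOpenPartialHomeomorph_source
  have hopen : ∀ᶠ y in 𝓝 x, Function.Injective (fderiv ℝ (vecF g) y) := by
    have h1 : {T : E n →L[ℝ] E n | ∃ L' : E n ≃L[ℝ] E n, (L' : E n →L[ℝ] E n) = T} ∈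
        𝓝 (fderiv ℝ (vecF g) x) := by
      rw [← hL]
      exact L.nhds
    filter_upwards [(hG.continuous_fderiv (by simp)).continuousAt.preimage_mem_nhds h1]
      with y hy
    obtain ⟨L', hL'⟩ := hy
    rw [← hL']
    exact L'.injective
  -- the ball `B`
  have hex : ∀ {y : E n} {U : Set (E n)}, U ∈ 𝓝 y → ∃ a b : ℕ,
      y ∈ ball (TopologicalSpace.denseSeq (E n) a) (1 / (2 * ((b:ℝ) + 1))) ∧
      closedBall (TopologicalSpace.denseSeq (E n) a) (1 / ((b:ℝ) + 1)) ⊆ U := by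
    intro y U hU
    obtain ⟨δ, hδ, hball⟩ := Metric.mem_nhds_iff.1 hU
    obtain ⟨b, hb⟩ := exists_nat_one_div_lt (show (0:ℝ) < δ / 2 by linarith)
    have hr0 : (0:ℝ) < 1 / (2 * ((b:ℝ) + 1)) := by positivity
    obtain ⟨a, ha⟩ := (TopologicalSpace.denseRange_denseSeq (E n)).exists_dist_lt y hr0
    refine ⟨a, b, ha, fun z hz => hball ?_⟩
    rw [mem_closedBall] at hz
    rw [mem_ball]
    have h1 := dist_triangle z (TopologicalSpace.denseSeq (E n) a) y
    rw [dist_comm (TopologicalSpace.denseSeq (E n) a) y] at h1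
    have h2 : 1 / (2 * ((b:ℝ) + 1)) ≤ 1 / ((b:ℝ) + 1) := by
      apply one_div_le_one_div_of_le (by positivity)
      have : (0:ℝ) ≤ b := Nat.cast_nonneg b
      linarith
    linarith
  obtain ⟨a, b, hab1, hab2⟩ := hex (Filter.inter_mem (e.open_source.mem_nhds hxe) hopen)
  set B := ball (TopologicalSpace.denseSeq (E n) a) (1 / ((b:ℝ) + 1)) with hB
  have hxB : x ∈ B := by
    refine ball_subset_ball ?_ hab1
    apply one_div_le_one_div_of_le (by positivity)
    have : (0:ℝ) ≤ b := Nat.cast_nonneg b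
    linarith
  have hBs : B ⊆ e.source := fun y hy => (hab2 (ball_subset_closedBall hy)).1
  have hBd : ∀ y ∈ B, Function.Injective (fderiv ℝ (vecF g) y) :=
    fun y hy => (hab2 (ball_subset_closedBall hy)).2
  have hinj : InjOn (vecF g) B := e.injOn.mono hBs
  have hGB : IsOpen (vecF g '' B) := image_isOpen hG isOpen_ball hBd
  obtain ⟨a', b', hab1', hab2'⟩ := hex (hGB.mem_nhds ⟨x, hxB, rfl⟩)
  refine ⟨fun i => invF g (a, b, a', b', i), fun i => ?_, ?_⟩
  · exact famA_step (k := k) (Or.inr ⟨g, fun i _ => hk i, _, mem_univ _, rfl⟩)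
  · filter_upwards [isOpen_ball.mem_nhds hxB,
      hG.continuous.continuousAt.preimage_mem_nhds (isOpen_ball.mem_nhds hab1')] with y hy1 hy2
    ext i
    rw [vecF_apply]
    unfold invF
    rw [if_pos ⟨hinj, hBd, hab2'⟩]
    have h1 : bumpF a' (1 / (2 * ((b':ℚ) + 1))) (1 / ((b':ℚ) + 1)) (vecF g y) = 1 := by
      refine (bumpF_spec (by positivity) (by
        apply one_div_lt_one_div_of_lt (by positivity)
        have : (0:ℚ) ≤ b' := by positivity
        linarith)).2.1 _ ?_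
      have := ball_subset_closedBall hy2
      push_cast
      exact this
    simp only [h1, one_mul]
    rw [hinj.leftInvOn_invFunOn hy1]

/-- Existence of the family. -/
theorem exists_fam (n : ℕ) : Nonempty (Fam n) := by
  obtain ⟨D, hD1, hD2, hD3⟩ := exists_dense_family n
  have hbase : base D ⊆ famA D := fun f hf => mem_iUnion.2 ⟨0, hf⟩
  refine ⟨{ A := { carrier := famA D, mul_mem' := ?_, one_mem' := ?_, add_mem' := ?_,
                   zero_mem' := ?_, neg_mem' := ?_ }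
            countable := ?_
            smooth := ?_
            coord := ?_
            comp := ?_
            dense := ?_
            bump := ?_
            inv := ?_ }⟩
  · intro f g hf hg
    obtain ⟨k, h1, h2⟩ := famA_two hf hg
    exact famA_step (k := k) (Or.inl (Or.inl (Or.inl (Or.inr ⟨f, h1, g, h2, rfl⟩))))
  · exact hbase (Or.inl (Or.inl (Or.inr (Or.inr rfl))))
  · intro f g hf hg
    obtain ⟨k, h1, h2⟩ := famA_two hf hg
    exact famA_step (k := k) (Or.inl (Or.inl (Or.inl (Or.inl (Or.inr ⟨f, h1, g, h2, rfl⟩)))))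
  · exact hbase (Or.inl (Or.inl (Or.inr (Or.inl rfl))))
  · intro f hf
    obtain ⟨k, h1, -⟩ := famA_two hf hf
    exact famA_step (k := k) (Or.inl (Or.inl (Or.inr ⟨f, h1, rfl⟩)))
  · exact countable_iUnion fun k => stage_countable hD1 k
  · intro f hf
    obtain ⟨k, hk⟩ := mem_iUnion.1 hf
    exact stage_smooth hD2 k f hk
  · intro i
    exact hbase (Or.inl (Or.inr ⟨i, rfl⟩))
  · intro f hf g hg
    obtain ⟨k, hk⟩ := mem_iUnion.1 hf
    obtain ⟨l, hl⟩ := famA_pi (D := D) (g := fun i x => g x i) hg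
    refine famA_step (k := max k l) (Or.inl (Or.inr ⟨f, stage_mono D (le_max_left _ _) hk,
      fun i x => g x i, fun i _ => stage_mono D (le_max_right _ _) (hl i), ?_⟩))
    rfl
  · intro f hf R ε hε
    obtain ⟨p, hp, h⟩ := hD3 f hf R ε hε
    exact ⟨p, hbase (Or.inl (Or.inl (Or.inl hp))), h⟩
  · intro a r s hr hs
    exact ⟨bumpF a r s, hbase (Or.inr ⟨(a, r, s), rfl⟩), bumpF_spec hr hs⟩
  · intro g hg x hx
    obtain ⟨h, h1, h2⟩ := famA_inv hD2 (g := fun i x => g x i) hg x hx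
    exact ⟨vecF h, h1, h2⟩

end MP7d75
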