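import Pool.Agent.MP_7d75c8_lc.StdMeas

/-!
# The space of codes is a standard Borel space
-/

open Set Filter Topology Metric MeasureTheory
open scoped ContDiff

noncomputable section

namespace MP7d75

variable {n : ℕ}

/-- the raw data of a code -/
def codeRaw (c : Code n) : Raw n := rawOf c.toGluingData

lemma gluing_ext {c c' : GluingData n} (h : rawOf c = rawOf c') : c = c' := by
  have h1 : c.gdom = c'.gdom := by
    ext i j x
    have := congrArg PMap.dom (congrFun (congrFun h i) j)
    exact iff_of_eq (congrFun this x)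
  have h2 : c.glue = c'.glue := by
    ext1 i; ext1 j
    exact congrArg PMap.f (congrFun (congrFun h i) j)
  have h3 : c.dom = c'.dom := by
    ext1 i
    rw [← c.gdom_self, ← c'.gdom_self, h1]
  cases c; cases c'
  simp only at h1 h2 h3
  subst h1 h2 h3
  rfl

lemma codeRaw_injective : Function.Injective (codeRaw : Code n → Raw n) := by
  intro c c' h
  have h1 := gluing_ext h
  cases c; cases c'
  simp only at h1
  subst h1
  rfl

lemma codeRaw_range : range (codeRaw : Code n → Raw n) =
    {z | AlgOK z} ∩ ({z | HB z} ∩ {z | KB z}) := by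
  apply Subset.antisymm
  · rintro _ ⟨c, rfl⟩
    exact ⟨algOK_rawOf _, hb_of_t2 _ c.t2, kb_of_conn _ c.conn⟩
  · rintro z ⟨h1, h2, h3⟩
    have hz : rawOf (gluingOf z h1) = z := rfl
    refine ⟨⟨gluingOf z h1, t2_of_hb _ (by rw [hz]; exact h2), conn_of_kb _ (by rw [hz]; exact h3)⟩,
      rfl⟩

lemma codeRaw_embedding (n : ℕ) : MeasurableEmbedding (codeRaw : Code n → Raw n) := by
  have hmeas : Measurable (codeRaw : Code n → Raw n) := by
    rw [measurable_pi_iff]
    intro i
    rw [measurable_pi_iff]
    intro j
    apply measurable_pmap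
    · intro p
      exact MeasurableSpace.measurableSet_generateFrom (Or.inl ⟨i, j, _, _, rfl⟩)
    · intro a B hB
      exact MeasurableSpace.measurableSet_generateFrom (Or.inr ⟨i, j, _, B, hB, rfl⟩)
  refine ⟨codeRaw_injective, hmeas, ?_⟩
  intro S hS
  have hle : (inferInstance : MeasurableSpace (Code n)) ≤
      MeasurableSpace.comap (codeRaw : Code n → Raw n) inferInstance := by
    apply MeasurableSpace.generateFrom_le
    rintro S (⟨i, j, q, r, rfl⟩ | ⟨i, j, q, B, hB, rfl⟩)
    · refine ⟨{z | closedBall q r ⊆ (z i j).dom}, ?_, rfl⟩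
      exact (m_F i j).measO.compact (m_F i j).isOpen (isCompact_closedBall q r)
    · exact ⟨{z | (z i j).f q ∈ B}, m_eval i j q hB, rfl⟩
  obtain ⟨S', hS', rfl⟩ := hle S hS
  rw [image_preimage_eq_inter_range, codeRaw_range]
  exact hS'.inter (m_alg.inter (m_hb.inter m_kb))

/-- The space of codes is standard Borel. -/
theorem standardBorel_code (n : ℕ) : StandardBorelSpace (Code n) :=
  standardBorel_of_embedding (codeRaw_embedding n)

end MP7d75
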