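import Pool.Agent.MP_7d75c8_lc.Quot

/-!
# Every connected smooth manifold is coded
-/

open Set Filter Topology Metric Manifold
open scoped ContDiff

noncomputable section

namespace MP7d75

variable {n : ℕ}

section

variable {M : Type*} [TopologicalSpace M] [ChartedSpace (E n) M]

/-- the gluing data of a sequence of charts -/
def ofCharts [IsManifold 𝓘(ℝ, E n) ∞ M] (e : ℕ → OpenPartialHomeomorph M (E n))
    (he : ∀ k, e k ∈ IsManifold.maximalAtlas 𝓘(ℝ, E n) ∞ M) : GluingData n where
  dom := fun i => (e i).target
  gdom := fun i j => ((e i).symm.trans (e j)).source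
  glue := fun i j => by
    classical
    exact fun x => if x ∈ ((e i).symm.trans (e j)).source then e j ((e i).symm x) else 0
  isOpen_gdom := fun i j => ((e i).symm.trans (e j)).open_source
  gdom_subset := fun i j x hx => by
    simp only [OpenPartialHomeomorph.trans_source, OpenPartialHomeomorph.symm_source,
      mem_inter_iff] at hx
    exact hx.1
  gdom_self := fun i => by
    ext x
    simp only [OpenPartialHomeomorph.trans_source, OpenPartialHomeomorph.symm_source,
      mem_inter_iff, mem_preimage]
    exact ⟨fun h => h.1, fun h => ⟨h, (e i).map_target h⟩⟩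
  glue_self := fun i x hx => by
    have h : x ∈ ((e i).symm.trans (e i)).source := by
      simp only [OpenPartialHomeomorph.trans_source, OpenPartialHomeomorph.symm_source,
        mem_inter_iff, mem_preimage]
      exact ⟨hx, (e i).map_target hx⟩
    rw [if_pos h, (e i).right_inv hx]
  glue_mem := fun i j x hx => by
    rw [if_pos hx]
    simp only [OpenPartialHomeomorph.trans_source, OpenPartialHomeomorph.symm_source,
      mem_inter_iff, mem_preimage] at hx ⊢
    refine ⟨(e j).map_source hx.2, ?_⟩
    rw [(e j).left_inv hx.2]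
    exact (e i).map_target hx.1
  glue_glue := fun i j x hx => by
    have hx' := hx
    simp only [OpenPartialHomeomorph.trans_source, OpenPartialHomeomorph.symm_source,
      mem_inter_iff, mem_preimage] at hx'
    have h2 : e j ((e i).symm x) ∈ ((e j).symm.trans (e i)).source := by
      simp only [OpenPartialHomeomorph.trans_source, OpenPartialHomeomorph.symm_source,
        mem_inter_iff, mem_preimage]
      refine ⟨(e j).map_source hx'.2, ?_⟩
      rw [(e j).left_inv hx'.2]
      exact (e i).map_target hx'.1
    rw [if_pos hx, if_pos h2, (e j).left_inv hx'.2, (e i).right_inv hx'.1]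
  glue_trans := fun i j k x hx hx2 => by
    rw [if_pos hx] at hx2 ⊢
    have hx' := hx
    have hx2' := hx2
    simp only [OpenPartialHomeomorph.trans_source, OpenPartialHomeomorph.symm_source,
      mem_inter_iff, mem_preimage] at hx' hx2'
    rw [(e j).left_inv hx'.2] at hx2'
    have h3 : x ∈ ((e i).symm.trans (e k)).source := by
      simp only [OpenPartialHomeomorph.trans_source, OpenPartialHomeomorph.symm_source,
        mem_inter_iff, mem_preimage]
      exact ⟨hx'.1, hx2'.2⟩
    refine ⟨h3, ?_⟩
    rw [if_pos hx2, if_pos h3, (e j).left_inv hx'.2]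
  glue_smooth := fun i j => by
    have h := StructureGroupoid.compatible_of_mem_maximalAtlas (he i) (he j)
    have h1 : ContDiffOn ℝ ∞ (fun x => e j ((e i).symm x)) ((e i).symm.trans (e j)).source := by
      exact contMDiffOn_iff_contDiffOn.1 (contMDiffOn_of_mem_contDiffGroupoid h)
    refine h1.congr fun x hx => ?_
    rw [if_pos hx]
  glue_off := fun i j x hx => by rw [if_neg hx]

lemma presents_ofCharts [IsManifold 𝓘(ℝ, E n) ∞ M] (e : ℕ → OpenPartialHomeomorph M (E n))
    (he : ∀ k, e k ∈ IsManifold.maximalAtlas 𝓘(ℝ, E n) ∞ M) (hc : ∀ x, ∃ k, x ∈ (e k).source) :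
    Presents (ofCharts e he) M e where
  mem := he
  cover := hc
  target := fun k => rfl
  gdom_iff := fun i j z hz => by
    show e i z ∈ ((e i).symm.trans (e j)).source ↔ _
    simp only [OpenPartialHomeomorph.trans_source, OpenPartialHomeomorph.symm_source,
      mem_inter_iff, mem_preimage]
    rw [(e i).left_inv hz]
    exact ⟨fun h => h.2, fun h => ⟨(e i).map_source hz, h⟩⟩
  glue_eq := fun i j z hz hz' => by
    have h : e i z ∈ ((e i).symm.trans (e j)).source := by
      simp only [OpenPartialHomeomorph.trans_source, OpenPartialHomeomorph.symm_source,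
        mem_inter_iff, mem_preimage]
      rw [(e i).left_inv hz]
      exact ⟨(e i).map_source hz, hz'⟩
    have h2 : (ofCharts e he).glue i j (e i z) = e j ((e i).symm (e i z)) := if_pos h
    rw [h2, (e i).left_inv hz]

/-- a presented manifold is homeomorphic to the glued space -/
theorem Presents.homeo {c : GluingData n} {e : ℕ → OpenPartialHomeomorph M (E n)}
    (he : Presents c M e) : Nonempty (M ≃ₜ c.Space) := by
  choose k hk using he.cover
  have hd : ∀ j x, x ∈ (e j).source → e j x ∈ c.dom j := fun j x hx => by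
    rw [← he.target]; exact (e j).map_source hx
  set f : M → c.Space := fun x => c.pt (k x) ⟨e (k x) x, hd _ _ (hk x)⟩ with hf
  have hfe : ∀ j x (hx : x ∈ (e j).source), f x = c.pt j ⟨e j x, hd j x hx⟩ := by
    intro j x hx
    exact c.pt_eq_pt.2 ⟨(he.gdom_iff (k x) j x (hk x)).2 hx, he.glue_eq (k x) j x (hk x) hx⟩
  have hinj : Function.Injective f := by
    intro x y hxy
    have h := c.pt_eq_pt.1 hxy
    have h1 : x ∈ (e (k y)).source := (he.gdom_iff (k x) (k y) x (hk x)).1 h.1
    have h2 : e (k y) x = e (k y) y := by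
      rw [← he.glue_eq (k x) (k y) x (hk x) h1]; exact h.2
    exact (e (k y)).injOn h1 (hk y) h2
  have hpt : ∀ j (y : c.dom j), f ((e j).symm y) = c.pt j y := by
    intro j y
    have hy : (y : E n) ∈ (e j).target := by rw [he.target]; exact y.2
    rw [hfe j _ ((e j).map_target hy)]
    congr 1
    exact Subtype.ext ((e j).right_inv hy)
  have hsurj : Function.Surjective f := by
    intro s
    obtain ⟨j, y, rfl⟩ := c.exists_rep s
    exact ⟨_, hpt j y⟩
  have hcont : Continuous f := by
    rw [continuous_def]
    intro V hV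
    have : f ⁻¹' V = ⋃ j, (e j).source ∩ (e j) ⁻¹' (Subtype.val '' (c.pt j ⁻¹' V)) := by
      ext x
      simp only [mem_preimage, mem_iUnion, mem_inter_iff, mem_image]
      constructor
      · intro hx
        exact ⟨k x, hk x, ⟨_, hd _ _ (hk x)⟩, hx, rfl⟩
      · rintro ⟨j, hx, y, hy, hxy⟩
        rw [hfe j x hx]
        convert hy
        exact hxy.symm
    rw [this]
    refine isOpen_iUnion fun j => (e j).isOpen_inter_preimage ?_
    exact (c.isOpen_dom j).isOpenMap_subtype_val _ (hV.preimage (c.isOpenEmbedding_pt j).continuous)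
  have hopen : IsOpenMap f := by
    intro U hU
    have : f '' U = ⋃ j, c.pt j '' (Subtype.val ⁻¹' ((e j).target ∩ (e j).symm ⁻¹' U)) := by
      ext s
      simp only [mem_image, mem_iUnion, mem_preimage, mem_inter_iff]
      constructor
      · rintro ⟨x, hx, rfl⟩
        refine ⟨k x, ⟨_, hd _ _ (hk x)⟩, ⟨(e (k x)).map_source (hk x), ?_⟩, rfl⟩
        rw [(e (k x)).left_inv (hk x)]
        exact hx
      · rintro ⟨j, y, ⟨hy1, hy2⟩, rfl⟩
        exact ⟨_, hy2, hpt j y⟩
    rw [this]
    refine isOpen_iUnion fun j => (c.isOpenEmbedding_pt j).isOpenMap _ ?_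
    exact ((e j).symm.isOpen_inter_preimage hU).preimage continuous_subtype_val
  exact ⟨(Equiv.ofBijective f ⟨hinj, hsurj⟩).toHomeomorphOfContinuousOpen hcont hopen⟩

end

/-- a countable sequence of charts covering a nonempty second countable manifold -/
lemma exists_charts (M : Type*) [TopologicalSpace M] [ChartedSpace (E n) M]
    [SecondCountableTopology M] [Nonempty M] [IsManifold 𝓘(ℝ, E n) ∞ M] :
    ∃ e : ℕ → OpenPartialHomeomorph M (E n),
      (∀ k, e k ∈ IsManifold.maximalAtlas 𝓘(ℝ, E n) ∞ M) ∧ ∀ x, ∃ k, x ∈ (e k).source := by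
  obtain ⟨s, hs, hs2⟩ := TopologicalSpace.countable_cover_nhds
    (fun x : M => (chartAt (E n) x).open_source.mem_nhds (mem_chart_source (E n) x))
  have hne : s.Nonempty := by
    obtain ⟨x⟩ := ‹Nonempty M›
    have : x ∈ ⋃ y ∈ s, (chartAt (E n) y).source := hs2 ▸ mem_univ x
    obtain ⟨y, hy, -⟩ := mem_iUnion₂.1 this
    exact ⟨y, hy⟩
  obtain ⟨g, hg⟩ := hs.exists_eq_range hne
  refine ⟨fun k => chartAt (E n) (g k), fun k => IsManifold.chart_mem_maximalAtlas _, fun x => ?_⟩
  have : x ∈ ⋃ y ∈ s, (chartAt (E n) y).source := hs2 ▸ mem_univ x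
  obtain ⟨y, hy, hxy⟩ := mem_iUnion₂.1 this
  rw [hg] at hy
  obtain ⟨k, rfl⟩ := hy
  exact ⟨k, hxy⟩

/-- the glued space is second countable -/
instance (c : GluingData n) : SecondCountableTopology c.Space := by
  have h : ∀ i, SecondCountableTopology (range (c.pt i)) := fun i =>
    (c.isOpenEmbedding_pt i).isEmbedding.toHomeomorph.symm.secondCountableTopology
  refine TopologicalSpace.secondCountableTopology_of_countable_cover (U := fun i => range (c.pt i))
    (fun i => (c.isOpenEmbedding_pt i).isOpen_range) ?_
  apply eq_univ_of_forall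
  intro s
  obtain ⟨i, x, rfl⟩ := c.exists_rep s
  exact mem_iUnion.2 ⟨i, x, rfl⟩

end MP7d75
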