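import Pool.Agent.MP_7d75c8_lc.Main
import Pool.Agent.MP_7d75c8_lc.Surj
import Pool.Agent.MP_7d75c8_lc.StdCode

/-!
# The final statement
-/

open Set Filter Topology Metric MeasureTheory Manifold
open scoped ContDiff

noncomputable section

namespace MP7d75

/-- Every connected smooth `n`-manifold is diffeomorphic to a coded one. -/
theorem exists_code (n : ℕ) (M : Type) [TopologicalSpace M] [ChartedSpace (E n) M] [T2Space M]
    [SecondCountableTopology M] [ConnectedSpace M] [IsManifold 𝓘(ℝ, E n) ∞ M] :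
    ∃ c : Code n, Nonempty (Diffeomorph 𝓘(ℝ, E n) 𝓘(ℝ, E n) M c.Space ∞) := by
  obtain ⟨e, he, hc⟩ := exists_charts (n := n) M
  obtain ⟨h⟩ := (presents_ofCharts e he hc).homeo
  have hT : T2Space (ofCharts e he).Space := h.symm.isEmbedding.t2Space
  have hC : ConnectedSpace (ofCharts e he).Space := h.surjective.connectedSpace h.continuous
  refine ⟨⟨ofCharts e he, hT, hC⟩, ?_⟩
  obtain ⟨𝓕⟩ := exists_fam n
  have : Nonempty (ofCharts e he).Space := hC.toNonempty
  obtain ⟨e', he'⟩ := (ofCharts e he).exists_presents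
  refine (codeStr_iff 𝓕 (presents_ofCharts e he hc) he').2 ?_
  exact ⟨@FirstOrder.Language.Equiv.refl boxLang ℕ (codeStr 𝓕 (ofCharts e he))⟩

end MP7d75
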