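import Pool.Agent.MP_7d75c8_lc.Classify
import Pool.Agent.MP_7d75c8_lc.Family

/-!
# The main theorem for codes
-/

open Set Filter Topology Metric MeasureTheory Manifold
open scoped ContDiff

noncomputable section

namespace MP7d75

variable {n : ℕ}

lemma measCode_code (n : ℕ) : MeasCode (fun c : Code n => c.toGluingData) where
  ball_sub := fun i j q r =>
    MeasurableSpace.measurableSet_generateFrom (Or.inl ⟨i, j, q, r, rfl⟩)
  eval := fun i j q B hB =>
    MeasurableSpace.measurableSet_generateFrom (Or.inr ⟨i, j, q, B, hB, rfl⟩)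

/-- The classification theorem for smooth manifolds. -/
theorem classify (n : ℕ) : ClassifiableByCountableStructures (DiffeoRel n) := by
  obtain ⟨𝓕⟩ := exists_fam n
  refine ⟨boxLang, inferInstance, fun c => codeStr 𝓕 c.toGluingData, ?_, ?_⟩
  · refine measurable_generateFrom ?_
    rintro S (⟨k, D, v, rfl⟩ | ⟨k, F, v, a, rfl⟩)
    · exact meas_codeBox 𝓕 (measCode_code n) D v
    · exact F.elim
  · intro c c'
    have := c.t2
    have := c'.t2
    have := c.conn
    have := c'.conn
    obtain ⟨e, he⟩ := c.toGluingData.exists_presents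
    obtain ⟨e', he'⟩ := c'.toGluingData.exists_presents
    exact codeStr_iff 𝓕 he he'

end MP7d75
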