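import Pool.Agent.MP_7d75c8_lc.Bump

/-!
# Locally-`𝓕` maps between manifolds with `𝓕`-atlases
-/

open Set Filter Topology Metric Manifold
open scoped ContDiff

noncomputable section

namespace MP7d75

variable {n : ℕ} {𝓕 : Fam n} {M : Type*} [TopologicalSpace M] [ChartedSpace (E n) M]
  {N : Type*} [TopologicalSpace N] [ChartedSpace (E n) N]
  {P : Type*} [TopologicalSpace P] [ChartedSpace (E n) P]

/-- `h` is locally an `𝓕`-map at `x`. -/
def LFmap (𝒜 : FAtlas 𝓕 M) (ℬ : FAtlas 𝓕 N) (h : M → N) (x : M) : Prop :=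
  ContinuousAt h x ∧ ∀ f : N → ℝ, ℬ.LF f (h x) → 𝒜.LF (fun z => f (h z)) x

variable {𝒜 : FAtlas 𝓕 M} {ℬ : FAtlas 𝓕 N} {𝒞 : FAtlas 𝓕 P}

lemma FAtlas.lf_coord {j : ℕ} {x : M} (hj : x ∈ (𝒜.w j).source) (l : Fin n) :
    𝒜.LF (fun z => 𝒜.w j z l) x :=
  ⟨j, hj, _, 𝓕.coord l, by simp⟩

lemma LFmap.coord {h : M → N} {x : M} (hh : LFmap 𝒜 ℬ h x) {j : ℕ}
    (hj : h x ∈ (ℬ.w j).source) (l : Fin n) : 𝒜.LF (fun z => ℬ.w j (h z) l) x :=
  hh.2 _ (FAtlas.lf_coord hj l)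

lemma exists_vec_of_lf {x : M} {i : ℕ} (hi : x ∈ (𝒜.w i).source) {g : M → E n}
    (hg : ∀ l, 𝒜.LF (fun z => g z l) x) :
    ∃ u : E n → E n, VecIn (𝓕.A : Set (E n → ℝ)) u ∧ ∀ᶠ z in 𝓝 x, g z = u (𝒜.w i z) := by
  choose f hf hfe using fun l => (hg l).exists_at hi
  refine ⟨fun y => WithLp.toLp 2 (fun l => f l y), fun l => hf l, ?_⟩
  filter_upwards [eventually_all.2 hfe] with z hz
  ext l
  simpa using hz l

lemma LF_comp_vec {x : M} {g : M → E n} (hg : ∀ l, 𝒜.LF (fun z => g z l) x) {p : E n → ℝ}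
    (hp : p ∈ 𝓕.A) : 𝒜.LF (fun z => p (g z)) x := by
  obtain ⟨i, hi⟩ := 𝒜.cover x
  obtain ⟨u, hu, hue⟩ := exists_vec_of_lf hi hg
  refine ⟨i, hi, _, 𝓕.comp p hp u hu, ?_⟩
  filter_upwards [hue] with z hz
  rw [hz]

lemma lfmap_of_coord {h : M → N} {x : M} (hc : ContinuousAt h x) {j : ℕ}
    (hj : h x ∈ (ℬ.w j).source) (hl : ∀ l, 𝒜.LF (fun z => ℬ.w j (h z) l) x) :
    LFmap 𝒜 ℬ h x := by
  refine ⟨hc, fun f hf => ?_⟩
  obtain ⟨g, hg, hfg⟩ := hf.exists_at hj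
  refine (LF_comp_vec hl hg).congr ?_
  filter_upwards [hc.eventually hfg] with z hz
  rw [hz]

lemma LFmap.comp {g : N → P} {h : M → N} {x : M} (hg : LFmap ℬ 𝒞 g (h x))
    (hh : LFmap 𝒜 ℬ h x) : LFmap 𝒜 𝒞 (fun z => g (h z)) x :=
  ⟨ContinuousAt.comp (g := g) hg.1 hh.1, fun f hf => hh.2 _ (hg.2 f hf)⟩

lemma LFmap.congr {h k : M → N} {x : M} (hh : LFmap 𝒜 ℬ h x) (hk : ∀ᶠ z in 𝓝 x, k z = h z) :
    LFmap 𝒜 ℬ k x := by
  refine ⟨hh.1.congr (hk.mono fun z hz => hz.symm), fun f hf => ?_⟩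
  rw [hk.self_of_nhds] at hf
  refine (hh.2 f hf).congr ?_
  filter_upwards [hk] with z hz
  rw [hz]

lemma lfmap_id (x : M) : LFmap 𝒜 𝒜 (fun z => z) x := ⟨continuousAt_id, fun _ hf => hf⟩

lemma LFmap.eventually {h : M → N} (hc : Continuous h) {x : M} (hh : LFmap 𝒜 ℬ h x) :
    ∀ᶠ y in 𝓝 x, LFmap 𝒜 ℬ h y := by
  obtain ⟨j, hj⟩ := ℬ.cover (h x)
  have h1 := eventually_all.2 fun l => (hh.coord hj l).eventually
  filter_upwards [h1, hc.continuousAt.preimage_mem_nhds ((ℬ.w j).open_source.mem_nhds hj)]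
    with y hy hy'
  exact lfmap_of_coord hc.continuousAt hy' hy

/-- The inverse of a diffeomorphism that is locally `𝓕` at `x` is locally `𝓕` at `h x`. -/
lemma LFmap.symm [IsManifold 𝓘(ℝ, E n) ∞ M] [IsManifold 𝓘(ℝ, E n) ∞ N]
    (h : Diffeomorph 𝓘(ℝ, E n) 𝓘(ℝ, E n) M N ∞) {x : M}
    (hh : LFmap 𝒜 ℬ h x) : LFmap ℬ 𝒜 h.symm (h x) := by
  obtain ⟨i, hi⟩ := 𝒜.cover x
  obtain ⟨j, hj⟩ := ℬ.cover (h x)
  obtain ⟨u, hu, hue⟩ := exists_vec_of_lf hi (fun l => hh.coord hj l)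
  set e := 𝒜.w i with he
  set e' := ℬ.w j with he'
  -- the local inverse in coordinates
  set v0 : E n → E n := fun y => e (h.symm (e'.symm y)) with hv0
  have hv0d : ContMDiffAt 𝓘(ℝ, E n) 𝓘(ℝ, E n) ∞ v0 (e' (h x)) := by
    have h1 : ContMDiffAt 𝓘(ℝ, E n) 𝓘(ℝ, E n) ∞ e'.symm (e' (h x)) :=
      contMDiffAt_symm_of_mem_maximalAtlas (ℬ.mem j) (e'.map_source hj)
    have h2 : ContMDiffAt 𝓘(ℝ, E n) 𝓘(ℝ, E n) ∞ h.symm (e'.symm (e' (h x))) :=
      h.symm.contMDiff.contMDiffAt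
    have h3 : ContMDiffAt 𝓘(ℝ, E n) 𝓘(ℝ, E n) ∞ e (h.symm (e'.symm (e' (h x)))) := by
      apply contMDiffAt_of_mem_maximalAtlas (𝒜.mem i)
      rw [e'.left_inv hj]
      simpa using hi
    exact ContMDiffAt.comp (e' (h x)) h3 (h2.comp (e' (h x)) h1)
  have hv0u : ∀ᶠ y in 𝓝 (e x), v0 (u y) = y := by
    have h1 := (e.symm.continuousAt (e.map_source hi)).eventually
      (p := fun z => e' (h z) = u (e z)) (by simpa [e.left_inv hi] using hue)
    have h2 : ∀ᶠ y in 𝓝 (e x), h (e.symm y) ∈ e'.source := by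
      have hc : ContinuousAt (fun y => h (e.symm y)) (e x) :=
        ContinuousAt.comp (g := h) h.continuous.continuousAt (e.symm.continuousAt (e.map_source hi))
      exact hc.preimage_mem_nhds (e'.open_source.mem_nhds (by simpa [e.left_inv hi] using hj))
    filter_upwards [h1, h2, e.open_target.mem_nhds (e.map_source hi)] with y hy1 hy2 hy3
    rw [e.right_inv hy3] at hy1
    rw [← hy1]
    simp only [hv0]
    rw [e'.left_inv hy2]
    simp [e.right_inv hy3]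
  have hux : u (e x) = e' (h x) := hue.self_of_nhds.symm
  have hinj : Function.Injective (fderiv ℝ u (e x)) := by
    have hd1 : DifferentiableAt ℝ v0 (u (e x)) := by
      rw [hux]
      exact (hv0d.contDiffAt.differentiableAt (by simp))
    have hd2 : DifferentiableAt ℝ u (e x) :=
      ((𝓕.vec_smooth hu).differentiable (by simp)) _
    have h3 : fderiv ℝ (fun y => v0 (u y)) (e x) = (fderiv ℝ v0 (u (e x))).comp (fderiv ℝ u (e x)) :=
      fderiv_comp (e x) hd1 hd2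
    have h4 : fderiv ℝ (fun y => v0 (u y)) (e x) = ContinuousLinearMap.id ℝ (E n) := by
      have : (fun y => v0 (u y)) =ᶠ[𝓝 (e x)] fun y => y := hv0u
      rw [this.fderiv_eq]
      exact fderiv_id'
    intro a b hab
    have h5 : (fderiv ℝ v0 (u (e x))).comp (fderiv ℝ u (e x)) = ContinuousLinearMap.id ℝ (E n) := by
      rw [← h3, h4]
    have ha := congrArg (fun L : E n →L[ℝ] E n => L a) h5
    have hb := congrArg (fun L : E n →L[ℝ] E n => L b) h5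
    simp only [ContinuousLinearMap.comp_apply, ContinuousLinearMap.id_apply] at ha hb
    rw [← ha, ← hb, hab]
  obtain ⟨v, hv, hvu⟩ := 𝓕.inv u hu (e x) hinj
  have hsx : h.symm (h x) ∈ e.source := by simpa using hi
  refine lfmap_of_coord (j := i) h.symm.continuous.continuousAt hsx fun l => ?_
  refine ⟨j, hj, _, hv l, ?_⟩
  -- near `h x`, `e (h.symm y) l = v (e' y) l`
  have h1 : ∀ᶠ z in 𝓝 x, e z = v (e' (h z)) := by
    have := (e.continuousAt hi).eventually hvu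
    filter_upwards [this, hue] with z hz1 hz2
    rw [hz2, hz1]
  have h2 : Tendsto h.symm (𝓝 (h x)) (𝓝 x) := by
    have := h.symm.continuous.tendsto (h x)
    simpa using this
  filter_upwards [h2.eventually h1] with y hy
  have hy' : e (h.symm y) = v (e' y) := by simpa using hy
  show (e (h.symm y)) l = v (e' y) l
  rw [hy']

end MP7d75
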