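import Pool.Agent.MP_7d75c8_lc.Atlas

/-!
# Measurability of the construction
-/

open Set Filter Topology Metric MeasureTheory

noncomputable section

namespace MP7d75

variable {n : ℕ} {X : Type*} [MeasurableSpace X]

/-- `c` is a measurable family of gluing data. -/
structure MeasCode (c : X → GluingData n) : Prop where
  ball_sub : ∀ (i j : ℕ) (q : E n) (r : ℝ), MeasurableSet {x | closedBall q r ⊆ (c x).gdom i j}
  eval : ∀ (i j : ℕ) (q : E n), Measurable fun x => (c x).glue i j q

variable {c : X → GluingData n}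

lemma MeasCode.gdom (hc : MeasCode c) (i j : ℕ) :
    MeasurableSet {p : X × E n | p.2 ∈ (c p.1).gdom i j} := by
  have : {p : X × E n | p.2 ∈ (c p.1).gdom i j} =
      ⋃ (a : ℕ) (b : ℕ), {x | closedBall (ctr a : E n) (1 / ((b:ℝ) + 1)) ⊆ (c x).gdom i j} ×ˢ
        ball (ctr a : E n) (1 / ((b:ℝ) + 1)) := by
    ext ⟨x, y⟩
    simp only [mem_ofPred_eq, mem_iUnion, mem_prod]
    constructor
    · intro hy
      obtain ⟨δ, hδ, hball⟩ := Metric.isOpen_iff.1 ((c x).isOpen_gdom i j) y hy
      obtain ⟨b, hb⟩ := exists_nat_one_div_lt (show (0:ℝ) < δ / 2 by linarith)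
      have hr0 : (0:ℝ) < 1 / ((b:ℝ) + 1) := by positivity
      obtain ⟨a, ha⟩ := (TopologicalSpace.denseRange_denseSeq (E n)).exists_dist_lt y hr0
      refine ⟨a, b, fun z hz => hball ?_, ha⟩
      rw [mem_closedBall] at hz
      rw [mem_ball]
      have h1 := dist_triangle z (ctr a : E n) y
      have h2 : dist (ctr a : E n) y < 1 / ((b:ℝ) + 1) := by rw [dist_comm]; exact ha
      linarith
    · rintro ⟨a, b, h1, h2⟩
      exact h1 (ball_subset_closedBall h2)
  rw [this]
  exact MeasurableSet.iUnion fun a => MeasurableSet.iUnion fun b =>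
    (hc.ball_sub i j _ _).prod measurableSet_ball

lemma MeasCode.glue (hc : MeasCode c) (i j : ℕ) :
    Measurable fun p : X × E n => (c p.1).glue i j p.2 := by
  classical
  have happ : ∀ m : ℕ, Measurable fun p : X × E n =>
      (if p.2 ∈ (c p.1).gdom i j then
        (c p.1).glue i j (ctr (SimpleFunc.nearestPtInd (ctr : ℕ → E n) m p.2)) else 0) := by
    intro m
    refine Measurable.ite (hc.gdom i j) ?_ measurable_const
    have h1 : Measurable fun q : X × ℕ => (c q.1).glue i j (ctr q.2) :=
      measurable_from_prod_countable_left fun k => hc.eval i j (ctr k)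
    exact h1.comp (measurable_fst.prodMk
      ((SimpleFunc.nearestPtInd (ctr : ℕ → E n) m).measurable.comp measurable_snd))
  refine measurable_of_tendsto_metrizable happ ?_
  rw [tendsto_pi_nhds]
  rintro ⟨x, y⟩
  by_cases hy : y ∈ (c x).gdom i j
  · simp only [hy, if_true]
    have h1 : Tendsto (fun m => (ctr (SimpleFunc.nearestPtInd (ctr : ℕ → E n) m y) : E n)) atTop
        (𝓝 y) := by
      have := SimpleFunc.tendsto_nearestPt (e := (ctr : ℕ → E n)) (x := y)
        ((TopologicalSpace.denseRange_denseSeq (E n)).closure_eq ▸ mem_univ y)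
      simpa [SimpleFunc.nearestPt] using this
    have h2 : ContinuousAt ((c x).glue i j) y :=
      ((c x).glue_smooth i j).continuousOn.continuousAt (((c x).isOpen_gdom i j).mem_nhds hy)
    exact h2.tendsto.comp h1
  · simp only [hy, if_false]
    rw [(c x).glue_off i j y hy]
    exact tendsto_const_nhds

lemma meas_valid (hc : MeasCode c) (j : ℕ) : MeasurableSet {x | valid (c x) j} := by
  have : {x | valid (c x) j} =
      {x | closedBall (qq j : E n) (2 * rr j) ⊆ (c x).gdom (kk j) (kk j)} := by
    ext x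
    simp only [valid, mem_ofPred_eq, (c x).gdom_self]
  rw [this]
  exact hc.ball_sub _ _ _ _

variable {𝓕 : Fam n}

lemma meas_mval (hc : MeasCode c) {v : X → E n → E n}
    (hv : Measurable fun p : X × E n => v p.1 p.2) (j i : ℕ) :
    Measurable fun p : X × E n => mval 𝓕 (c p.1) (v p.1) j i p.2 := by
  classical
  have hg := hc.glue (kk j) (kk i)
  have hset : MeasurableSet {p : X × E n | valid (c p.1) i ∧
      p.2 ∈ (c p.1).gdom (kk j) (kk i) ∧
      (c p.1).glue (kk j) (kk i) p.2 ∈ ball (qq i : E n) (2 * rr i)} := by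
    have h1 : MeasurableSet {p : X × E n | valid (c p.1) i} :=
      measurable_fst (meas_valid hc i)
    exact h1.inter ((hc.gdom _ _).inter (hg measurableSet_ball))
  have h2 : Measurable fun p : X × E n => mu 𝓕 i j (v p.1 ((c p.1).glue (kk j) (kk i) p.2)) :=
    (𝓕.smooth _ (mu_mem 𝓕 i j)).continuous.measurable.comp
      (hv.comp (measurable_fst.prodMk hg))
  unfold mval
  exact Measurable.ite hset h2 measurable_const

lemma meas_del (hc : MeasCode c) {v g : X → E n → E n}
    (hv : Measurable fun p : X × E n => v p.1 p.2)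
    (hg : Measurable fun p : X × E n => g p.1 p.2) (j i : ℕ) {m : X → ℕ} (hm : Measurable m) :
    Measurable fun p : X × E n => del 𝓕 (c p.1) (v p.1) j i (g p.1) (𝓕.pe (m p.1)) p.2 := by
  unfold del
  refine (meas_mval hc hv j i).smul (Measurable.sub ?_ hg)
  have h1 : Measurable fun q : ℕ × E n => 𝓕.pe q.1 q.2 :=
    measurable_from_prod_countable_right fun k =>
      (𝓕.vec_smooth (𝓕.pe_mem k)).continuous.measurable
  exact h1.comp ((hm.comp measurable_fst).prodMk
    (hv.comp (measurable_fst.prodMk (hc.glue (kk j) (kk i)))))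

lemma meas_goodP (hc : MeasCode c) {v g : X → E n → E n}
    (hv : Measurable fun p : X × E n => v p.1 p.2)
    (hg : Measurable fun p : X × E n => g p.1 p.2) (j i m : ℕ) :
    MeasurableSet {x | GoodP 𝓕 (c x) (v x) j i (g x) m} := by
  have hd : ∀ y : E n, Measurable fun x => del 𝓕 (c x) (v x) j i (g x) (𝓕.pe m) y := by
    intro y
    exact (meas_del (𝓕 := 𝓕) hc hv hg j i (m := fun _ => m) measurable_const).comp
      (measurable_id.prodMk measurable_const)
  have : {x | GoodP 𝓕 (c x) (v x) j i (g x) m} = ⋂ (a : ℕ) (b : ℕ),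
      {x | (ctr a : E n) ∈ ball (qq j : E n) (2 * rr j) →
        (ctr b : E n) ∈ ball (qq j : E n) (2 * rr j) →
        ‖del 𝓕 (c x) (v x) j i (g x) (𝓕.pe m) (ctr a)‖ ≤ epsi j i ∧
        ‖del 𝓕 (c x) (v x) j i (g x) (𝓕.pe m) (ctr a) -
          del 𝓕 (c x) (v x) j i (g x) (𝓕.pe m) (ctr b)‖ ≤
          epsi j i * ‖(ctr a : E n) - ctr b‖} := by
    ext x
    simp only [GoodP, mem_ofPred_eq, mem_iInter]
  rw [this]
  refine MeasurableSet.iInter fun a => MeasurableSet.iInter fun b => ?_
  by_cases ha : (ctr a : E n) ∈ ball (qq j : E n) (2 * rr j)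
  · by_cases hb : (ctr b : E n) ∈ ball (qq j : E n) (2 * rr j)
    · simp only [ha, hb, true_imp_iff]
      exact (measurableSet_le (hd _).norm measurable_const).inter
        (measurableSet_le ((hd _).sub (hd _)).norm measurable_const)
    · simp [hb]
  · simp [ha]

lemma meas_sInf {S : X → Set ℕ} (hS : ∀ m, MeasurableSet {x | m ∈ S x}) :
    Measurable fun x => sInf (S x) := by
  refine measurable_to_countable' fun m => ?_
  have : (fun x => sInf (S x)) ⁻¹' {m} =
      ({x | m ∈ S x} ∩ ⋂ k ∈ Finset.range m, {x | k ∈ S x}ᶜ) ∪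
      ({x : X | m = 0} ∩ ⋂ k : ℕ, {x | k ∈ S x}ᶜ) := by
    ext x
    simp only [mem_preimage, mem_singleton_iff, mem_union, mem_inter_iff, mem_ofPred_eq,
      mem_iInter, mem_compl_iff, Finset.mem_range]
    constructor
    · rintro rfl
      rcases (S x).eq_empty_or_nonempty with h | h
      · right
        rw [h]
        simp
      · left
        exact ⟨Nat.sInf_mem h, fun k hk => Nat.notMem_of_lt_sInf hk⟩
    · rintro (⟨h1, h2⟩ | ⟨h1, h2⟩)
      · apply le_antisymm (Nat.sInf_le h1)
        by_contra hlt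
        push Not at hlt
        exact h2 _ hlt (Nat.sInf_mem ⟨m, h1⟩)
      · have : S x = ∅ := eq_empty_of_forall_notMem h2
        rw [this, h1]
        simp
  rw [this]
  refine MeasurableSet.union ?_ ?_
  · exact (hS m).inter (MeasurableSet.biInter (Set.to_countable _) fun k _ => (hS k).compl)
  · exact (MeasurableSet.const _).inter (MeasurableSet.iInter fun k => (hS k).compl)

lemma meas_inner (hc : MeasCode c) (j : ℕ) (l : ℕ)
    (hv : ∀ i < l, Measurable fun p : X × E n => vch 𝓕 (c p.1) i p.2) :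
    Measurable fun p : X × E n => inner 𝓕 (c p.1) (vch 𝓕 (c p.1)) j l p.2 := by
  induction l with
  | zero => exact measurable_snd
  | succ l ih =>
    have ih' := ih (fun i hi => hv i (hi.trans (Nat.lt_succ_self l)))
    have hvl := hv l (Nat.lt_succ_self l)
    have hp : Measurable fun x => pidx 𝓕 (c x) (vch 𝓕 (c x) l) j l
        (inner 𝓕 (c x) (vch 𝓕 (c x)) j l) :=
      meas_sInf (fun m => meas_goodP (v := fun x => vch 𝓕 (c x) l)
        (g := fun x => inner 𝓕 (c x) (vch 𝓕 (c x)) j l) hc hvl ih' j l m)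
    exact ih'.add (meas_del (v := fun x => vch 𝓕 (c x) l)
        (g := fun x => inner 𝓕 (c x) (vch 𝓕 (c x)) j l) hc hvl ih' j l hp)

theorem meas_vch (hc : MeasCode c) (j : ℕ) :
    Measurable fun p : X × E n => vch 𝓕 (c p.1) j p.2 := by
  induction j using Nat.strong_induction_on with
  | _ j ih =>
    have := meas_inner (𝓕 := 𝓕) hc j j ih
    have h2 : (fun p : X × E n => vch 𝓕 (c p.1) j p.2) =
        fun p : X × E n => inner 𝓕 (c p.1) (vch 𝓕 (c p.1)) j j p.2 := by
      ext1 p
      rw [vch_eq]
    rw [h2]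
    exact this

end MP7d75
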