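import Pool.Agent.MP_7d75c8_lc.StdPMap

/-!
# Gluing data as points of a measurable space: algebraic and Hausdorff conditions
-/

open Set Filter Topology Metric MeasureTheory
open scoped ContDiff

noncomputable section

namespace MP7d75

variable {n : ℕ}

/-- raw data -/
abbrev Raw (n : ℕ) := ℕ → ℕ → PMap n

/-- the raw data of gluing data -/
def rawOf (c : GluingData n) : Raw n := fun i j =>
  ⟨c.gdom i j, c.glue i j, c.isOpen_gdom i j, c.glue_smooth i j, c.glue_off i j⟩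

lemma pmap_continuousAt (P : PMap n) {x : E n} (hx : x ∈ P.dom) : ContinuousAt P.f x :=
  (P.smooth.contDiffAt (P.isOpen.mem_nhds hx)).continuousAt

lemma eq_of_dense {O : Set (E n)} (hO : IsOpen O) {f g : E n → E n}
    (hf : ∀ x ∈ O, ContinuousAt f x) (hg : ∀ x ∈ O, ContinuousAt g x)
    (h : ∀ a, cc a ∈ O → f (cc a) = g (cc a)) : ∀ x ∈ O, f x = g x := by
  intro x hx
  by_contra hne
  have h3 : ∀ᶠ y in 𝓝 x, f y ≠ g y := (hf x hx).ne_iff_eventually_ne (hg x hx) |>.1 hne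
  obtain ⟨U, hU, hUo, hxU⟩ := _root_.eventually_nhds_iff.1 (h3.and (hO.mem_nhds hx))
  obtain ⟨a, ha⟩ := cc_dense.exists_mem_open hUo ⟨x, hxU⟩
  exact (hU _ ha).1 (h a (hU _ ha).2)

lemma sub_of_cb {O O' : Set (E n)} (hO : IsOpen O) (h : ∀ p, cb p ⊆ O → cb p ⊆ O') : O ⊆ O' := by
  intro x hx
  obtain ⟨p, hp1, hp2⟩ := exists_bl (hO.mem_nhds hx)
  exact h p hp2 (bl_sub_cb p hp1)

/-- the domain of a composition -/
def Oz (z : Raw n) (i j k : ℕ) : Set (E n) := {x | x ∈ (z i j).dom ∧ (z i j).f x ∈ (z j k).dom}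

lemma isOpen_Oz (z : Raw n) (i j k : ℕ) : IsOpen (Oz z i j k) :=
  (z i j).smooth.continuousOn.isOpen_inter_preimage (z i j).isOpen (z j k).isOpen

lemma cb_sub_Oz_iff (z : Raw n) (i j k : ℕ) (p : ℕ × ℕ) : cb p ⊆ Oz z i j k ↔
    cb p ⊆ (z i j).dom ∧ ∃ F : Finset (ℕ × ℕ), (∀ r ∈ F, cb r ⊆ (z j k).dom) ∧
      ∀ a, cc a ∈ (bl p : Set (E n)) → (z i j).f (cc a) ∈ ⋃ r ∈ F, cb r := by
  constructor
  · intro h
    have h1 : cb p ⊆ (z i j).dom := fun x hx => (h hx).1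
    refine ⟨h1, ?_⟩
    have hc : IsCompact ((z i j).f '' cb p) :=
      (isCompact_cb p).image_of_continuousOn ((z i j).smooth.continuousOn.mono h1)
    have hs : (z i j).f '' cb p ⊆ (z j k).dom := by
      rintro _ ⟨x, hx, rfl⟩; exact (h hx).2
    obtain ⟨F, hF1, hF2⟩ := (sub_open_iff (z j k).isOpen hc).1 hs
    refine ⟨F, hF1, fun a ha => ?_⟩
    obtain ⟨r, hr, hr2⟩ := mem_iUnion₂.1 (hF2 ⟨cc a, bl_sub_cb p ha, rfl⟩)
    exact mem_iUnion₂.2 ⟨r, hr, bl_sub_cb r hr2⟩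
  · rintro ⟨h1, F, hF1, hF2⟩ x hx
    refine ⟨h1 hx, ?_⟩
    have hcl : IsClosed (⋃ r ∈ F, (cb r : Set (E n))) :=
      F.finite_toSet.isClosed_biUnion fun r _ => (isCompact_cb r).isClosed
    have h2 : x ∈ closure (bl p ∩ range cc) :=
      closure_minimal (cc_dense.open_subset_closure_inter (isOpen_bl p)) isClosed_closure
        (cb_closure p hx)
    have h3 : (z i j).f x ∈ closure (⋃ r ∈ F, (cb r : Set (E n))) := by
      apply (pmap_continuousAt (z i j) (h1 hx)).continuousWithinAt.mem_closure h2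
      rintro _ ⟨hy, a, rfl⟩
      exact hF2 a hy
    rw [hcl.closure_eq] at h3
    obtain ⟨r, hr, hr2⟩ := mem_iUnion₂.1 h3
    exact hF1 r hr hr2

/-- the algebraic conditions -/
structure AlgOK (z : Raw n) : Prop where
  d1 : ∀ i j p, cb p ⊆ (z i j).dom → cb p ⊆ (z i i).dom
  d2 : ∀ i a, cc a ∈ (z i i).dom → (z i i).f (cc a) = cc a
  d3 : ∀ i j p, cb p ⊆ (z i j).dom → cb p ⊆ Oz z i j i
  d4 : ∀ i j a, cc a ∈ (z i j).dom → (z j i).f ((z i j).f (cc a)) = cc a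
  d5 : ∀ i j k p, cb p ⊆ Oz z i j k → cb p ⊆ (z i k).dom
  d6 : ∀ i j k a, cc a ∈ Oz z i j k → (z j k).f ((z i j).f (cc a)) = (z i k).f (cc a)

/-- gluing data from raw data -/
def gluingOf (z : Raw n) (h : AlgOK z) : GluingData n where
  dom := fun i => (z i i).dom
  gdom := fun i j => (z i j).dom
  glue := fun i j => (z i j).f
  isOpen_gdom := fun i j => (z i j).isOpen
  gdom_subset := fun i j => sub_of_cb (z i j).isOpen (h.d1 i j)
  gdom_self := fun i => rfl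
  glue_self := fun i => eq_of_dense (z i i).isOpen (fun x hx => pmap_continuousAt _ hx)
    (fun x _ => continuousAt_id) (h.d2 i)
  glue_mem := fun i j x hx => (sub_of_cb (z i j).isOpen (h.d3 i j) hx).2
  glue_glue := fun i j => by
    have h3 := sub_of_cb (z i j).isOpen (h.d3 i j)
    refine eq_of_dense (z i j).isOpen (fun x hx => ?_) (fun x _ => continuousAt_id) (h.d4 i j)
    exact ContinuousAt.comp (g := (z j i).f) (pmap_continuousAt _ (h3 hx).2)
      (pmap_continuousAt _ hx)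
  glue_trans := fun i j k x hx hx' => by
    have h5 := sub_of_cb (isOpen_Oz z i j k) (h.d5 i j k)
    refine ⟨h5 ⟨hx, hx'⟩, ?_⟩
    refine eq_of_dense (isOpen_Oz z i j k) (f := fun x => (z j k).f ((z i j).f x))
      (g := (z i k).f) (fun y hy => ?_) (fun y hy => pmap_continuousAt _ (h5 hy))
      (h.d6 i j k) x ⟨hx, hx'⟩
    exact ContinuousAt.comp (g := (z j k).f) (pmap_continuousAt _ hy.2)
      (pmap_continuousAt _ hy.1)
  glue_smooth := fun i j => (z i j).smooth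
  glue_off := fun i j => (z i j).off

lemma algOK_rawOf (c : GluingData n) : AlgOK (rawOf c) where
  d1 := fun i j p h => h.trans (by
    show c.gdom i j ⊆ c.gdom i i
    rw [c.gdom_self]; exact c.gdom_subset i j)
  d2 := fun i a h => c.glue_self i _ (by
    have : cc a ∈ c.gdom i i := h
    rwa [c.gdom_self] at this)
  d3 := fun i j p h x hx => ⟨h hx, c.glue_mem i j x (h hx)⟩
  d4 := fun i j a h => c.glue_glue i j _ h
  d5 := fun i j k p h x hx => (c.glue_trans i j k x (h hx).1 (h hx).2).1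
  d6 := fun i j k a h => (c.glue_trans i j k _ h.1 h.2).2

/-- Hausdorff condition -/
def HB (z : Raw n) : Prop := ∀ i j p q, cb p ⊆ (z i i).dom → cb q ⊆ (z j j).dom →
  ∃ F : Finset (ℕ × ℕ), (∀ r ∈ F, cb r ⊆ (z i j).dom) ∧
    ∀ a, cc a ∈ (bl p : Set (E n)) → cc a ∈ (z i j).dom → (z i j).f (cc a) ∈ (bl q : Set (E n)) →
      cc a ∈ ⋃ r ∈ F, (cb r : Set (E n))

lemma pt_image_compact (c : GluingData n) (j : ℕ) {K : Set (E n)} (hK : IsCompact K)
    (hKj : K ⊆ c.dom j) : IsCompact (c.pt j '' {y | (y : E n) ∈ K}) := by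
  apply IsCompact.image _ (c.isOpenEmbedding_pt j).continuous
  rw [Subtype.isCompact_iff]
  convert hK using 1
  ext y
  constructor
  · rintro ⟨y, hy, rfl⟩; exact hy
  · intro hy; exact ⟨⟨y, hKj hy⟩, hy, rfl⟩

lemma hb_of_t2 (c : GluingData n) (h : T2Space c.Space) : HB (rawOf c) := by
  intro i j p q hp hq
  have hp' : cb p ⊆ c.dom i := by rw [← c.gdom_self]; exact hp
  have hq' : cb q ⊆ c.dom j := by rw [← c.gdom_self]; exact hq
  have hB : IsClosed (c.pt j '' {y | (y : E n) ∈ (cb q : Set (E n))}) :=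
    (pt_image_compact c j (isCompact_cb q) hq').isClosed
  have hA : IsCompact {x : c.dom i | (x : E n) ∈ (cb p : Set (E n))} := by
    rw [Subtype.isCompact_iff]
    convert isCompact_cb (n := n) p using 1
    ext y
    constructor
    · rintro ⟨y, hy, rfl⟩; exact hy
    · intro hy; exact ⟨⟨y, hp' hy⟩, hy, rfl⟩
  have hS : IsCompact (Subtype.val '' ({x : c.dom i | (x : E n) ∈ (cb p : Set (E n))} ∩
      (c.pt i) ⁻¹' (c.pt j '' {y | (y : E n) ∈ (cb q : Set (E n))}))) :=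
    (hA.inter_right (hB.preimage (c.isOpenEmbedding_pt i).continuous)).image
      continuous_subtype_val
  have hSs : (Subtype.val '' ({x : c.dom i | (x : E n) ∈ (cb p : Set (E n))} ∩
      (c.pt i) ⁻¹' (c.pt j '' {y | (y : E n) ∈ (cb q : Set (E n))}))) ⊆ c.gdom i j := by
    rintro _ ⟨x, ⟨_, y, _, hxy⟩, rfl⟩
    exact (c.pt_eq_pt.1 hxy.symm).1
  obtain ⟨F, hF1, hF2⟩ := (sub_open_iff (c.isOpen_gdom i j) hS).1 hSs
  refine ⟨F, hF1, fun a ha1 ha2 ha3 => ?_⟩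
  have hag : cc a ∈ c.gdom i j := ha2
  have hai : cc a ∈ c.dom i := c.gdom_subset i j hag
  have haj : c.glue i j (cc a) ∈ c.dom j := c.gdom_subset j i (c.glue_mem i j _ hag)
  have hmem : cc a ∈ (Subtype.val '' ({x : c.dom i | (x : E n) ∈ (cb p : Set (E n))} ∩
      (c.pt i) ⁻¹' (c.pt j '' {y | (y : E n) ∈ (cb q : Set (E n))}))) :=
    ⟨⟨cc a, hai⟩, ⟨bl_sub_cb p ha1, ⟨c.glue i j (cc a), haj⟩, bl_sub_cb q ha3,
      (c.pt_eq_pt.2 ⟨hag, rfl⟩).symm⟩, rfl⟩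
  obtain ⟨r, hr, hr2⟩ := mem_iUnion₂.1 (hF2 hmem)
  exact mem_iUnion₂.2 ⟨r, hr, bl_sub_cb r hr2⟩

lemma t2_of_hb (c : GluingData n) (h : HB (rawOf c)) : T2Space c.Space := by
  rw [t2Space_iff]
  intro s t hst
  obtain ⟨i, x, rfl⟩ := c.exists_rep s
  obtain ⟨j, y, rfl⟩ := c.exists_rep t
  -- separating neighbourhoods in coordinates
  have key : ∃ U V : Set (E n), IsOpen U ∧ IsOpen V ∧ (x : E n) ∈ U ∧ (y : E n) ∈ V ∧
      ∀ x' ∈ U, x' ∈ c.gdom i j → c.glue i j x' ∉ V := by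
    obtain ⟨p, hp1, hp2⟩ := exists_bl ((c.isOpen_dom i).mem_nhds x.2)
    obtain ⟨q, hq1, hq2⟩ := exists_bl ((c.isOpen_dom j).mem_nhds y.2)
    obtain ⟨F, hF1, hF2⟩ := h i j p q (by show cb p ⊆ c.gdom i i; rw [c.gdom_self]; exact hp2)
      (by show cb q ⊆ c.gdom j j; rw [c.gdom_self]; exact hq2)
    have hcl : IsClosed (⋃ r ∈ F, (cb r : Set (E n))) :=
      F.finite_toSet.isClosed_biUnion fun r _ => (isCompact_cb r).isClosed
    by_cases hxC : (x : E n) ∈ ⋃ r ∈ F, (cb r : Set (E n))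
    · obtain ⟨r, hr, hr2⟩ := mem_iUnion₂.1 hxC
      have hxg : (x : E n) ∈ c.gdom i j := hF1 r hr hr2
      have hne : c.glue i j x ≠ y := fun hh => hst (c.pt_eq_pt.2 ⟨hxg, hh⟩)
      obtain ⟨V1, V2, hV1, hV2, h1, h2, h3⟩ := t2_separation hne
      refine ⟨c.gdom i j ∩ c.glue i j ⁻¹' V1, V2, ?_, hV2, ⟨hxg, h1⟩, h2, ?_⟩
      · exact (c.glue_smooth i j).continuousOn.isOpen_inter_preimage (c.isOpen_gdom i j) hV1
      · rintro x' ⟨_, hx'⟩ _ hx'2
        exact disjoint_left.1 h3 hx' hx'2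
    · refine ⟨bl p \ ⋃ r ∈ F, (cb r : Set (E n)), bl q, (isOpen_bl p).sdiff hcl, isOpen_bl q,
        ⟨hp1, hxC⟩, hq1, ?_⟩
      rintro x' ⟨hx'1, hx'2⟩ hx'3 hx'4
      have hopen : IsOpen ((c.gdom i j ∩ c.glue i j ⁻¹' bl q) ∩
          (bl p \ ⋃ r ∈ F, (cb r : Set (E n)))) :=
        ((c.glue_smooth i j).continuousOn.isOpen_inter_preimage (c.isOpen_gdom i j)
          (isOpen_bl q)).inter ((isOpen_bl p).sdiff hcl)
      obtain ⟨a, ha⟩ := cc_dense.exists_mem_open hopen ⟨x', ⟨⟨hx'3, hx'4⟩, hx'1, hx'2⟩⟩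
      exact ha.2.2 (hF2 a ha.2.1 ha.1.1 ha.1.2)
  obtain ⟨U, V, hU, hV, hxU, hyV, hUV⟩ := key
  refine ⟨c.pt i '' (Subtype.val ⁻¹' U), c.pt j '' (Subtype.val ⁻¹' V),
    (c.isOpenEmbedding_pt i).isOpenMap _ (hU.preimage continuous_subtype_val),
    (c.isOpenEmbedding_pt j).isOpenMap _ (hV.preimage continuous_subtype_val),
    ⟨x, hxU, rfl⟩, ⟨y, hyV, rfl⟩, ?_⟩
  rw [disjoint_left]
  rintro _ ⟨x', hx', rfl⟩ ⟨y', hy', hxy⟩
  have h1 := c.pt_eq_pt.1 hxy.symm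
  exact hUV x' hx' h1.1 (by rw [h1.2]; exact hy')

end MP7d75
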