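import Pool.Agent.MP_7d75c8_lc.StdAlg

/-!
# The connectedness condition for gluing data
-/

open Set Filter Topology Metric MeasureTheory
open scoped ContDiff

noncomputable section

namespace MP7d75

variable {n : ℕ}

/-- adjacency of balls -/
def AdjB (z : Raw n) (i : ℕ) (p : ℕ × ℕ) (j : ℕ) (q : ℕ × ℕ) : Prop :=
  cb p ⊆ (z i i).dom ∧ cb q ⊆ (z j j).dom ∧
    ∃ a, cc a ∈ (bl p : Set (E n)) ∧ cc a ∈ (z i j).dom ∧
      (z i j).f (cc a) ∈ (bl q : Set (E n))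

/-- adjacency of indexed balls -/
def Adj (z : Raw n) (u v : ℕ × ℕ × ℕ) : Prop := AdjB z u.1 u.2 v.1 v.2

/-- connectedness condition -/
def KB (z : Raw n) : Prop := (∃ u : ℕ × ℕ × ℕ, cb u.2 ⊆ (z u.1 u.1).dom) ∧
  ∀ u v : ℕ × ℕ × ℕ, cb u.2 ⊆ (z u.1 u.1).dom → cb v.2 ⊆ (z v.1 v.1).dom →
    Relation.ReflTransGen (Adj z) u v

/-- image of a ball in the glued space -/
def ballB (c : GluingData n) (i : ℕ) (p : ℕ × ℕ) : Set c.Space :=
  c.pt i '' {x | (x : E n) ∈ (bl p : Set (E n))}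

lemma isOpen_ballB (c : GluingData n) (i : ℕ) (p : ℕ × ℕ) : IsOpen (ballB c i p) :=
  (c.isOpenEmbedding_pt i).isOpenMap _ ((isOpen_bl p).preimage continuous_subtype_val)

lemma cb_dom_iff' (c : GluingData n) (i : ℕ) (p : ℕ × ℕ) :
    cb p ⊆ (rawOf c i i).dom ↔ cb p ⊆ c.dom i := by
  have h : (rawOf c i i).dom = c.dom i := c.gdom_self i
  rw [h]

lemma adjB_iff (c : GluingData n) {i : ℕ} {p : ℕ × ℕ} {j : ℕ} {q : ℕ × ℕ} (hu : cb p ⊆ c.dom i)
    (hv : cb q ⊆ c.dom j) : AdjB (rawOf c) i p j q ↔ (ballB c i p ∩ ballB c j q).Nonempty := by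
  constructor
  · rintro ⟨_, _, a, h1, h2, h3⟩
    have hag : cc a ∈ c.gdom i j := h2
    have h3' : c.glue i j (cc a) ∈ (bl q : Set (E n)) := h3
    have hai : cc a ∈ c.dom i := hu (bl_sub_cb _ h1)
    have haj : c.glue i j (cc a) ∈ c.dom j := hv (bl_sub_cb _ h3')
    have e : c.pt i ⟨cc a, hai⟩ = c.pt j ⟨c.glue i j (cc a), haj⟩ := c.pt_eq_pt.2 ⟨hag, rfl⟩
    refine ⟨c.pt i ⟨cc a, hai⟩, ?_, ?_⟩
    · exact mem_image_of_mem _ h1
    · rw [e]
      exact mem_image_of_mem _ h3'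
  · rintro ⟨s, hs1, hs2⟩
    obtain ⟨x, hx, rfl⟩ := hs1
    obtain ⟨y, hy, hxy⟩ := hs2
    have h1 := c.pt_eq_pt.1 hxy.symm
    have hopen : IsOpen ((c.gdom i j ∩ c.glue i j ⁻¹' bl q) ∩ bl p) :=
      ((c.glue_smooth _ _).continuousOn.isOpen_inter_preimage (c.isOpen_gdom _ _)
          (isOpen_bl _)).inter (isOpen_bl _)
    have hy' : c.glue i j x ∈ (bl q : Set (E n)) := by rw [h1.2]; exact hy
    obtain ⟨a, ha⟩ := cc_dense.exists_mem_open hopen ⟨(x : E n), ⟨⟨h1.1, hy'⟩, hx⟩⟩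
    exact ⟨(cb_dom_iff' c i p).2 hu, (cb_dom_iff' c j q).2 hv, a, ha.2, ha.1.1, ha.1.2⟩

lemma cc_mem_bl (p : ℕ × ℕ) : (cc p.1 : E n) ∈ (bl p : Set (E n)) := by
  unfold bl
  apply mem_ball_self
  positivity

lemma ballB_nonempty (c : GluingData n) {i : ℕ} {p : ℕ × ℕ} (hu : cb p ⊆ c.dom i) :
    (ballB c i p).Nonempty := by
  have h : (cc p.1 : E n) ∈ (bl p : Set (E n)) := cc_mem_bl p
  have h2 : (cc p.1 : E n) ∈ c.dom i := hu (bl_sub_cb _ h)
  exact ⟨c.pt i ⟨cc p.1, h2⟩, mem_image_of_mem _ h⟩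

lemma exists_ballB (c : GluingData n) (s : c.Space) :
    ∃ (i : ℕ) (p : ℕ × ℕ), cb p ⊆ c.dom i ∧ s ∈ ballB c i p := by
  obtain ⟨i, x, rfl⟩ := c.exists_rep s
  obtain ⟨p, hp1, hp2⟩ := exists_bl ((c.isOpen_dom i).mem_nhds x.2)
  exact ⟨i, p, hp2, mem_image_of_mem _ hp1⟩

lemma ballB_preconnected (c : GluingData n) {i : ℕ} {p : ℕ × ℕ} (hu : cb p ⊆ c.dom i) :
    IsPreconnected (ballB c i p) := by
  have h1 : IsPreconnected (bl p : Set (E n)) := by
    unfold bl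
    exact (convex_ball _ _).isPreconnected
  have : PreconnectedSpace (bl p : Set (E n)) := isPreconnected_iff_preconnectedSpace.1 h1
  have h2 : Continuous fun x : (bl p : Set (E n)) =>
      c.pt i ⟨x.1, hu (bl_sub_cb _ x.2)⟩ :=
    (c.isOpenEmbedding_pt i).continuous.comp (Continuous.subtype_mk continuous_subtype_val _)
  have h3 := isPreconnected_range h2
  have h4 : ballB c i p = range fun x : (bl p : Set (E n)) =>
      c.pt i ⟨x.1, hu (bl_sub_cb _ x.2)⟩ := by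
    ext s
    constructor
    · rintro ⟨x, hx, rfl⟩; exact ⟨⟨x.1, hx⟩, rfl⟩
    · rintro ⟨x, rfl⟩; exact ⟨⟨x.1, hu (bl_sub_cb _ x.2)⟩, x.2, rfl⟩
  rw [h4]
  exact h3

/-- image of an indexed ball -/
def ballIm (c : GluingData n) (u : ℕ × ℕ × ℕ) : Set c.Space := ballB c u.1 u.2

/-- validity of an indexed ball -/
def Val (c : GluingData n) (u : ℕ × ℕ × ℕ) : Prop := cb u.2 ⊆ c.dom u.1

lemma val_iff (c : GluingData n) (u : ℕ × ℕ × ℕ) :
    cb u.2 ⊆ (rawOf c u.1 u.1).dom ↔ Val c u := cb_dom_iff' c u.1 u.2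

lemma adj_iff (c : GluingData n) {u v : ℕ × ℕ × ℕ} (hu : Val c u) (hv : Val c v) :
    Adj (rawOf c) u v ↔ (ballIm c u ∩ ballIm c v).Nonempty := adjB_iff c hu hv

lemma exists_ballIm (c : GluingData n) (s : c.Space) :
    ∃ u : ℕ × ℕ × ℕ, Val c u ∧ s ∈ ballIm c u := by
  obtain ⟨i, p, h1, h2⟩ := exists_ballB c s
  exact ⟨(i, p), h1, h2⟩

lemma ballIm_nonempty (c : GluingData n) {u : ℕ × ℕ × ℕ} (hu : Val c u) :
    (ballIm c u).Nonempty := ballB_nonempty c hu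

lemma ballIm_preconnected (c : GluingData n) {u : ℕ × ℕ × ℕ} (hu : Val c u) :
    IsPreconnected (ballIm c u) := ballB_preconnected c hu

lemma isOpen_ballIm (c : GluingData n) (u : ℕ × ℕ × ℕ) : IsOpen (ballIm c u) :=
  isOpen_ballB c u.1 u.2

lemma Adj.val_left {c : GluingData n} {u v : ℕ × ℕ × ℕ} (h : Adj (rawOf c) u v) : Val c u :=
  (val_iff c u).1 h.1

lemma Adj.val_right {c : GluingData n} {u v : ℕ × ℕ × ℕ} (h : Adj (rawOf c) u v) : Val c v :=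
  (val_iff c v).1 h.2.1

lemma Adj.meet {c : GluingData n} {u v : ℕ × ℕ × ℕ} (h : Adj (rawOf c) u v) :
    (ballIm c u ∩ ballIm c v).Nonempty := (adj_iff c h.val_left h.val_right).1 h

/-- the union of the balls reachable from `u` -/
def reach (c : GluingData n) (u : ℕ × ℕ × ℕ) : Set c.Space :=
  {s | ∃ w, Relation.ReflTransGen (Adj (rawOf c)) u w ∧ Val c w ∧ s ∈ ballIm c w}

lemma isOpen_reach (c : GluingData n) (u : ℕ × ℕ × ℕ) : IsOpen (reach c u) := by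
  rw [isOpen_iff_mem_nhds]
  rintro s ⟨w, h1, h2, h3⟩
  filter_upwards [(isOpen_ballIm c w).mem_nhds h3] with t ht
  exact ⟨w, h1, h2, ht⟩

lemma isClosed_reach (c : GluingData n) (u : ℕ × ℕ × ℕ) : IsClosed (reach c u) := by
  rw [← isOpen_compl_iff, isOpen_iff_mem_nhds]
  intro s hs
  obtain ⟨w, hw, hsw⟩ := exists_ballIm c s
  filter_upwards [(isOpen_ballIm c w).mem_nhds hsw] with t ht htR
  obtain ⟨w', hw'1, hw'2, htw'⟩ := htR
  have hadj : Adj (rawOf c) w' w := (adj_iff c hw'2 hw).2 ⟨t, htw', ht⟩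
  exact hs ⟨w, hw'1.tail hadj, hw, hsw⟩

lemma kb_of_conn (c : GluingData n) (h : ConnectedSpace c.Space) : KB (rawOf c) := by
  constructor
  · obtain ⟨s⟩ := h.toNonempty
    obtain ⟨u, hu, -⟩ := exists_ballIm c s
    exact ⟨u, (val_iff c u).2 hu⟩
  · intro u v hu hv
    have hu' := (val_iff c u).1 hu
    have hv' := (val_iff c v).1 hv
    have hRu : reach c u = univ := by
      refine (IsClopen.eq_univ ⟨isClosed_reach c u, isOpen_reach c u⟩ ?_)
      obtain ⟨s, hs⟩ := ballIm_nonempty c hu'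
      exact ⟨s, u, Relation.ReflTransGen.refl, hu', hs⟩
    obtain ⟨s, hs⟩ := ballIm_nonempty c hv'
    have : s ∈ reach c u := hRu ▸ mem_univ s
    obtain ⟨w, hw1, hw2, hsw⟩ := this
    exact hw1.tail ((adj_iff c hw2 hv').2 ⟨s, hsw, hs⟩)

lemma chain_preconnected (c : GluingData n) {u v : ℕ × ℕ × ℕ} (hu : Val c u)
    (h : Relation.ReflTransGen (Adj (rawOf c)) u v) :
    ∃ S : Set c.Space, IsPreconnected S ∧ ballIm c u ⊆ S ∧ ballIm c v ⊆ S := by
  induction h with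
  | refl => exact ⟨ballIm c u, ballIm_preconnected c hu, Subset.rfl, Subset.rfl⟩
  | @tail w w' _ hadj ih =>
    obtain ⟨S, hS, hS1, hS2⟩ := ih
    obtain ⟨t, ht1, ht2⟩ := Adj.meet hadj
    exact ⟨S ∪ ballIm c w', IsPreconnected.union t (hS2 ht1) ht2 hS
      (ballIm_preconnected c (Adj.val_right hadj)),
      hS1.trans subset_union_left, subset_union_right⟩

lemma conn_of_kb (c : GluingData n) (h : KB (rawOf c)) : ConnectedSpace c.Space := by
  obtain ⟨⟨u0, hu0⟩, hK⟩ := h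
  obtain ⟨s0, -⟩ := ballIm_nonempty c ((val_iff c u0).1 hu0)
  have hpre : IsPreconnected (univ : Set c.Space) := by
    apply isPreconnected_of_forall_pair
    intro s _ t _
    obtain ⟨u, hu, hsu⟩ := exists_ballIm c s
    obtain ⟨v, hv, htv⟩ := exists_ballIm c t
    obtain ⟨S, hS, hS1, hS2⟩ := chain_preconnected c hu
      (hK u v ((val_iff c u).2 hu) ((val_iff c v).2 hv))
    exact ⟨S, subset_univ _, hS1 hsu, hS2 htv, hS⟩
  exact { isPreconnected_univ := hpre, toNonempty := ⟨s0⟩ }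

end MP7d75
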