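import Pool.Agent.MP_7d75c8_lc.Defs

/-!
# The set of evaluations of smooth functions is Borel

By the Lusin-Souslin theorem: the smooth functions, identified with their sequences of iterated
derivatives, form a closed subset of a Polish space, and evaluation on a dense sequence is
injective and continuous.
-/

open Set Filter Topology Metric MeasureTheory
open scoped ContDiff

noncomputable section

namespace MP7d75

/-- A measurable embedding into a standard Borel space makes the source standard Borel. -/
lemma standardBorel_of_embedding {α β : Type*} [MeasurableSpace α] [MeasurableSpace β]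
    [StandardBorelSpace β] {f : α → β} (hf : MeasurableEmbedding f) : StandardBorelSpace α := by
  have h1 : StandardBorelSpace (range f) := hf.measurableSet_range.standardBorel
  have e : α ≃ᵐ range f := hf.equivRange
  let := upgradeStandardBorel (range f)
  let t : TopologicalSpace α := TopologicalSpace.induced e inferInstance
  have hP : PolishSpace α := e.toEquiv.polishSpace_induced
  have hB : BorelSpace α := by
    constructor
    have h2 : ‹MeasurableSpace α› = MeasurableSpace.comap e inferInstance := by
      apply le_antisymm
      · intro s hs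
        refine ⟨e '' s, e.measurableSet_image.2 hs, ?_⟩
        exact e.injective.preimage_image s
      · rintro _ ⟨s, hs, rfl⟩
        exact e.measurable hs
    rw [h2, borel_comap]
    congr 1
    exact eq_borel_upgradeStandardBorel (range f)
  exact ⟨⟨t, hB, hP⟩⟩

variable {n : ℕ}

lemma fd_multilinear (n k : ℕ) : FiniteDimensional ℝ (E n [×k]→L[ℝ] E n) := by
  induction k with
  | zero =>
    exact Module.Finite.equiv (continuousMultilinearCurryFin0 ℝ (E n) (E n)).symm.toLinearEquiv
  | succ k ih =>
    exact Module.Finite.equiv
      (continuousMultilinearCurryLeftEquiv ℝ (fun _ : Fin (k + 1) => E n) (E n)).symm.toLinearEquiv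

instance (n k : ℕ) : FiniteDimensional ℝ (E n [×k]→L[ℝ] E n) := fd_multilinear n k

instance (n k : ℕ) : ProperSpace (E n [×k]→L[ℝ] E n) :=
  FiniteDimensional.proper_real _

instance jetCM (n k : ℕ) : TopologicalSpace.IsCompletelyMetrizableSpace
    C(E n, E n [×k]→L[ℝ] E n) :=
  @TopologicalSpace.IsCompletelyMetrizableSpace.of_completeSpace_metrizable
    C(E n, E n [×k]→L[ℝ] E n) _ _ _ _

lemma pi_cm {ι : Type*} [Countable ι] {X : ι → Type*} [∀ i, TopologicalSpace (X i)]
    [∀ i, TopologicalSpace.IsCompletelyMetrizableSpace (X i)] :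
    TopologicalSpace.IsCompletelyMetrizableSpace (∀ i, X i) := by
  let := fun i => TopologicalSpace.upgradeIsCompletelyMetrizable (X i)
  infer_instance

/-- the space of candidates for jets -/
abbrev JetSpace (n : ℕ) := ∀ k : ℕ, C(E n, E n [×k]→L[ℝ] E n)

instance jetPolish (n : ℕ) : PolishSpace (JetSpace n) := by
  have : TopologicalSpace.IsCompletelyMetrizableSpace (JetSpace n) := pi_cm
  infer_instance

/-- jets of smooth functions -/
def jets (n : ℕ) : Set (JetSpace n) :=
  {p | ∀ (k : ℕ) (x : E n), HasFDerivAt (fun y => p k y) ((p (k + 1) x).curryLeft) x}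

lemma jets_closed (n : ℕ) : IsClosed (jets n) := by
  rw [isClosed_iff_clusterPt]
  intro p hp k x
  have hne : (comap (Subtype.val : jets n → JetSpace n) (𝓝 p)).NeBot := by
    rw [comap_neBot_iff]
    intro t ht
    obtain ⟨q, hq1, hq2⟩ := (clusterPt_principal_iff.1 hp) t ht
    exact ⟨⟨q, hq2⟩, hq1⟩
  have hproj : ∀ k, Tendsto (fun q : jets n => q.1 k) (comap Subtype.val (𝓝 p)) (𝓝 (p k)) :=
    fun k => ((continuous_apply k).tendsto p).comp tendsto_comap
  refine hasFDerivAt_of_tendstoLocallyUniformlyOn (l := comap (Subtype.val : jets n → JetSpace n)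
    (𝓝 p)) (s := univ) (f := fun q y => q.1 k y)
    (f' := fun q y => (q.1 (k + 1) y).curryLeft) (g := fun y => p k y)
    (g' := fun y => (p (k + 1) y).curryLeft) isOpen_univ ?_ ?_ ?_ (mem_univ x)
  · have h1 := (ContinuousMap.tendsto_iff_tendstoLocallyUniformly.1 (hproj (k + 1)))
    rw [tendstoLocallyUniformlyOn_univ]
    have h2 : UniformContinuous (fun m : E n [×(k + 1)]→L[ℝ] E n => m.curryLeft) :=
      (continuousMultilinearCurryLeftEquiv ℝ (fun _ : Fin (k + 1) => E n) (E n)).isometry.uniformContinuous
    exact h2.comp_tendstoLocallyUniformly h1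
  · intro q y _
    exact q.2 k y
  · intro y _
    exact ((continuous_eval_const y).tendsto (p k)).comp (hproj k)

/-- the function of a jet -/
def jetFun (p : JetSpace n) (x : E n) : E n := (p 0 x).curry0

lemma jet_taylor {p : JetSpace n} (hp : p ∈ jets n) :
    HasFTaylorSeriesUpTo ∞ (jetFun p) (fun x k => p k x) where
  zero_eq := fun x => rfl
  fderiv := fun m _ x => hp m x
  cont := fun m _ => (p m).continuous

/-- Evaluations of smooth functions on a dense sequence form a Borel set. -/
theorem measurableSet_smooth {c : ℕ → E n} (hc : DenseRange c) :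
    MeasurableSet {g : ℕ → E n | ∃ f : E n → E n, ContDiff ℝ ∞ f ∧ ∀ a, f (c a) = g a} := by
  have h1 : {g : ℕ → E n | ∃ f : E n → E n, ContDiff ℝ ∞ f ∧ ∀ a, f (c a) = g a} =
      (fun (p : JetSpace n) (a : ℕ) => jetFun p (c a)) '' jets n := by
    ext g
    constructor
    · rintro ⟨f, hf, hg⟩
      have hT := hf.ftaylorSeries
      refine ⟨fun k => ⟨fun x => iteratedFDeriv ℝ k f x, hf.continuous_iteratedFDeriv
        (by exact_mod_cast le_top)⟩, ?_, ?_⟩
      · intro k x
        exact hT.fderiv k (by exact_mod_cast WithTop.coe_lt_top k) x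
      · ext1 a
        rw [← hg a]
        exact hT.zero_eq (c a)
    · rintro ⟨p, hp, rfl⟩
      exact ⟨jetFun p, (jet_taylor hp).contDiff, fun a => rfl⟩
  rw [h1]
  apply (jets_closed n).measurableSet_image_of_continuousOn_injOn
  · apply Continuous.continuousOn
    apply continuous_pi
    intro a
    have h2 : Continuous fun p : JetSpace n => p 0 (c a) :=
      (continuous_eval_const (c a)).comp (continuous_apply 0)
    exact (continuousMultilinearCurryFin0 ℝ (E n) (E n)).continuous.comp h2
  · intro p hp q hq hpq
    have hcp : Continuous (jetFun p) := (jet_taylor hp).contDiff.continuous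
    have hcq : Continuous (jetFun q) := (jet_taylor hq).contDiff.continuous
    have hfun : jetFun p = jetFun q := hc.equalizer hcp hcq (by
      ext1 a
      exact congrFun hpq a)
    ext1 k
    ext1 x
    have e1 := (jet_taylor hp).eq_iteratedFDeriv (m := k) (by exact_mod_cast le_top) x
    have e2 := (jet_taylor hq).eq_iteratedFDeriv (m := k) (by exact_mod_cast le_top) x
    rw [hfun] at e1
    exact e1.trans e2.symm

end MP7d75
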