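import Pool.Agent.MP_7d75c8_lc.StdConn

/-!
# Measurability of the conditions
-/

open Set Filter Topology Metric MeasureTheory
open scoped ContDiff

noncomputable section

namespace MP7d75

variable {n : ℕ}

/-! ## Measurability of the conditions -/

section meas

lemma m_dom (i j : ℕ) (p : ℕ × ℕ) : MeasurableSet {z : Raw n | cb p ⊆ (z i j).dom} :=
  pmap_measurable_dom (P := fun z : Raw n => z i j)
    ((measurable_pi_apply j).comp (measurable_pi_apply i)) p

lemma m_F (i j : ℕ) : MeasF (fun z : Raw n => (z i j).dom) (fun z : Raw n => (z i j).f) :=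
  measF_pmap (m_dom i j) (pmap_measurable_eval (P := fun z : Raw n => z i j)
    ((measurable_pi_apply j).comp (measurable_pi_apply i)))

lemma m_mem (i j : ℕ) (y : E n) : MeasurableSet {z : Raw n | y ∈ (z i j).dom} :=
  (m_F i j).measO.mem_const (m_F i j).isOpen y

lemma m_eval (i j : ℕ) (y : E n) : Measurable fun z : Raw n => (z i j).f y := (m_F i j).eval' y

lemma m_comp (i j k l : ℕ) (y : E n) :
    Measurable fun z : Raw n => (z k l).f ((z i j).f y) :=
  (m_F k l).joint.comp (measurable_id.prodMk (m_eval i j y))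

lemma m_Oz (i j k : ℕ) (p : ℕ × ℕ) : MeasurableSet {z : Raw n | cb p ⊆ Oz z i j k} := by
  have h0 : {z : Raw n | cb p ⊆ Oz z i j k} = {z : Raw n | cb p ⊆ (z i j).dom} ∩
      {z : Raw n | ∃ F : Finset (ℕ × ℕ), (∀ r ∈ F, cb r ⊆ (z j k).dom) ∧
      ∀ a, cc a ∈ (bl p : Set (E n)) → (z i j).f (cc a) ∈ ⋃ r ∈ F, (cb r : Set (E n))} := by
    ext z
    exact cb_sub_Oz_iff z i j k p
  rw [h0]
  refine MeasurableSet.inter (m_dom i j p) ?_
  have : {z : Raw n | ∃ F : Finset (ℕ × ℕ), (∀ r ∈ F, cb r ⊆ (z j k).dom) ∧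
      ∀ a, cc a ∈ (bl p : Set (E n)) → (z i j).f (cc a) ∈ ⋃ r ∈ F, (cb r : Set (E n))} =
      ⋃ F : Finset (ℕ × ℕ), (⋂ r ∈ F, {z : Raw n | cb r ⊆ (z j k).dom}) ∩
      ⋂ a : ℕ, {z : Raw n | cc a ∈ (bl p : Set (E n)) →
        (z i j).f (cc a) ∈ ⋃ r ∈ F, (cb r : Set (E n))} := by
    ext z
    simp only [mem_ofPred_eq, mem_iUnion, mem_inter_iff, mem_iInter]
  rw [this]
  refine MeasurableSet.iUnion fun F => MeasurableSet.inter ?_ ?_
  · exact MeasurableSet.biInter (Set.to_countable _) fun r _ => m_dom j k r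
  · refine MeasurableSet.iInter fun a => MeasurableSet.imp (MeasurableSet.const _) ?_
    exact m_eval i j (cc a) (MeasurableSet.biUnion (Set.to_countable _)
      fun r _ => (isCompact_cb r).isClosed.measurableSet)

lemma m_alg : MeasurableSet {z : Raw n | AlgOK z} := by
  have : {z : Raw n | AlgOK z} =
      (⋂ (i : ℕ) (j : ℕ) (p : ℕ × ℕ),
        {z : Raw n | cb p ⊆ (z i j).dom → cb p ⊆ (z i i).dom}) ∩
      ((⋂ (i : ℕ) (a : ℕ), {z : Raw n | cc a ∈ (z i i).dom → (z i i).f (cc a) = cc a}) ∩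
      ((⋂ (i : ℕ) (j : ℕ) (p : ℕ × ℕ),
        {z : Raw n | cb p ⊆ (z i j).dom → cb p ⊆ Oz z i j i}) ∩
      ((⋂ (i : ℕ) (j : ℕ) (a : ℕ),
        {z : Raw n | cc a ∈ (z i j).dom → (z j i).f ((z i j).f (cc a)) = cc a}) ∩
      ((⋂ (i : ℕ) (j : ℕ) (k : ℕ) (p : ℕ × ℕ),
        {z : Raw n | cb p ⊆ Oz z i j k → cb p ⊆ (z i k).dom}) ∩
      (⋂ (i : ℕ) (j : ℕ) (k : ℕ) (a : ℕ), {z : Raw n | cc a ∈ Oz z i j k →
        (z j k).f ((z i j).f (cc a)) = (z i k).f (cc a)}))))) := by
    ext z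
    simp only [mem_ofPred_eq, mem_inter_iff, mem_iInter]
    constructor
    · rintro ⟨h1, h2, h3, h4, h5, h6⟩
      exact ⟨h1, h2, h3, h4, h5, h6⟩
    · rintro ⟨h1, h2, h3, h4, h5, h6⟩
      exact ⟨h1, h2, h3, h4, h5, h6⟩
  rw [this]
  refine MeasurableSet.inter ?_ (MeasurableSet.inter ?_ (MeasurableSet.inter ?_
    (MeasurableSet.inter ?_ (MeasurableSet.inter ?_ ?_))))
  · exact MeasurableSet.iInter fun i => MeasurableSet.iInter fun j => MeasurableSet.iInter fun p =>
      MeasurableSet.imp (m_dom i j p) (m_dom i i p)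
  · exact MeasurableSet.iInter fun i => MeasurableSet.iInter fun a =>
      MeasurableSet.imp (m_mem i i _) (m_eval i i (cc a) (measurableSet_singleton _))
  · exact MeasurableSet.iInter fun i => MeasurableSet.iInter fun j => MeasurableSet.iInter fun p =>
      MeasurableSet.imp (m_dom i j p) (m_Oz i j i p)
  · exact MeasurableSet.iInter fun i => MeasurableSet.iInter fun j => MeasurableSet.iInter fun a =>
      MeasurableSet.imp (m_mem i j _) (m_comp i j j i (cc a) (measurableSet_singleton _))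
  · exact MeasurableSet.iInter fun i => MeasurableSet.iInter fun j => MeasurableSet.iInter fun k =>
      MeasurableSet.iInter fun p => MeasurableSet.imp (m_Oz i j k p) (m_dom i k p)
  · refine MeasurableSet.iInter fun i => MeasurableSet.iInter fun j => MeasurableSet.iInter fun k =>
      MeasurableSet.iInter fun a => MeasurableSet.imp ?_ ?_
    · have h1 : MeasO (fun z : Raw n => Oz z i j k) := fun p => m_Oz i j k p
      exact h1.mem_const (fun z => isOpen_Oz z i j k) (cc a)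
    · exact measurableSet_eq_fun (m_comp i j j k (cc a)) (m_eval i k (cc a))

lemma m_hb : MeasurableSet {z : Raw n | HB z} := by
  have : {z : Raw n | HB z} = ⋂ (i : ℕ) (j : ℕ) (p : ℕ × ℕ) (q : ℕ × ℕ),
      {z : Raw n | cb p ⊆ (z i i).dom → cb q ⊆ (z j j).dom →
      z ∈ ⋃ F : Finset (ℕ × ℕ), (⋂ r ∈ F, {z : Raw n | cb r ⊆ (z i j).dom}) ∩
      ⋂ a : ℕ, {z : Raw n | cc a ∈ (bl p : Set (E n)) → cc a ∈ (z i j).dom →
        (z i j).f (cc a) ∈ (bl q : Set (E n)) → cc a ∈ ⋃ r ∈ F, (cb r : Set (E n))}} := by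
    ext z
    simp only [HB, mem_ofPred_eq, mem_iInter, mem_iUnion, mem_inter_iff]
  rw [this]
  refine MeasurableSet.iInter fun i => MeasurableSet.iInter fun j => MeasurableSet.iInter fun p =>
      MeasurableSet.iInter fun q => MeasurableSet.imp (m_dom i i p)
      (MeasurableSet.imp (m_dom j j q) ?_)
  refine MeasurableSet.iUnion fun F => MeasurableSet.inter ?_ ?_
  · exact MeasurableSet.biInter (Set.to_countable _) fun r _ => m_dom i j r
  · exact MeasurableSet.iInter fun a => MeasurableSet.imp (MeasurableSet.const _)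
      (MeasurableSet.imp (m_mem i j _) (MeasurableSet.imp
        (m_eval i j (cc a) (isOpen_bl q).measurableSet) (MeasurableSet.const _)))

lemma m_adj (u v : ℕ × ℕ × ℕ) : MeasurableSet {z : Raw n | Adj z u v} := by
  have : {z : Raw n | Adj z u v} = {z : Raw n | cb u.2 ⊆ (z u.1 u.1).dom} ∩
      ({z : Raw n | cb v.2 ⊆ (z v.1 v.1).dom} ∩ ⋃ a : ℕ, ({z : Raw n | cc a ∈ (bl u.2 : Set (E n))} ∩
        ({z : Raw n | cc a ∈ (z u.1 v.1).dom} ∩
        {z : Raw n | (z u.1 v.1).f (cc a) ∈ (bl v.2 : Set (E n))}))) := by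
    ext z
    simp only [Adj, AdjB, mem_ofPred_eq, mem_iUnion, mem_inter_iff]
  rw [this]
  exact (m_dom _ _ _).inter ((m_dom _ _ _).inter (MeasurableSet.iUnion fun a =>
    (MeasurableSet.const _).inter ((m_mem _ _ _).inter
      (m_eval _ _ (cc a) (isOpen_bl _).measurableSet))))

/-- chains of bounded length -/
def Chain (z : Raw n) : ℕ → ℕ × ℕ × ℕ → ℕ × ℕ × ℕ → Prop
  | 0 => fun u v => u = v
  | k + 1 => fun u v => ∃ w, Chain z k u w ∧ Adj z w v

lemma rtg_iff (z : Raw n) (u v : ℕ × ℕ × ℕ) :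
    Relation.ReflTransGen (Adj z) u v ↔ ∃ k, Chain z k u v := by
  constructor
  · intro h
    induction h with
    | refl => exact ⟨0, rfl⟩
    | tail _ hadj ih =>
      obtain ⟨k, hk⟩ := ih
      exact ⟨k + 1, _, hk, hadj⟩
  · rintro ⟨k, hk⟩
    induction k generalizing v with
    | zero => rw [show u = v from hk]
    | succ k ih =>
      obtain ⟨w, hw1, hw2⟩ := hk
      exact (ih w hw1).tail hw2

lemma m_chain (k : ℕ) (u v : ℕ × ℕ × ℕ) : MeasurableSet {z : Raw n | Chain z k u v} := by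
  induction k generalizing v with
  | zero => exact MeasurableSet.const _
  | succ k ih =>
    have : {z : Raw n | Chain z (k + 1) u v} =
        ⋃ w, ({z : Raw n | Chain z k u w} ∩ {z : Raw n | Adj z w v}) := by
      ext z
      simp only [Chain, mem_ofPred_eq, mem_iUnion, mem_inter_iff]
    rw [this]
    exact MeasurableSet.iUnion fun w => (ih w).inter (m_adj w v)

lemma m_kb : MeasurableSet {z : Raw n | KB z} := by
  have : {z : Raw n | KB z} = (⋃ u : ℕ × ℕ × ℕ, {z : Raw n | cb u.2 ⊆ (z u.1 u.1).dom}) ∩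
      ⋂ (u : ℕ × ℕ × ℕ) (v : ℕ × ℕ × ℕ), {z : Raw n | cb u.2 ⊆ (z u.1 u.1).dom →
        cb v.2 ⊆ (z v.1 v.1).dom → z ∈ ⋃ k, {z : Raw n | Chain z k u v}} := by
    ext z
    simp only [KB, mem_ofPred_eq, mem_iUnion, mem_inter_iff, mem_iInter, rtg_iff]
  rw [this]
  refine (MeasurableSet.iUnion fun u => m_dom _ _ _).inter (MeasurableSet.iInter fun u =>
    MeasurableSet.iInter fun v => MeasurableSet.imp (m_dom _ _ _) (MeasurableSet.imp (m_dom _ _ _)
      (MeasurableSet.iUnion fun k => m_chain k u v)))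

end meas


end MP7d75
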