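import Pool.Agent.MP_7d75c8_lc.StdJets

/-!
# The standard Borel space of smooth maps with open domain
-/

open Set Filter Topology Metric MeasureTheory
open scoped ContDiff

noncomputable section

namespace MP7d75

variable {n : ℕ}

/-- A smooth map defined on an open subset of `ℝⁿ`, extended by `0`. -/
@[ext] structure PMap (n : ℕ) where
  dom : Set (E n)
  f : E n → E n
  isOpen : IsOpen dom
  smooth : ContDiffOn ℝ ∞ f dom
  off : ∀ x, x ∉ dom → f x = 0

instance (n : ℕ) : MeasurableSpace (PMap n) :=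
  MeasurableSpace.generateFrom
    ({S | ∃ (q : E n) (r : ℝ), S = {P : PMap n | closedBall q r ⊆ P.dom}} ∪
     {S | ∃ (q : E n) (B : Set (E n)), MeasurableSet B ∧ S = {P : PMap n | P.f q ∈ B}})

/-- centres -/
def cc (a : ℕ) : E n := TopologicalSpace.denseSeq (E n) a

lemma cc_dense : DenseRange (cc : ℕ → E n) := TopologicalSpace.denseRange_denseSeq _

/-- rational open balls -/
def bl (p : ℕ × ℕ) : Set (E n) := ball (cc p.1) (1 / ((p.2:ℝ) + 1))

/-- rational closed balls -/
def cb (p : ℕ × ℕ) : Set (E n) := closedBall (cc p.1) (1 / ((p.2:ℝ) + 1))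

lemma bl_sub_cb (p : ℕ × ℕ) : (bl p : Set (E n)) ⊆ cb p := ball_subset_closedBall
lemma isOpen_bl (p : ℕ × ℕ) : IsOpen (bl p : Set (E n)) := isOpen_ball
lemma isCompact_cb (p : ℕ × ℕ) : IsCompact (cb p : Set (E n)) := isCompact_closedBall _ _

lemma cb_closure (p : ℕ × ℕ) : (cb p : Set (E n)) ⊆ closure (bl p) := by
  have : (0:ℝ) < 1 / ((p.2:ℝ) + 1) := by positivity
  unfold cb bl
  rw [closure_ball _ this.ne']

lemma exists_bl {y : E n} {U : Set (E n)} (hU : U ∈ 𝓝 y) : ∃ p, y ∈ (bl p : Set (E n)) ∧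
    (cb p : Set (E n)) ⊆ U := by
  obtain ⟨δ, hδ, hball⟩ := Metric.mem_nhds_iff.1 hU
  obtain ⟨b, hb⟩ := exists_nat_one_div_lt (show (0:ℝ) < δ / 2 by linarith)
  have hr0 : (0:ℝ) < 1 / ((b:ℝ) + 1) := by positivity
  obtain ⟨a, ha⟩ := cc_dense.exists_dist_lt y hr0
  refine ⟨(a, b), ha, fun z hz => hball ?_⟩
  unfold cb at hz
  rw [mem_closedBall] at hz
  rw [mem_ball]
  have h1 := dist_triangle z (cc a) y
  rw [dist_comm (cc a : E n) y] at h1
  simp only at hz
  linarith

lemma sub_open_iff {U K : Set (E n)} (hU : IsOpen U) (hK : IsCompact K) :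
    K ⊆ U ↔ ∃ F : Finset (ℕ × ℕ), (∀ p ∈ F, (cb p : Set (E n)) ⊆ U) ∧ K ⊆ ⋃ p ∈ F, bl p := by
  classical
  constructor
  · intro h
    choose! p hp1 hp2 using fun y (hy : y ∈ K) => exists_bl (hU.mem_nhds (h hy))
    obtain ⟨t, ht, hcov⟩ := hK.elim_nhds_subcover (fun y => bl (p y))
      (fun y hy => (isOpen_bl _).mem_nhds (hp1 y hy))
    refine ⟨t.image p, ?_, ?_⟩
    · intro q hq
      obtain ⟨y, hy, rfl⟩ := Finset.mem_image.1 hq
      exact hp2 y (ht y hy)
    · intro y hy
      obtain ⟨x, hx, hxy⟩ := mem_iUnion₂.1 (hcov hy)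
      exact mem_iUnion₂.2 ⟨p x, Finset.mem_image_of_mem _ hx, hxy⟩
  · rintro ⟨F, h1, h2⟩ y hy
    obtain ⟨p, hp, hyp⟩ := mem_iUnion₂.1 (h2 hy)
    exact h1 p hp (bl_sub_cb p hyp)

/-! ## Measurable families -/

section family

variable {X : Type*} [MeasurableSpace X]

/-- A measurable family of open sets. -/
def MeasO (O : X → Set (E n)) : Prop := ∀ p : ℕ × ℕ, MeasurableSet {x | cb p ⊆ O x}

lemma MeasO.compact {O : X → Set (E n)} (hO : MeasO O) (ho : ∀ x, IsOpen (O x)) {K : Set (E n)}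
    (hK : IsCompact K) : MeasurableSet {x | K ⊆ O x} := by
  have : {x | K ⊆ O x} = ⋃ F : Finset (ℕ × ℕ), ⋃ (_ : K ⊆ ⋃ p ∈ F, bl p),
      ⋂ p ∈ F, {x | cb p ⊆ O x} := by
    ext x
    simp only [mem_ofPred_eq, mem_iUnion, mem_iInter]
    rw [sub_open_iff (ho x) hK]
    constructor
    · rintro ⟨F, h1, h2⟩; exact ⟨F, h2, h1⟩
    · rintro ⟨F, h2, h1⟩; exact ⟨F, h1, h2⟩
  rw [this]
  exact MeasurableSet.iUnion fun F => MeasurableSet.iUnion fun _ =>
    MeasurableSet.biInter (Set.to_countable _) fun p _ => hO p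

lemma MeasO.mem {O : X → Set (E n)} (hO : MeasO O) (ho : ∀ x, IsOpen (O x)) :
    MeasurableSet {p : X × E n | p.2 ∈ O p.1} := by
  have : {p : X × E n | p.2 ∈ O p.1} = ⋃ q : ℕ × ℕ, {x | cb q ⊆ O x} ×ˢ bl q := by
    ext ⟨x, y⟩
    simp only [mem_ofPred_eq, mem_iUnion, mem_prod]
    constructor
    · intro hy
      obtain ⟨q, h1, h2⟩ := exists_bl ((ho x).mem_nhds hy)
      exact ⟨q, h2, h1⟩
    · rintro ⟨q, h1, h2⟩
      exact h1 (bl_sub_cb q h2)
  rw [this]
  exact MeasurableSet.iUnion fun q => (hO q).prod (isOpen_bl q).measurableSet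

lemma MeasO.mem_const {O : X → Set (E n)} (hO : MeasO O) (ho : ∀ x, IsOpen (O x)) (y : E n) :
    MeasurableSet {x | y ∈ O x} := by
  have h1 : Measurable fun x : X => (x, y) := measurable_id.prodMk measurable_const
  exact h1 (hO.mem ho)

/-- A measurable family of functions that are continuous on the open sets `O x`
and vanish elsewhere. -/
structure MeasF (O : X → Set (E n)) (f : X → E n → E n) : Prop where
  isOpen : ∀ x, IsOpen (O x)
  measO : MeasO O
  cont : ∀ x, ContinuousOn (f x) (O x)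
  off : ∀ x y, y ∉ O x → f x y = 0
  eval : ∀ a : ℕ, Measurable fun x => f x (cc a)

lemma MeasF.joint {O : X → Set (E n)} {f : X → E n → E n} (h : MeasF O f) :
    Measurable fun p : X × E n => f p.1 p.2 := by
  classical
  have happ : ∀ m : ℕ, Measurable fun p : X × E n =>
      (if p.2 ∈ O p.1 then
        f p.1 (cc (SimpleFunc.nearestPtInd (cc : ℕ → E n) m p.2)) else 0) := by
    intro m
    refine Measurable.ite (h.measO.mem h.isOpen) ?_ measurable_const
    have h1 : Measurable fun q : X × ℕ => f q.1 (cc q.2) :=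
      measurable_from_prod_countable_left fun k => h.eval k
    exact h1.comp (measurable_fst.prodMk
      ((SimpleFunc.nearestPtInd (cc : ℕ → E n) m).measurable.comp measurable_snd))
  refine measurable_of_tendsto_metrizable happ ?_
  rw [tendsto_pi_nhds]
  rintro ⟨x, y⟩
  by_cases hy : y ∈ O x
  · simp only [hy, if_true]
    have h1 : Tendsto (fun m => (cc (SimpleFunc.nearestPtInd (cc : ℕ → E n) m y) : E n)) atTop
        (𝓝 y) := by
      have := SimpleFunc.tendsto_nearestPt (e := (cc : ℕ → E n)) (x := y)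
        (cc_dense.closure_eq ▸ mem_univ y)
      simpa [SimpleFunc.nearestPt] using this
    have h2 : ContinuousAt (f x) y := (h.cont x).continuousAt ((h.isOpen x).mem_nhds hy)
    exact h2.tendsto.comp h1
  · simp only [hy, if_false]
    rw [h.off x y hy]
    exact tendsto_const_nhds

lemma MeasF.eval' {O : X → Set (E n)} {f : X → E n → E n} (h : MeasF O f) (y : E n) :
    Measurable fun x => f x y :=
  h.joint.comp (measurable_id.prodMk measurable_const)

end family

/-! ## The embedding of `PMap n` -/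

/-- the code of a partial map -/
def pcode (P : PMap n) : (ℕ × ℕ → Prop) × (ℕ → E n) :=
  (fun p => cb p ⊆ P.dom, fun a => P.f (cc a))

/-- cutoff functions positive exactly on `bl p` -/
lemma exists_chi (n : ℕ) (p : ℕ × ℕ) : ∃ χ : E n → ℝ, ContDiff ℝ ∞ χ ∧
    Function.support χ = bl p := by
  obtain ⟨f, h1, h2, -⟩ := (isOpen_bl (n := n) p).exists_contDiff_support_eq (n := (⊤ : ℕ∞))
  exact ⟨f, h2, h1⟩

/-- cutoff function -/
def chi (n : ℕ) (p : ℕ × ℕ) : E n → ℝ := (exists_chi n p).choose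
lemma chi_smooth (p : ℕ × ℕ) : ContDiff ℝ ∞ (chi n p) := (exists_chi n p).choose_spec.1
lemma chi_support (p : ℕ × ℕ) : Function.support (chi n p) = bl p :=
  (exists_chi n p).choose_spec.2
lemma chi_ne {p : ℕ × ℕ} {x : E n} (hx : x ∈ (bl p : Set (E n))) : chi n p x ≠ 0 := by
  rw [← chi_support] at hx; exact hx
lemma chi_zero {p : ℕ × ℕ} {x : E n} (hx : x ∉ (bl p : Set (E n))) : chi n p x = 0 := by
  rw [← chi_support] at hx; simpa using hx

/-- the Borel set of codes -/
def pvalid (n : ℕ) : Set ((ℕ × ℕ → Prop) × (ℕ → E n)) :=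
  {z | (∀ p, z.1 p ↔ ∃ F : Finset (ℕ × ℕ), (∀ q ∈ F, z.1 q) ∧
        (cb p : Set (E n)) ⊆ ⋃ q ∈ F, bl q) ∧
    (∀ p, z.1 p → (fun a => chi n p (cc a) • z.2 a) ∈
        {g : ℕ → E n | ∃ f : E n → E n, ContDiff ℝ ∞ f ∧ ∀ a, f (cc a) = g a}) ∧
    (∀ a, (∀ p, z.1 p → cc a ∉ (bl p : Set (E n))) → z.2 a = 0)}

lemma pcode_range (n : ℕ) : range (pcode : PMap n → _) = pvalid n := by
  classical
  apply Subset.antisymm
  · rintro _ ⟨P, rfl⟩
    refine ⟨fun p => ?_, fun p hp => ?_, fun a ha => ?_⟩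
    · exact sub_open_iff P.isOpen (isCompact_cb p)
    · refine ⟨fun x => chi n p x • P.f x, ?_, fun a => rfl⟩
      rw [contDiff_iff_contDiffAt]
      intro x
      by_cases hx : x ∈ (cb p : Set (E n))
      · exact (chi_smooth p).contDiffAt.smul
          (P.smooth.contDiffAt (P.isOpen.mem_nhds (hp hx)))
      · have : (fun x => chi n p x • P.f x) =ᶠ[𝓝 x] fun _ => 0 := by
          filter_upwards [(isCompact_cb p).isClosed.isOpen_compl.mem_nhds hx] with y hy
          rw [chi_zero (fun h => hy (bl_sub_cb p h)), zero_smul]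
        exact contDiffAt_const.congr_of_eventuallyEq this
    · apply P.off
      intro h
      obtain ⟨p, hp1, hp2⟩ := exists_bl (P.isOpen.mem_nhds h)
      exact ha p hp2 hp1
  · rintro ⟨b, g⟩ ⟨h1, h2, h3⟩
    simp only at h1 h2 h3
    choose! F hF1 hF2 using h2
    set U : Set (E n) := ⋃ p ∈ {p | b p}, bl p with hU
    have hUo : IsOpen U := isOpen_biUnion fun p _ => isOpen_bl p
    have hmemU : ∀ x, x ∈ U ↔ ∃ p, b p ∧ x ∈ (bl p : Set (E n)) := by
      intro x
      simp only [hU, mem_iUnion, mem_ofPred_eq, exists_prop]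
    have hcons : ∀ p q, b p → b q → ∀ x, chi n q x • F p x = chi n p x • F q x := by
      intro p q hp hq x
      have e1 : Continuous fun x => chi n q x • F p x :=
        (chi_smooth q).continuous.smul (hF1 p hp).continuous
      have e2 : Continuous fun x => chi n p x • F q x :=
        (chi_smooth p).continuous.smul (hF1 q hq).continuous
      have e3 := cc_dense.equalizer e1 e2 (by
        ext1 a
        simp only [Function.comp_apply, hF2 p hp a, hF2 q hq a, smul_smul, mul_comm])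
      exact congrFun e3 x
    set G : E n → E n := fun x => if h : ∃ p, b p ∧ x ∈ (bl p : Set (E n)) then
      (chi n h.choose x)⁻¹ • F h.choose x else 0 with hG
    have hGp : ∀ p x, b p → x ∈ (bl p : Set (E n)) → G x = (chi n p x)⁻¹ • F p x := by
      intro p x hp hx
      have h : ∃ p, b p ∧ x ∈ (bl p : Set (E n)) := ⟨p, hp, hx⟩
      simp only [hG, h, dite_true]
      have e1 := chi_ne hx
      have e2 := chi_ne h.choose_spec.2
      have e3 := hcons p h.choose hp h.choose_spec.1 x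
      have e4 : F h.choose x = (chi n p x)⁻¹ • chi n h.choose x • F p x := by
        rw [e3, smul_smul, inv_mul_cancel₀ e1, one_smul]
      rw [e4, smul_smul, smul_smul]
      congr 1
      field_simp
    have hGs : ContDiffOn ℝ ∞ G U := by
      intro x hx
      obtain ⟨p, hp, hxp⟩ := (hmemU x).1 hx
      apply ContDiffAt.contDiffWithinAt
      have e1 : ContDiffAt ℝ ∞ (fun x => (chi n p x)⁻¹ • F p x) x :=
        ((chi_smooth p).contDiffAt.inv (chi_ne hxp)).smul (hF1 p hp).contDiffAt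
      refine e1.congr_of_eventuallyEq ?_
      filter_upwards [(isOpen_bl p).mem_nhds hxp] with y hy
      exact hGp p y hp hy
    have hGoff : ∀ x, x ∉ U → G x = 0 := by
      intro x hx
      have : ¬ ∃ p, b p ∧ x ∈ (bl p : Set (E n)) := fun h => hx ((hmemU x).2 h)
      simp only [hG, this, dite_false]
    refine ⟨⟨U, G, hUo, hGs, hGoff⟩, ?_⟩
    unfold pcode
    simp only
    congr 1
    · ext p
      rw [h1 p]
      constructor
      · intro h
        have hcov : (cb p : Set (E n)) ⊆ ⋃ q : {q // b q}, bl q.1 := by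
          intro x hx
          obtain ⟨q, hq, hxq⟩ := (hmemU x).1 (h hx)
          exact mem_iUnion.2 ⟨⟨q, hq⟩, hxq⟩
        obtain ⟨t, ht⟩ := (isCompact_cb p).elim_finite_subcover _
          (fun q : {q // b q} => isOpen_bl q.1) hcov
        refine ⟨t.image Subtype.val, ?_, ?_⟩
        · intro q hq
          obtain ⟨q', _, rfl⟩ := Finset.mem_image.1 hq
          exact q'.2
        · intro x hx
          obtain ⟨q, hq, hxq⟩ := mem_iUnion₂.1 (ht hx)
          exact mem_iUnion₂.2 ⟨q.1, Finset.mem_image_of_mem _ hq, hxq⟩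
      · rintro ⟨t, ht1, ht2⟩ x hx
        obtain ⟨q, hq, hxq⟩ := mem_iUnion₂.1 (ht2 hx)
        exact (hmemU x).2 ⟨q, ht1 q hq, hxq⟩
    · ext1 a
      by_cases ha : ∃ p, b p ∧ cc a ∈ (bl p : Set (E n))
      · obtain ⟨p, hp, hap⟩ := ha
        rw [hGp p _ hp hap, hF2 p hp a, smul_smul, inv_mul_cancel₀ (chi_ne hap), one_smul]
      · rw [hGoff _ (fun h => ha ((hmemU _).1 h))]
        symm
        apply h3
        intro p hp hap
        exact ha ⟨p, hp, hap⟩

lemma pvalid_measurable (n : ℕ) : MeasurableSet (pvalid n) := by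
  have hb : ∀ p, MeasurableSet {z : (ℕ × ℕ → Prop) × (ℕ → E n) | z.1 p} := fun p =>
    ((measurable_pi_apply p).comp measurable_fst).setOf
  have e1 : MeasurableSet {z : (ℕ × ℕ → Prop) × (ℕ → E n) |
      ∀ p, z.1 p ↔ ∃ F : Finset (ℕ × ℕ), (∀ q ∈ F, z.1 q) ∧
        (cb p : Set (E n)) ⊆ ⋃ q ∈ F, bl q} := by
    have : {z : (ℕ × ℕ → Prop) × (ℕ → E n) |
      ∀ p, z.1 p ↔ ∃ F : Finset (ℕ × ℕ), (∀ q ∈ F, z.1 q) ∧
        (cb p : Set (E n)) ⊆ ⋃ q ∈ F, bl q} = ⋂ p, {z : (ℕ × ℕ → Prop) × (ℕ → E n) |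
      z.1 p ↔ ∃ F : Finset (ℕ × ℕ), (∀ q ∈ F, z.1 q) ∧
        (cb p : Set (E n)) ⊆ ⋃ q ∈ F, bl q} := by
      ext z; simp only [mem_ofPred_eq, mem_iInter]
    rw [this]
    refine MeasurableSet.iInter fun p => ?_
    refine MeasurableSet.iff (hb p) ?_
    have : {z : (ℕ × ℕ → Prop) × (ℕ → E n) | ∃ F : Finset (ℕ × ℕ), (∀ q ∈ F, z.1 q) ∧
        (cb p : Set (E n)) ⊆ ⋃ q ∈ F, bl q} = ⋃ F : Finset (ℕ × ℕ),
        ⋃ (_ : (cb p : Set (E n)) ⊆ ⋃ q ∈ F, bl q), ⋂ q ∈ F,
          {z : (ℕ × ℕ → Prop) × (ℕ → E n) | z.1 q} := by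
      ext z
      simp only [mem_ofPred_eq, mem_iUnion, mem_iInter]
      constructor
      · rintro ⟨F, g1, g2⟩; exact ⟨F, g2, g1⟩
      · rintro ⟨F, g2, g1⟩; exact ⟨F, g1, g2⟩
    rw [this]
    exact MeasurableSet.iUnion fun F => MeasurableSet.iUnion fun _ =>
      MeasurableSet.biInter (Set.to_countable _) fun q _ => hb q
  have e2 : MeasurableSet {z : (ℕ × ℕ → Prop) × (ℕ → E n) |
      ∀ p, z.1 p → (fun a => chi n p (cc a) • z.2 a) ∈
        {g : ℕ → E n | ∃ f : E n → E n, ContDiff ℝ ∞ f ∧ ∀ a, f (cc a) = g a}} := by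
    have : {z : (ℕ × ℕ → Prop) × (ℕ → E n) |
      ∀ p, z.1 p → (fun a => chi n p (cc a) • z.2 a) ∈
        {g : ℕ → E n | ∃ f : E n → E n, ContDiff ℝ ∞ f ∧ ∀ a, f (cc a) = g a}} =
        ⋂ p, {z : (ℕ × ℕ → Prop) × (ℕ → E n) |
      z.1 p → (fun a => chi n p (cc a) • z.2 a) ∈
        {g : ℕ → E n | ∃ f : E n → E n, ContDiff ℝ ∞ f ∧ ∀ a, f (cc a) = g a}} := by
      ext z; simp only [mem_ofPred_eq, mem_iInter]
    rw [this]
    refine MeasurableSet.iInter fun p => ?_
    refine MeasurableSet.imp (hb p) ?_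
    have hm : Measurable fun z : (ℕ × ℕ → Prop) × (ℕ → E n) =>
        (fun a => chi n p (cc a) • z.2 a : ℕ → E n) := by
      rw [measurable_pi_iff]
      intro a
      have h0 : Measurable fun z : (ℕ × ℕ → Prop) × (ℕ → E n) => z.2 a :=
        (measurable_pi_apply a).comp measurable_snd
      exact h0.const_smul (chi n p (cc a))
    exact hm (measurableSet_smooth cc_dense)
  have e3 : MeasurableSet {z : (ℕ × ℕ → Prop) × (ℕ → E n) |
      ∀ a, (∀ p, z.1 p → cc a ∉ (bl p : Set (E n))) → z.2 a = 0} := by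
    have : {z : (ℕ × ℕ → Prop) × (ℕ → E n) |
      ∀ a, (∀ p, z.1 p → cc a ∉ (bl p : Set (E n))) → z.2 a = 0} =
        ⋂ a, {z : (ℕ × ℕ → Prop) × (ℕ → E n) |
      (∀ p, z.1 p → cc a ∉ (bl p : Set (E n))) → z.2 a = 0} := by
      ext z; simp only [mem_ofPred_eq, mem_iInter]
    rw [this]
    refine MeasurableSet.iInter fun a => ?_
    refine MeasurableSet.imp ?_ ?_
    · have : {z : (ℕ × ℕ → Prop) × (ℕ → E n) | ∀ p, z.1 p → cc a ∉ (bl p : Set (E n))} =
          ⋂ p, {z : (ℕ × ℕ → Prop) × (ℕ → E n) | z.1 p → cc a ∉ (bl p : Set (E n))} := by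
        ext z; simp only [mem_ofPred_eq, mem_iInter]
      rw [this]
      exact MeasurableSet.iInter fun p => MeasurableSet.imp (hb p) (MeasurableSet.const _)
    · have h0 : Measurable fun z : (ℕ × ℕ → Prop) × (ℕ → E n) => z.2 a :=
        (measurable_pi_apply a).comp measurable_snd
      exact h0 (measurableSet_singleton 0)
  exact e1.inter (e2.inter e3)

lemma measF_pmap {X : Type*} [MeasurableSpace X] {P : X → PMap n}
    (h1 : ∀ p, MeasurableSet {x | cb p ⊆ (P x).dom}) (h2 : ∀ a, Measurable fun x => (P x).f (cc a)) :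
    MeasF (fun x => (P x).dom) (fun x => (P x).f) where
  isOpen := fun x => (P x).isOpen
  measO := h1
  cont := fun x => (P x).smooth.continuousOn
  off := fun x => (P x).off
  eval := h2

/-- the criterion for measurability of a map to `PMap` -/
lemma measurable_pmap {X : Type*} [MeasurableSpace X] {P : X → PMap n}
    (h1 : ∀ p, MeasurableSet {x | cb p ⊆ (P x).dom}) (h2 : ∀ a, Measurable fun x => (P x).f (cc a)) :
    Measurable P := by
  have hF := measF_pmap h1 h2
  refine measurable_generateFrom ?_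
  rintro S (⟨q, r, rfl⟩ | ⟨q, B, hB, rfl⟩)
  · exact hF.measO.compact hF.isOpen (isCompact_closedBall q r)
  · exact hF.eval' q hB

lemma pmap_measurable_dom {X : Type*} [MeasurableSpace X] {P : X → PMap n} (h : Measurable P)
    (p : ℕ × ℕ) : MeasurableSet {x | cb p ⊆ (P x).dom} :=
  h (MeasurableSpace.measurableSet_generateFrom (Or.inl ⟨_, _, rfl⟩))

lemma pmap_measurable_eval {X : Type*} [MeasurableSpace X] {P : X → PMap n} (h : Measurable P)
    (a : ℕ) : Measurable fun x => (P x).f (cc a) := fun B hB =>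
  h (MeasurableSpace.measurableSet_generateFrom (Or.inr ⟨_, B, hB, rfl⟩))

lemma pcode_embedding (n : ℕ) : MeasurableEmbedding (pcode : PMap n → _) := by
  have hinj : Function.Injective (pcode : PMap n → _) := by
    intro P Q h
    have h1 : ∀ p, (cb p ⊆ P.dom ↔ cb p ⊆ Q.dom) := fun p =>
      iff_of_eq (congrFun (congrArg Prod.fst h) p)
    have h2 : ∀ a, P.f (cc a) = Q.f (cc a) := fun a => congrFun (congrArg Prod.snd h) a
    have hdom : P.dom = Q.dom := by
      ext x
      constructor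
      · intro hx
        obtain ⟨p, hp1, hp2⟩ := exists_bl (P.isOpen.mem_nhds hx)
        exact (h1 p).1 hp2 (bl_sub_cb p hp1)
      · intro hx
        obtain ⟨p, hp1, hp2⟩ := exists_bl (Q.isOpen.mem_nhds hx)
        exact (h1 p).2 hp2 (bl_sub_cb p hp1)
    refine PMap.ext hdom ?_
    ext1 x
    by_cases hx : x ∈ P.dom
    · by_contra hne
      have c1 : ContinuousAt P.f x := (P.smooth.contDiffAt (P.isOpen.mem_nhds hx)).continuousAt
      have c2 : ContinuousAt Q.f x :=
        (Q.smooth.contDiffAt (Q.isOpen.mem_nhds (hdom ▸ hx))).continuousAt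
      have h3 : ∀ᶠ y in 𝓝 x, P.f y ≠ Q.f y := c1.ne_iff_eventually_ne c2 |>.1 hne
      obtain ⟨U, hU, hUo, hxU⟩ := _root_.eventually_nhds_iff.1 h3
      obtain ⟨a, ha⟩ := cc_dense.exists_mem_open hUo ⟨x, hxU⟩
      exact hU _ ha (h2 a)
    · rw [P.off x hx, Q.off x (hdom ▸ hx)]
  have hmeas : Measurable (pcode : PMap n → _) := by
    apply Measurable.prodMk
    · rw [measurable_pi_iff]
      intro p
      exact measurable_to_prop (by
        have := pmap_measurable_dom (P := fun P : PMap n => P) measurable_id p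
        convert this using 1
        ext P
        simp)
    · rw [measurable_pi_iff]
      intro a
      exact pmap_measurable_eval (P := fun P : PMap n => P) measurable_id a
  refine ⟨hinj, hmeas, ?_⟩
  intro S hS
  -- the sigma algebra is the comap
  have hle : (inferInstance : MeasurableSpace (PMap n)) ≤
      MeasurableSpace.comap (pcode : PMap n → _) inferInstance := by
    have := @measurable_pmap n (PMap n) (MeasurableSpace.comap (pcode : PMap n → _) inferInstance)
      (fun P => P) ?_ ?_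
    · exact fun s hs => this hs
    · intro p
      refine ⟨{z | z.1 p}, ((measurable_pi_apply p).comp measurable_fst).setOf, rfl⟩
    · intro a
      have h1 : @Measurable (PMap n) ((ℕ × ℕ → Prop) × (ℕ → E n))
        (MeasurableSpace.comap pcode inferInstance) _ pcode := comap_measurable _
      have h0 : Measurable fun z : (ℕ × ℕ → Prop) × (ℕ → E n) => z.2 a :=
        (measurable_pi_apply a).comp measurable_snd
      exact h0.comp h1
  obtain ⟨S', hS', rfl⟩ := hle S hS
  rw [image_preimage_eq_inter_range, pcode_range]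
  exact hS'.inter (pvalid_measurable n)

instance standardBorel_pmap (n : ℕ) : StandardBorelSpace (PMap n) :=
  standardBorel_of_embedding (pcode_embedding n)

end MP7d75
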